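import Pool.Agent.Lib.MP_89fc28_gt.Defs

set_option autoImplicit false

namespace Pool.Agent.AVR

open Finset Topology

/-! ### algebra -/

section Alg

variable {W W' W'' : Type*}

theorem z2_add_self (a : ZMod 2) : a + a = 0 := CharTwo.add_self_eq_zero a

theorem z2_eq_of_add (a b : ZMod 2) (h : a + b = 0) : a = b := by
  have := congrArg (· + b) h
  simp only [add_assoc, z2_add_self, add_zero, zero_add] at this
  exact this

theorem co_add_self (f : Finset W → ZMod 2) : f + f = 0 := by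
  funext S; exact z2_add_self _

theorem dd_add (f g : Finset W → ZMod 2) : dd (f + g) = dd f + dd g := by
  funext S; simp [dd, sum_add_distrib]

theorem dd_zero : dd (0 : Finset W → ZMod 2) = 0 := by
  funext S; simp [dd]

theorem dd_empty (f : Finset W → ZMod 2) : dd f ∅ = 0 := by simp [dd]

open Classical in
theorem dd_dd (f : Finset W → ZMod 2) : dd (dd f) = 0 := by
  funext S
  simp only [dd, Pi.zero_apply]
  have h1 : ∑ x ∈ S, ∑ y ∈ S.erase x, f ((S.erase x).erase y)
      = ∑ p ∈ S.offDiag, f ((S.erase p.1).erase p.2) := by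
    rw [sum_sigma']
    refine sum_bij' (fun p _ => (p.1, p.2)) (fun p _ => ⟨p.1, p.2⟩) ?_ ?_ ?_ ?_ ?_
    · rintro ⟨x, y⟩ h
      simp only [mem_sigma, mem_erase, mem_offDiag] at h ⊢
      exact ⟨h.1, h.2.2, fun e => h.2.1 e.symm⟩
    · rintro ⟨x, y⟩ h
      simp only [mem_sigma, mem_erase, mem_offDiag] at h ⊢
      exact ⟨h.1, fun e => h.2.2 e.symm, h.2.1⟩
    · intros; rfl
    · intros; rfl
    · intros; rfl
  rw [h1]
  refine sum_involution (fun p _ => (p.2, p.1)) ?_ ?_ ?_ ?_
  · rintro ⟨x, y⟩ h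
    simp only
    rw [erase_right_comm]
    exact z2_add_self _
  · rintro ⟨x, y⟩ h _
    simp only [mem_offDiag] at h
    intro e
    exact h.2.2 (congrArg Prod.fst e).symm
  · rintro ⟨x, y⟩ h
    simp only [mem_offDiag] at h ⊢
    exact ⟨h.2.1, h.1, fun e => h.2.2 e.symm⟩
  · rintro ⟨x, y⟩ h; rfl

theorem gst_add (g : W → W') (f f' : Finset W' → ZMod 2) :
    gst g (f + f') = gst g f + gst g f' := by
  funext S; simp only [gst, Pi.add_apply]; split_ifs <;> simp

theorem gst_zero (g : W → W') : gst g (0 : Finset W' → ZMod 2) = 0 := by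
  funext S; simp [gst]

open Classical in
theorem gst_of_inj (g : W → W') (f : Finset W' → ZMod 2) (S : Finset W)
    (h : Set.InjOn g (S : Set W)) : gst g f S = f (S.image g) := by
  simp only [gst]
  rw [if_pos (card_image_of_injOn h)]

theorem gst_of_not_inj (g : W → W') (f : Finset W' → ZMod 2) (S : Finset W)
    (h : ¬ Set.InjOn g (S : Set W)) : gst g f S = 0 := by
  classical
  simp only [gst]
  rw [if_neg (fun e => h (card_image_iff.mp e))]

open Classical in
theorem dd_gst (g : W → W') (f : Finset W' → ZMod 2) : dd (gst g f) = gst g (dd f) := by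
  funext S
  by_cases h : Set.InjOn g (S : Set W)
  · rw [gst_of_inj g _ S h]
    simp only [dd]
    rw [sum_image (fun x hx y hy e => h hx hy e)]
    refine sum_congr rfl fun x hx => ?_
    rw [gst_of_inj g _ _ (h.mono (by simp))]
    congr 1
    ext z
    simp only [mem_image, mem_erase]
    constructor
    · rintro ⟨y, ⟨hy, hyS⟩, rfl⟩
      exact ⟨fun e => hy (h hyS hx e), y, hyS, rfl⟩
    · rintro ⟨hz, y, hyS, rfl⟩
      exact ⟨y, ⟨fun e => hz (by rw [e]), hyS⟩, rfl⟩
  · rw [gst_of_not_inj g _ S h]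
    simp only [Set.InjOn, not_forall] at h
    obtain ⟨a, ha, b, hb, hab, hne⟩ := h
    have ha' : a ∈ S := ha
    have hb' : b ∈ S := hb
    simp only [dd]
    have h0 : ∀ x ∈ S, x ∉ ({a, b} : Finset W) → gst g f (S.erase x) = 0 := by
      intro x hx hxab
      simp only [mem_insert, mem_singleton, not_or] at hxab
      refine gst_of_not_inj g _ _ fun hi => hne (hi ?_ ?_ hab)
      · simp [ha', Ne.symm hxab.1]
      · simp [hb', Ne.symm hxab.2]
    rw [← sum_subset (s₁ := {a, b}) (by intro x hx; simp at hx; rcases hx with rfl | rfl <;> assumption)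
      (fun x hx hx' => h0 x hx hx')]
    rw [sum_pair hne]
    have him : (S.erase a).image g = (S.erase b).image g := by
      ext z
      simp only [mem_image, mem_erase]
      constructor
      · rintro ⟨y, ⟨hy, hyS⟩, rfl⟩
        by_cases hyb : y = b
        · exact ⟨a, ⟨hne, ha'⟩, by rw [hyb, hab]⟩
        · exact ⟨y, ⟨hyb, hyS⟩, rfl⟩
      · rintro ⟨y, ⟨hy, hyS⟩, rfl⟩
        by_cases hya : y = a
        · exact ⟨b, ⟨Ne.symm hne, hb'⟩, by rw [hya, hab]⟩
        · exact ⟨y, ⟨hya, hyS⟩, rfl⟩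
    have hc : (S.erase a).card = (S.erase b).card := by
      rw [card_erase_of_mem ha', card_erase_of_mem hb']
    simp only [gst, him, hc]
    exact z2_add_self _

open Classical in
theorem gst_gst (g : W → W') (h : W' → W'') (f : Finset W'' → ZMod 2) (S : Finset W) :
    gst g (gst h f) S = gst (h ∘ g) f S := by
  by_cases hi : Set.InjOn (h ∘ g) (S : Set W)
  · have hg : Set.InjOn g (S : Set W) := fun x hx y hy e => hi hx hy (by simp [e])
    have hh : Set.InjOn h ((S.image g : Finset W') : Set W') := by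
      intro x hx y hy e
      simp only [coe_image, Set.mem_image] at hx hy
      obtain ⟨x', hx', rfl⟩ := hx
      obtain ⟨y', hy', rfl⟩ := hy
      rw [hi hx' hy' e]
    rw [gst_of_inj _ _ _ hi, gst_of_inj _ _ _ hg, gst_of_inj _ _ _ hh, image_image]
  · rw [gst_of_not_inj _ _ _ hi]
    by_cases hg : Set.InjOn g (S : Set W)
    · rw [gst_of_inj _ _ _ hg]
      refine gst_of_not_inj _ _ _ fun hh => hi ?_
      intro x hx y hy e
      exact hg hx hy (hh (by simpa using ⟨x, hx, rfl⟩) (by simpa using ⟨y, hy, rfl⟩) e)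
    · rw [gst_of_not_inj _ _ _ hg]

theorem gst_id (f : Finset W → ZMod 2) : gst id f = f := by
  classical
  funext S
  rw [gst_of_inj id f S (Set.injOn_id _)]
  simp

open Classical in
theorem gst_congr {g h : W → W'} (f : Finset W' → ZMod 2) (S : Finset W)
    (e : ∀ x ∈ S, g x = h x) : gst g f S = gst h f S := by
  simp only [gst]
  rw [image_congr (fun x hx => e x hx)]

theorem gst_empty (g : W → W') (f : Finset W' → ZMod 2) : gst g f ∅ = f ∅ := by
  simp [gst]

theorem kap_add (b : W) (f g : Finset W → ZMod 2) : kap b (f + g) = kap b f + kap b g := by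
  funext S; simp only [kap, Pi.add_apply]; split_ifs <;> simp

open Classical in
theorem kap_dd (b : W) (f : Finset W → ZMod 2) : kap b (dd f) = f + dd (kap b f) := by
  funext S
  simp only [kap, dd, Pi.add_apply]
  by_cases hb : b ∈ S
  · rw [if_pos hb]
    rw [sum_eq_single_of_mem b hb]
    · simp [insert_erase hb, z2_add_self]
    · intro x hx hxb
      rw [if_pos (by simp [hb, Ne.symm hxb])]
  · rw [if_neg hb, sum_insert hb, erase_insert hb]
    congr 1
    refine sum_congr rfl fun x hx => ?_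
    have hbx : b ≠ x := fun e => hb (e ▸ hx)
    rw [if_neg (by simp [hb]), erase_insert_of_ne hbx]

theorem res_add (A : Set W) (f g : Finset W → ZMod 2) : res A (f + g) = res A f + res A g := by
  funext S; simp only [res, Pi.add_apply]; split_ifs <;> simp

theorem res_zero (A : Set W) : res A (0 : Finset W → ZMod 2) = 0 := by
  funext S; simp [res]

theorem res_of_subset {A : Set W} (f : Finset W → ZMod 2) {S : Finset W}
    (h : (S : Set W) ⊆ A) : res A f S = f S := by simp [res, h]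

theorem res_of_not_subset {A : Set W} (f : Finset W → ZMod 2) {S : Finset W}
    (h : ¬ (S : Set W) ⊆ A) : res A f S = 0 := by simp [res, h]

theorem res_empty (A : Set W) (f : Finset W → ZMod 2) : res A f ∅ = f ∅ := by simp [res]

theorem res_ne_zero {A : Set W} {f : Finset W → ZMod 2} {S : Finset W} (h : res A f S ≠ 0) :
    (S : Set W) ⊆ A ∧ f S ≠ 0 := by
  by_cases h' : (S : Set W) ⊆ A
  · exact ⟨h', by rwa [res_of_subset f h'] at h⟩
  · exact absurd (res_of_not_subset f h') h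

theorem dd_res {A : Set W} (f : Finset W → ZMod 2) {S : Finset W}
    (h : (S : Set W) ⊆ A) : dd (res A f) S = dd f S := by
  classical
  simp only [dd]
  refine sum_congr rfl fun x hx => res_of_subset f ?_
  exact subset_trans (by simp) h

theorem dd_congr {f g : Finset W → ZMod 2} {S : Finset W}
    (h : ∀ T, T ⊆ S → T.card + 1 = S.card → f T = g T) : dd f S = dd g S := by
  classical
  simp only [dd]
  refine sum_congr rfl fun x hx => h _ (erase_subset x S) ?_
  rw [card_erase_of_mem hx]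
  have := card_pos.mpr ⟨x, hx⟩
  omega

theorem pull_add (A : Set W) (g : W → W') (f f' : Finset W' → ZMod 2) :
    pull A g (f + f') = pull A g f + pull A g f' := by
  simp only [pull, gst_add, res_add]

theorem pull_zero (A : Set W) (g : W → W') : pull A g (0 : Finset W' → ZMod 2) = 0 := by
  simp only [pull, gst_zero, res_zero]

theorem dd_pull {A : Set W} (g : W → W') (f : Finset W' → ZMod 2) {S : Finset W}
    (h : (S : Set W) ⊆ A) : dd (pull A g f) S = gst g (dd f) S := by
  rw [pull, dd_res _ h, dd_gst]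

end Alg

/-! ### local vanishing -/

section Loc

variable {W : Type*} [TopologicalSpace W] {A A₁ : Set W} {n : ℕ} {f g : Finset W → ZMod 2} {x : W}

theorem LzAt.add (hf : LzAt A n f x) (hg : LzAt A n g x) : LzAt A n (f + g) x := by
  obtain ⟨U, hU, h⟩ := hf
  obtain ⟨V, hV, h'⟩ := hg
  refine ⟨U ∩ V, Filter.inter_mem hU hV, fun S hS hSU hSA => ?_⟩
  rw [Pi.add_apply, h S hS (hSU.trans Set.inter_subset_left) hSA,
    h' S hS (hSU.trans Set.inter_subset_right) hSA, add_zero]

theorem LzAt.zero : LzAt A n (0 : Finset W → ZMod 2) x :=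
  ⟨Set.univ, Filter.univ_mem, fun _ _ _ _ => rfl⟩

theorem LzAt.dd (hf : LzAt A n f x) : LzAt A (n + 1) (dd f) x := by
  obtain ⟨U, hU, h⟩ := hf
  refine ⟨U, hU, fun S hS hSU hSA => ?_⟩
  have : AVR.dd f S = AVR.dd (0 : Finset W → ZMod 2) S := dd_congr fun T hT hc => by
    have hT' : (T : Set W) ⊆ S := by exact_mod_cast hT
    exact h T (by omega) (hT'.trans hSU) (hT'.trans hSA)
  rw [this, dd_zero]; rfl

theorem LzAt.mono (hA : A₁ ⊆ A) (hf : LzAt A n f x) : LzAt A₁ n f x := by
  obtain ⟨U, hU, h⟩ := hf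
  exact ⟨U, hU, fun S hS hSU hSA => h S hS hSU (hSA.trans hA)⟩

theorem LzAt.congr (h : ∃ U ∈ 𝓝 x, ∀ S : Finset W, S.card = n → (S : Set W) ⊆ U →
    (S : Set W) ⊆ A → f S = g S) (hf : LzAt A n f x) : LzAt A n g x := by
  obtain ⟨U, hU, h⟩ := h
  obtain ⟨V, hV, h'⟩ := hf
  refine ⟨U ∩ V, Filter.inter_mem hU hV, fun S hS hSU hSA => ?_⟩
  rw [← h S hS (hSU.trans Set.inter_subset_left) hSA]
  exact h' S hS (hSU.trans Set.inter_subset_right) hSA

theorem Lz.add (hf : Lz A n f) (hg : Lz A n g) : Lz A n (f + g) :=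
  fun x hx => (hf x hx).add (hg x hx)

theorem Lz.zero : Lz A n (0 : Finset W → ZMod 2) := fun _ _ => LzAt.zero

theorem Lz.dd (hf : Lz A n f) : Lz A (n + 1) (AVR.dd f) := fun x hx => (hf x hx).dd

theorem Lz.mono (hA : A₁ ⊆ A) (hf : Lz A n f) : Lz A₁ n f :=
  fun x hx => (hf x (hA hx)).mono hA

theorem Lz.of_eq (h : ∀ S : Finset W, S.card = n → (S : Set W) ⊆ A → f S = 0) : Lz A n f :=
  fun _ _ => ⟨Set.univ, Filter.univ_mem, fun S hS _ hSA => h S hS hSA⟩

theorem Lz.congr (h : ∀ S : Finset W, S.card = n → (S : Set W) ⊆ A → f S = g S)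
    (hf : Lz A n f) : Lz A n g :=
  fun x hx => (hf x hx).congr ⟨Set.univ, Filter.univ_mem, fun S hS _ hSA => h S hS hSA⟩

/-- sets near a point outside the support -/
theorem LzAt.of_notin {L : Set W} (hL : IsClosed L) (h0 : f ∅ = 0)
    (hf : ∀ S : Finset W, f S ≠ 0 → (S : Set W) ⊆ L) (hx : x ∉ L) : LzAt A n f x := by
  refine ⟨Lᶜ, hL.isOpen_compl.mem_nhds hx, fun S _ hSU _ => ?_⟩
  by_contra hne
  rcases S.eq_empty_or_nonempty with rfl | ⟨y, hy⟩
  · exact hne h0
  · exact hSU hy (hf S hne hy)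

theorem LzAt.dd_of_notin {L : Set W} (hL : IsClosed L) (h0 : f ∅ = 0)
    (hf : ∀ S : Finset W, f S ≠ 0 → (S : Set W) ⊆ L) (hx : x ∉ L) : LzAt A n (AVR.dd f) x := by
  refine ⟨Lᶜ, hL.isOpen_compl.mem_nhds hx, fun S _ hSU _ => ?_⟩
  have : AVR.dd f S = AVR.dd (0 : Finset W → ZMod 2) S := dd_congr fun T hT hc => by
    by_contra hne
    rcases T.eq_empty_or_nonempty with rfl | ⟨y, hy⟩
    · exact hne h0
    · exact hSU (hT hy) (hf T hne hy)
  rw [this, dd_zero]; rfl

end Loc

/-! ### compact supports -/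

section Sup

variable {W : Type*} [TopologicalSpace W] {A A₁ : Set W} {n : ℕ} {f g e : Finset W → ZMod 2}

theorem CS.zero : CS A (0 : Finset W → ZMod 2) :=
  ⟨rfl, ∅, isCompact_empty, Set.empty_subset _, fun _ h => absurd rfl h⟩

theorem CS.add (hf : CS A f) (hg : CS A g) : CS A (f + g) := by
  obtain ⟨h0, L, hL, hLA, h⟩ := hf
  obtain ⟨h0', L', hL', hLA', h'⟩ := hg
  refine ⟨by simp [h0, h0'], L ∪ L', hL.union hL', Set.union_subset hLA hLA', fun S hS => ?_⟩
  by_cases hfS : f S = 0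
  · have : g S ≠ 0 := fun e => hS (by simp [hfS, e])
    exact (h' S this).trans Set.subset_union_right
  · exact (h S hfS).trans Set.subset_union_left

theorem CS.mono (hA : A₁ ⊆ A) (hf : CS A₁ f) : CS A f := by
  obtain ⟨h0, L, hL, hLA, h⟩ := hf
  exact ⟨h0, L, hL, hLA.trans hA, h⟩

theorem CS.res_closed {C : Set W} (hC : IsClosed C) (hf : CS A f) : CS (A ∩ C) (res C f) := by
  obtain ⟨h0, L, hL, hLA, h⟩ := hf
  refine ⟨by rw [res_empty, h0], L ∩ C, hL.inter_right hC,
    Set.inter_subset_inter_left _ hLA, fun S hS => ?_⟩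
  obtain ⟨h1, h2⟩ := res_ne_zero hS
  exact Set.subset_inter (h S h2) h1

theorem CS.res_compact {K : Set W} (hK : IsCompact K) (hKA : K ⊆ A) (h0 : f ∅ = 0) :
    CS A (res K f) :=
  ⟨by rw [res_empty, h0], K, hK, hKA, fun _ hS => (res_ne_zero hS).1⟩

theorem Lz.of_CS [T2Space W] {U₀ : Set W} (hU : IsOpen U₀) (hf : CS (A ∩ U₀) f)
    (h : Lz (A ∩ U₀) n f) : Lz A n f := by
  obtain ⟨h0, L, hL, hLA, hs⟩ := hf
  intro x hx
  by_cases hxL : x ∈ L
  · obtain ⟨V, hV, h'⟩ := h x (hLA hxL)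
    refine ⟨V ∩ U₀, Filter.inter_mem hV (hU.mem_nhds (hLA hxL).2), fun S hS hSU hSA => ?_⟩
    exact h' S hS (hSU.trans Set.inter_subset_left)
      (Set.subset_inter hSA (hSU.trans Set.inter_subset_right))
  · exact LzAt.of_notin hL.isClosed h0 hs hxL

theorem Lz.dd_of_CS [T2Space W] {U₀ : Set W} (hU : IsOpen U₀) (hf : CS (A ∩ U₀) f)
    (h : Lz (A ∩ U₀) n (AVR.dd f)) : Lz A n (AVR.dd f) := by
  obtain ⟨h0, L, hL, hLA, hs⟩ := hf
  intro x hx
  by_cases hxL : x ∈ L
  · obtain ⟨V, hV, h'⟩ := h x (hLA hxL)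
    refine ⟨V ∩ U₀, Filter.inter_mem hV (hU.mem_nhds (hLA hxL).2), fun S hS hSU hSA => ?_⟩
    exact h' S hS (hSU.trans Set.inter_subset_left)
      (Set.subset_inter hSA (hSU.trans Set.inter_subset_right))
  · exact LzAt.dd_of_notin hL.isClosed h0 hs hxL

/-! ### coboundaries -/

theorem Bc.of_Lz (h : Lz A n f) : Bc A n f := ⟨0, CS.zero, by rwa [dd_zero, add_zero]⟩

theorem Bc.zero : Bc A n (0 : Finset W → ZMod 2) := Bc.of_Lz Lz.zero

theorem Bc.add (hf : Bc A n f) (hg : Bc A n g) : Bc A n (f + g) := by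
  obtain ⟨e, he, h⟩ := hf
  obtain ⟨e', he', h'⟩ := hg
  refine ⟨e + e', he.add he', ?_⟩
  have := h.add h'
  rw [dd_add]
  convert this using 1
  abel

theorem Bc.dd (he : CS A e) : Bc A n (AVR.dd e) :=
  ⟨e, he, by rw [co_add_self]; exact Lz.zero⟩

/-- `f` may be replaced by any cochain which is locally equal to it -/
theorem Bc.of_add (h : Bc A n (f + g)) (hg : Bc A n g) : Bc A n f := by
  have := h.add hg
  rwa [add_assoc, co_add_self, add_zero] at this

theorem Zc.zero : Zc A n (0 : Finset W → ZMod 2) :=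
  ⟨CS.zero, by rw [dd_zero]; exact Lz.zero⟩

theorem Zc.add (hf : Zc A n f) (hg : Zc A n g) : Zc A n (f + g) :=
  ⟨hf.1.add hg.1, by rw [dd_add]; exact hf.2.add hg.2⟩

theorem Zc.congr (hf : CS A f) (hg : Zc A n g) (h : Lz A n (f + g)) : Zc A n f := by
  refine ⟨hf, ?_⟩
  have := h.dd.add hg.2
  rwa [dd_add, add_assoc, co_add_self, add_zero] at this

/-- a cochain cohomologous to a cocycle is a cocycle -/
theorem Zc.of_Bc (hf : CS A f) (hg : Zc A n g) (h : Bc A n (f + g)) : Zc A n f := by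
  obtain ⟨e, he, h⟩ := h
  refine ⟨hf, ?_⟩
  have := h.dd.add hg.2
  rwa [dd_add, dd_dd, add_zero, dd_add, add_assoc, co_add_self, add_zero] at this

theorem Bc.mono [T2Space W] {U₀ : Set W} (hU : IsOpen U₀) (hf : CS (A ∩ U₀) f)
    (h : Bc (A ∩ U₀) n f) : Bc A n f := by
  obtain ⟨e, he, h⟩ := h
  refine ⟨e, he.mono Set.inter_subset_left, fun x hx => ?_⟩
  by_cases hxU : x ∈ U₀
  · obtain ⟨V, hV, h'⟩ := h x ⟨hx, hxU⟩
    refine ⟨V ∩ U₀, Filter.inter_mem hV (hU.mem_nhds hxU), fun S hS hSU hSA => ?_⟩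
    exact h' S hS (hSU.trans Set.inter_subset_left)
      (Set.subset_inter hSA (hSU.trans Set.inter_subset_right))
  · obtain ⟨h0, L, hL, hLA, hs⟩ := hf
    obtain ⟨h0', L', hL', hLA', hs'⟩ := he
    exact (LzAt.of_notin hL.isClosed h0 hs (fun h => hxU (hLA h).2)).add
      (LzAt.dd_of_notin hL'.isClosed h0' hs' (fun h => hxU (hLA' h).2))

theorem Zc.mono [T2Space W] {U₀ : Set W} (hU : IsOpen U₀) (h : Zc (A ∩ U₀) n f) : Zc A n f :=
  ⟨h.1.mono Set.inter_subset_left, Lz.dd_of_CS hU h.1 h.2⟩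

theorem Zc.res_closed {C : Set W} (hC : IsClosed C) (h : Zc A n f) : Zc (A ∩ C) n (res C f) := by
  refine ⟨h.1.res_closed hC, ?_⟩
  refine Lz.congr (f := AVR.dd f) (fun S _ hSA => ?_) (h.2.mono Set.inter_subset_left)
  rw [dd_res _ (hSA.trans Set.inter_subset_right)]

theorem Bc.res_closed {C : Set W} (hC : IsClosed C) (h : Bc A n f) : Bc (A ∩ C) n (res C f) := by
  obtain ⟨e, he, h⟩ := h
  refine ⟨res C e, he.res_closed hC, ?_⟩
  refine Lz.congr (f := f + AVR.dd e) (fun S _ hSA => ?_) (h.mono Set.inter_subset_left)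
  rw [Pi.add_apply, Pi.add_apply, dd_res _ (hSA.trans Set.inter_subset_right),
    res_of_subset _ (hSA.trans Set.inter_subset_right)]

end Sup

end Pool.Agent.AVR
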