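import Pool.Agent.Lib.MP_89fc28_gt.Alg

set_option autoImplicit false

namespace Pool.Agent.AVR

open Finset Topology

section
variable {W W' W'' : Type*} [TopologicalSpace W] [TopologicalSpace W'] [TopologicalSpace W'']
  {A : Set W} {A' : Set W'} {A'' : Set W''} {n : ℕ} {g : W → W'} {g' : W' → W}
  {f f₁ : Finset W' → ZMod 2}

theorem HM.symm (h : HM A A' g g') : HM A' A g' g :=
  ⟨h.2.1, h.1, h.2.2.2.1, h.2.2.1, h.2.2.2.2.2, h.2.2.2.2.1⟩

theorem HM.pm (h : HM A A' g g') : PM A A' g := by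
  obtain ⟨m1, m2, c1, c2, e1, e2⟩ := h
  refine ⟨m1, c1, fun L' hL' hLA' => ⟨g' '' L', hL'.image_of_continuousOn (c2.mono hLA'), ?_, ?_⟩⟩
  · rintro _ ⟨y, hy, rfl⟩
    exact m2 (hLA' hy)
  · intro x hx hxL
    exact ⟨g x, hxL, e1 x hx⟩

theorem PM.comp {h : W' → W''} (hg : PM A A' g) (hh : PM A' A'' h) : PM A A'' (h ∘ g) := by
  refine ⟨hh.1.comp hg.1, hh.2.1.comp hg.2.1 hg.1, fun L'' hL hLA => ?_⟩
  obtain ⟨L', hL', hLA', h1⟩ := hh.2.2 L'' hL hLA
  obtain ⟨L, hL, hLA, h2⟩ := hg.2.2 L' hL' hLA'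
  exact ⟨L, hL, hLA, fun x hx hxL => h2 x hx (h1 _ (hg.1 hx) hxL)⟩

omit [TopologicalSpace W] [TopologicalSpace W'] in
theorem trans_image {S : Finset W} {M : Set W'} [DecidableEq W'] (hM : ∀ x ∈ S, g x ∈ M) :
    ((S.image g : Finset W') : Set W') ⊆ M := by
  intro y hy
  rw [coe_image] at hy
  obtain ⟨x, hx, rfl⟩ := hy
  exact hM x hx

theorem PM.CS (hg : PM A A' g) (hf : CS A' f) : CS A (pull A g f) := by
  classical
  obtain ⟨h0, L', hL', hLA', hs⟩ := hf
  obtain ⟨L, hL, hLA, h1⟩ := hg.2.2 L' hL' hLA'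
  refine ⟨by rw [pull, res_empty, gst_empty, h0], L, hL, hLA, fun S hS x hx => ?_⟩
  obtain ⟨hSA, hne⟩ := res_ne_zero hS
  have hi : Set.InjOn g (S : Set W) := by
    by_contra hi; exact hne (gst_of_not_inj g _ S hi)
  rw [gst_of_inj g _ S hi] at hne
  exact h1 x (hSA hx) (hs _ hne (by simpa using ⟨x, hx, rfl⟩))

theorem PM.Lz (hg : PM A A' g) (hf : Lz A' n f) : Lz A n (pull A g f) := by
  classical
  intro x hx
  obtain ⟨V, hV, h⟩ := hf (g x) (hg.1 hx)
  obtain ⟨U, hU, hUV⟩ := mem_nhdsWithin_iff_exists_mem_nhds_inter.mp (hg.2.1 x hx hV)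
  refine ⟨U, hU, fun S h1 h2 h3 => ?_⟩
  rw [pull, res_of_subset _ h3]
  by_cases hi : Set.InjOn g (S : Set W)
  · rw [gst_of_inj g _ S hi]
    refine h _ (by rw [card_image_of_injOn hi, h1]) (trans_image fun y hy => hUV ⟨h2 hy, h3 hy⟩)
      (trans_image fun y hy => hg.1 (h3 hy))
  · exact gst_of_not_inj g _ S hi

omit [TopologicalSpace W] [TopologicalSpace W'] in
theorem trans_dd_pull (g : W → W') (f : Finset W' → ZMod 2) {S : Finset W}
    (h : (S : Set W) ⊆ A) : dd (pull A g f) S = pull A g (dd f) S := by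
  rw [dd_pull g f h, pull, res_of_subset _ h]

theorem PM.Zc (hg : PM A A' g) (hf : Zc A' n f) : Zc A n (pull A g f) := by
  refine ⟨hg.CS hf.1, (hg.Lz hf.2).congr fun S _ hS => ?_⟩
  rw [trans_dd_pull g f hS]

theorem PM.Bc (hg : PM A A' g) (hf : Bc A' n f) : Bc A n (pull A g f) := by
  obtain ⟨e, he, h⟩ := hf
  refine ⟨pull A g e, hg.CS he, (hg.Lz h).congr fun S _ hS => ?_⟩
  rw [pull_add, Pi.add_apply, Pi.add_apply, trans_dd_pull g e hS]

omit [TopologicalSpace W] [TopologicalSpace W'] [TopologicalSpace W''] in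
theorem pull_pull (hg : Set.MapsTo g A A') (h : W' → W'') (f : Finset W'' → ZMod 2) :
    pull A g (pull A' h f) = pull A (h ∘ g) f := by
  classical
  funext S
  by_cases hS : (S : Set W) ⊆ A
  · rw [pull, pull, pull, res_of_subset _ hS, res_of_subset _ hS, ← gst_gst]
    by_cases hi : Set.InjOn g (S : Set W)
    · rw [gst_of_inj g _ S hi, gst_of_inj g _ S hi,
        res_of_subset _ (trans_image fun y hy => hg (hS hy))]
    · rw [gst_of_not_inj g _ S hi, gst_of_not_inj g _ S hi]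
  · rw [pull, res_of_not_subset _ hS, pull, res_of_not_subset _ hS]

omit [TopologicalSpace W] [TopologicalSpace W'] in
/-- two functions that agree on `A` have the same pull-back -/
theorem pull_congr {g₁ g₂ : W → W'} (h : ∀ x ∈ A, g₁ x = g₂ x) :
    pull A g₁ f = pull A g₂ f := by
  funext S
  by_cases hS : (S : Set W) ⊆ A
  · rw [pull, pull, res_of_subset _ hS, res_of_subset _ hS]
    exact gst_congr f S fun x hx => h x (hS hx)
  · rw [pull, pull, res_of_not_subset _ hS, res_of_not_subset _ hS]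

omit [TopologicalSpace W] in
theorem pull_id (f : Finset W → ZMod 2) : pull A id f = res A f := by
  rw [pull, gst_id]

theorem HM.pull_pull (h : HM A A' g g') (f : Finset W → ZMod 2) :
    pull A g (pull A' g' f) = res A f := by
  rw [AVR.pull_pull h.1, pull_congr (g₁ := g' ∘ g) (g₂ := id) (fun x hx => h.2.2.2.2.1 x hx), pull_id]

theorem CS.res_self (hf : CS A' f) : res A' f = f := by
  obtain ⟨h0, L, hL, hLA, hs⟩ := hf
  funext S
  by_cases hS : (S : Set W') ⊆ A'
  · rw [res_of_subset _ hS]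
  · rw [res_of_not_subset _ hS]
    by_contra hne
    exact hS ((hs S (Ne.symm hne)).trans hLA)

theorem HM.Bc_iff (h : HM A A' g g') (hf : CS A' f) : Bc A n (pull A g f) ↔ Bc A' n f := by
  constructor
  · intro hb
    have := h.symm.pm.Bc hb
    rwa [h.symm.pull_pull, hf.res_self] at this
  · exact fun hb => h.pm.Bc hb

theorem HM.Van (h : HM A A' g g') (hv : Van A' n) : Van A n := by
  intro f hf
  have := h.pm.Bc (hv _ (h.symm.pm.Zc hf))
  rwa [h.pull_pull, hf.1.res_self] at this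

theorem HM.Dim1 (h : HM A A' g g') (hv : Dim1 A' n) : Dim1 A n := by
  intro f₁ f₂ h₁ h₂
  rcases hv _ _ (h.symm.pm.Zc h₁) (h.symm.pm.Zc h₂) with h' | h' | h'
  · have := h.pm.Bc h'
    rw [h.pull_pull, h₁.1.res_self] at this
    exact Or.inl this
  · have := h.pm.Bc h'
    rw [h.pull_pull, h₂.1.res_self] at this
    exact Or.inr (Or.inl this)
  · rw [← pull_add] at h'
    have := h.pm.Bc h'
    rw [h.pull_pull, (h₁.1.add h₂.1).res_self] at this
    exact Or.inr (Or.inr this)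

theorem HM.nonzero (h : HM A A' g g') (hv : ∃ f, AVR.Zc A' n f ∧ ¬ AVR.Bc A' n f) :
    ∃ f, AVR.Zc A n f ∧ ¬ AVR.Bc A n f := by
  obtain ⟨f, hf, hb⟩ := hv
  exact ⟨pull A g f, h.pm.Zc hf, fun h' => hb ((h.Bc_iff hf.1).mp h')⟩

end

end Pool.Agent.AVR
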