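import Pool.Agent.Lib.MP_89fc28_gt.Htpy
import Pool.Agent.Lib.MP_89fc28_gt.Trans

set_option autoImplicit false

namespace Pool.Agent.AVR

open Finset Topology

/-- the increasing homeomorphism of the line onto an interval -/
noncomputable def cubeF {D : ℕ} (a b : Fin D → ℝ) (x : Fin D → ℝ) : Fin D → ℝ :=
  fun i => a i + (b i - a i) * (Real.exp (x i) / (1 + Real.exp (x i)))

/-- its inverse -/
noncomputable def cubeG {D : ℕ} (a b : Fin D → ℝ) (y : Fin D → ℝ) : Fin D → ℝ :=
  fun i => Real.log ((y i - a i) / (b i - y i))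

theorem cube_gf (a b x : ℝ) (hab : a < b) :
    Real.log (((a + (b - a) * (Real.exp x / (1 + Real.exp x))) - a) /
      (b - (a + (b - a) * (Real.exp x / (1 + Real.exp x))))) = x := by
  have h1 : 0 < 1 + Real.exp x := by positivity
  have h2 : 0 < b - a := by linarith
  have h3 : ((a + (b - a) * (Real.exp x / (1 + Real.exp x))) - a) /
      (b - (a + (b - a) * (Real.exp x / (1 + Real.exp x)))) = Real.exp x := by
    have e1 : b - (a + (b - a) * (Real.exp x / (1 + Real.exp x))) = (b - a) / (1 + Real.exp x) := by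
      field_simp
      ring
    rw [e1, add_sub_cancel_left]
    field_simp
  rw [h3, Real.log_exp]

theorem cube_fg (a b y : ℝ) (h1 : a < y) (h2 : y < b) :
    a + (b - a) * (Real.exp (Real.log ((y - a) / (b - y))) /
      (1 + Real.exp (Real.log ((y - a) / (b - y))))) = y := by
  have h3 : 0 < y - a := by linarith
  have h4 : 0 < b - y := by linarith
  have h5 : 0 < b - a := by linarith
  rw [Real.exp_log (by positivity)]
  have h6 : 1 + (y - a) / (b - y) = (b - a) / (b - y) := by
    field_simp
    ring
  rw [h6]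
  field_simp
  ring

theorem cube_mem (a b x : ℝ) (hab : a < b) :
    a < a + (b - a) * (Real.exp x / (1 + Real.exp x)) ∧
      a + (b - a) * (Real.exp x / (1 + Real.exp x)) < b := by
  have h2 : 0 < b - a := by linarith
  have h3 : 0 < Real.exp x := Real.exp_pos x
  have h4 : Real.exp x / (1 + Real.exp x) < 1 := by
    rw [div_lt_one (by positivity)]; linarith
  have h5 : 0 < Real.exp x / (1 + Real.exp x) := by positivity
  constructor
  · nlinarith
  · nlinarith

theorem cube_mono (a b x y : ℝ) (hab : a < b) (h : x < y) :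
    a + (b - a) * (Real.exp x / (1 + Real.exp x)) <
      a + (b - a) * (Real.exp y / (1 + Real.exp y)) := by
  have h2 : 0 < b - a := by linarith
  have h3 : Real.exp x < Real.exp y := Real.exp_lt_exp.2 h
  have h4 := Real.exp_pos x
  have h5 := Real.exp_pos y
  have h6 : Real.exp x / (1 + Real.exp x) < Real.exp y / (1 + Real.exp y) := by
    rw [div_lt_div_iff₀ (by positivity) (by positivity)]
    nlinarith
  have := mul_lt_mul_of_pos_left h6 h2
  linarith

theorem cubeF_cont {D : ℕ} (a b : Fin D → ℝ) : Continuous (cubeF a b) := by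
  refine continuous_pi fun i => ?_
  unfold cubeF
  have h : ∀ x : Fin D → ℝ, 1 + Real.exp (x i) ≠ 0 := fun x => by positivity
  have h1 : Continuous fun x : Fin D → ℝ => Real.exp (x i) :=
    Real.continuous_exp.comp (continuous_apply i)
  exact continuous_const.add (continuous_const.mul (h1.div (continuous_const.add h1) h))

theorem cube_hm (D : ℕ) (a b : Fin D → ℝ) (hab : ∀ i, a i < b i) :
    HM (Set.univ : Set (Fin D → ℝ)) (Set.pi Set.univ fun i => Set.Ioo (a i) (b i))
      (cubeF a b) (cubeG a b) := by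
  refine ⟨?_, fun _ _ => Set.mem_univ _, (cubeF_cont a b).continuousOn, ?_, ?_, ?_⟩
  · intro x _ i _
    exact cube_mem (a i) (b i) (x i) (hab i)
  · rw [continuousOn_pi]
    intro i
    unfold cubeG
    have hy : ∀ y ∈ (Set.pi Set.univ fun i => Set.Ioo (a i) (b i)),
        0 < y i - a i ∧ 0 < b i - y i := by
      intro y hy
      have := hy i (Set.mem_univ i)
      exact ⟨by linarith [this.1], by linarith [this.2]⟩
    refine ContinuousOn.log ?_ ?_
    · refine ContinuousOn.div ?_ ?_ ?_
      · exact ((continuous_apply i).sub continuous_const).continuousOn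
      · exact (continuous_const.sub (continuous_apply i)).continuousOn
      · intro y h; exact (hy y h).2.ne'
    · intro y h
      exact (div_pos (hy y h).1 (hy y h).2).ne'
  · intro x _
    funext i
    exact cube_gf (a i) (b i) (x i) (hab i)
  · intro y hy
    funext i
    have := hy i (Set.mem_univ i)
    exact cube_fg (a i) (b i) (y i) this.1 this.2

/-- an open cube (product of bounded open intervals) is homeomorphic to the whole space -/
theorem hm_cube (D : ℕ) (a b : Fin D → ℝ) (hab : ∀ i, a i < b i) :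
    ∃ g g', HM (Set.univ : Set (Fin D → ℝ)) (Set.pi Set.univ fun i => Set.Ioo (a i) (b i)) g g' :=
  ⟨cubeF a b, cubeG a b, cube_hm D a b hab⟩

theorem cube_bounds (D : ℕ) (a b : Fin D → ℝ) (hab : ∀ i, a i < b i) (L : Set (Fin D → ℝ))
    (hL : IsCompact L) (hLQ : L ⊆ Set.pi Set.univ fun i => Set.Ioo (a i) (b i)) (i : Fin D) :
    ∃ l u, a i < l ∧ l < b i ∧ a i < u ∧ u < b i ∧ ∀ x ∈ L, l ≤ x i ∧ x i ≤ u := by
  rcases L.eq_empty_or_nonempty with rfl | hne
  · refine ⟨(a i + b i)/2, (a i + b i)/2, ?_, ?_, ?_, ?_, fun x hx => absurd hx (by simp)⟩ <;>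
      linarith [hab i]
  · obtain ⟨p, hp, h1⟩ := hL.exists_isMinOn hne (continuous_apply i).continuousOn
    obtain ⟨q, hq, h2⟩ := hL.exists_isMaxOn hne (continuous_apply i).continuousOn
    have hp' := hLQ hp i (Set.mem_univ i)
    have hq' := hLQ hq i (Set.mem_univ i)
    exact ⟨p i, q i, hp'.1, hp'.2, hq'.1, hq'.2, fun x hx => ⟨h1 hx, h2 hx⟩⟩

/-- a nonzero class of a cube stays nonzero in the whole space -/
theorem rd_cube (D : ℕ) (a b : Fin D → ℝ) (hab : ∀ i, a i < b i) (f : Finset (Fin D → ℝ) → ZMod 2)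
    (hf : Zc (Set.pi Set.univ fun i => Set.Ioo (a i) (b i)) (D + 1) f)
    (hb : ¬ Bc (Set.pi Set.univ fun i => Set.Ioo (a i) (b i)) (D + 1) f) :
    ¬ Bc (Set.univ : Set (Fin D → ℝ)) (D + 1) f := by
  intro hbu
  apply hb
  have hQ : IsOpen (Set.pi Set.univ fun i => Set.Ioo (a i) (b i) : Set (Fin D → ℝ)) :=
    isOpen_set_pi Set.finite_univ fun i _ => isOpen_Ioo
  have hfu : Zc (Set.univ : Set (Fin D → ℝ)) (D + 1) f := by
    refine Zc.mono (A := Set.univ) hQ ?_
    rw [Set.univ_inter]; exact hf
  obtain ⟨L', hL', hLQ, hs⟩ := hf.1.2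
  choose l u h1 h2 h3 h4 h5 using cube_bounds D a b hab L' hL' hLQ
  have hhm := cube_hm D a b hab
  set L : Set (Fin D → ℝ) := Set.pi Set.univ fun i =>
    Set.Icc (min (l i) (cubeG a b l i)) (max (u i) (cubeG a b u i)) with hLdef
  have hLc : IsCompact L := isCompact_univ_pi fun i => isCompact_Icc
  have hgl : ∀ i, cubeF a b (cubeG a b l) i = l i := by
    intro i
    have := hhm.2.2.2.2.2 l (fun j _ => ⟨h1 j, h2 j⟩)
    rw [this]
  have hgu : ∀ i, cubeF a b (cubeG a b u) i = u i := by
    intro i
    have := hhm.2.2.2.2.2 u (fun j _ => ⟨h3 j, h4 j⟩)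
    rw [this]
  have hH := homotopy_inv (A := (Set.univ : Set (Fin D → ℝ))) (A' := Set.univ) (n := D + 1)
    (by omega) LC.of_univ (fun t x => (1 - t) • x + t • cubeF a b x)
    (fun _ _ _ _ => Set.mem_univ _)
    (by
      refine Continuous.continuousOn ?_
      have h6 : Continuous fun p : ℝ × (Fin D → ℝ) => cubeF a b p.2 :=
        (cubeF_cont a b).comp continuous_snd
      exact ((continuous_const.sub continuous_fst).smul continuous_snd).add
        (continuous_fst.smul h6))
    f hfu L' hL' (Set.subset_univ _) hs L hLc (Set.subset_univ _)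
    (by
      intro x _ t ht hx i _
      have h7 := h5 i _ hx
      simp only [Pi.add_apply, Pi.smul_apply, smul_eq_mul] at h7
      constructor
      · by_contra h8
        rw [not_le, lt_min_iff] at h8
        have h9 : cubeF a b x i < l i := by
          rw [← hgl i]
          exact cube_mono (a i) (b i) _ _ (hab i) h8.2
        have h10 : 0 ≤ (1 - t) := by linarith [ht.2]
        rcases eq_or_lt_of_le ht.1 with h11 | h11
        · rw [← h11] at h7; linarith [h7.1, h8.1]
        · nlinarith [h7.1, h8.1, mul_lt_mul_of_pos_left h9 h11,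
            mul_le_mul_of_nonneg_left h8.1.le h10]
      · by_contra h8
        rw [not_le, max_lt_iff] at h8
        have h9 : u i < cubeF a b x i := by
          rw [← hgu i]
          exact cube_mono (a i) (b i) _ _ (hab i) h8.2
        have h10 : 0 ≤ (1 - t) := by linarith [ht.2]
        rcases eq_or_lt_of_le ht.1 with h11 | h11
        · rw [← h11] at h7; linarith [h7.2, h8.1]
        · nlinarith [h7.2, h8.1, mul_lt_mul_of_pos_left h9 h11,
            mul_le_mul_of_nonneg_left h8.1.le h10])
  have e0 : pull (Set.univ : Set (Fin D → ℝ))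
      ((fun (t : ℝ) (x : Fin D → ℝ) => (1 - t) • x + t • cubeF a b x) 0) f = f := by
    rw [pull_congr (g₂ := id) (fun x _ => by simp), pull_id]
    funext S
    exact res_of_subset f (Set.subset_univ _)
  have e1 : pull (Set.univ : Set (Fin D → ℝ))
      ((fun (t : ℝ) (x : Fin D → ℝ) => (1 - t) • x + t • cubeF a b x) 1) f =
      pull Set.univ (cubeF a b) f := pull_congr (fun x _ => by simp)
  rw [e0, e1, add_comm f] at hH
  exact (hhm.Bc_iff hf.1).1 (Bc.of_add hH hbu)

end Pool.Agent.AVR
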