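import Pool.Agent.Lib.MP_89fc28_gt.Cut

set_option autoImplicit false

namespace Pool.Agent.AVR

open Finset Topology

theorem mv_two {W : Type*} : (2 : Finset W → ZMod 2) = 0 := by
  funext S
  exact (CharTwo.two_eq_zero : (2 : ZMod 2) = 0)

/-- a cochain with support in `A ∩ U` is locally zero outside `U` -/
theorem mv_LzAt {W : Type*} [MetricSpace W] {A U : Set W} {n : ℕ} {f : Finset W → ZMod 2} {x : W}
    (hf : CS (A ∩ U) f) (hx : x ∉ U) : LzAt A n f x := by
  obtain ⟨h0, L, hL, hLA, hs⟩ := hf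
  exact LzAt.of_notin hL.isClosed h0 hs (fun h => hx (hLA h).2)

theorem mv_LzAt_dd {W : Type*} [MetricSpace W] {A U : Set W} {n : ℕ} {f : Finset W → ZMod 2}
    {x : W} (hf : CS (A ∩ U) f) (hx : x ∉ U) : LzAt A n (dd f) x := by
  obtain ⟨h0, L, hL, hLA, hs⟩ := hf
  exact LzAt.dd_of_notin hL.isClosed h0 hs (fun h => hx (hLA h).2)

/-- local vanishing of `f + dd e` extends from `A ∩ U` to `A` -/
theorem mv_ext {W : Type*} [MetricSpace W] {A U : Set W} (hU : IsOpen U) {n : ℕ}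
    {f e : Finset W → ZMod 2} (hf : CS (A ∩ U) f) (he : CS (A ∩ U) e)
    (h : Lz (A ∩ U) n (f + dd e)) : Lz A n (f + dd e) := by
  intro x hx
  by_cases hxU : x ∈ U
  · obtain ⟨V, hV, h'⟩ := h x ⟨hx, hxU⟩
    refine ⟨V ∩ U, Filter.inter_mem hV (hU.mem_nhds hxU), fun S hS hSU hSA => ?_⟩
    exact h' S hS (hSU.trans Set.inter_subset_left)
      (Set.subset_inter hSA (hSU.trans Set.inter_subset_right))
  · exact (mv_LzAt hf hxU).add (mv_LzAt_dd he hxU)

/-- compact pieces adapted to an open cover -/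
theorem mv_cover {W : Type*} [MetricSpace W] {A U V L : Set W} (hA : LC A) (hU : IsOpen U)
    (hV : IsOpen V) (hUV : A ⊆ U ∪ V) (hL : IsCompact L) (hLA : L ⊆ A) :
    ∃ K K' : Set W, IsCompact K ∧ IsCompact K' ∧ K ⊆ A ∩ U ∧ K' ⊆ A ∩ V ∧
      ∀ x ∈ L, K ∈ 𝓝[A] x ∨ K' ∈ 𝓝[A] x := by
  refine hL.induction_on (p := fun t => ∃ K K' : Set W, IsCompact K ∧ IsCompact K' ∧
    K ⊆ A ∩ U ∧ K' ⊆ A ∩ V ∧ ∀ x ∈ t, K ∈ 𝓝[A] x ∨ K' ∈ 𝓝[A] x) ?_ ?_ ?_ ?_
  · exact ⟨∅, ∅, isCompact_empty, isCompact_empty, Set.empty_subset _, Set.empty_subset _,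
      fun _ h => absurd h (Set.notMem_empty _)⟩
  · rintro s t hst ⟨K, K', h1, h2, h3, h4, h5⟩
    exact ⟨K, K', h1, h2, h3, h4, fun x hx => h5 x (hst hx)⟩
  · rintro s t ⟨K, K', h1, h2, h3, h4, h5⟩ ⟨M, M', g1, g2, g3, g4, g5⟩
    refine ⟨K ∪ M, K' ∪ M', h1.union g1, h2.union g2, Set.union_subset h3 g3,
      Set.union_subset h4 g4, ?_⟩
    rintro x (hx | hx)
    · rcases h5 x hx with h | h
      · exact Or.inl (Filter.mem_of_superset h Set.subset_union_left)
      · exact Or.inr (Filter.mem_of_superset h Set.subset_union_left)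
    · rcases g5 x hx with h | h
      · exact Or.inl (Filter.mem_of_superset h Set.subset_union_right)
      · exact Or.inr (Filter.mem_of_superset h Set.subset_union_right)
  · intro x hx
    rcases hUV (hLA hx) with hxU | hxV
    · obtain ⟨K, h1, h2, h3⟩ := (hA.inter_open hU) x ⟨hLA hx, hxU⟩
      have h4 : K ∈ 𝓝[A] x := by
        rwa [nhdsWithin_inter_of_mem' (mem_nhdsWithin_of_mem_nhds (hU.mem_nhds hxU))] at h3
      refine ⟨{y | K ∈ 𝓝[A] y}, ?_, K, ∅, h1, isCompact_empty, h2, Set.empty_subset _,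
        fun y hy => Or.inl hy⟩
      have : ∀ᶠ y in 𝓝[A] x, ∀ᶠ z in 𝓝[A] y, z ∈ K := eventually_eventually_nhdsWithin.mpr h4
      exact nhdsWithin_mono x hLA this
    · obtain ⟨K, h1, h2, h3⟩ := (hA.inter_open hV) x ⟨hLA hx, hxV⟩
      have h4 : K ∈ 𝓝[A] x := by
        rwa [nhdsWithin_inter_of_mem' (mem_nhdsWithin_of_mem_nhds (hV.mem_nhds hxV))] at h3
      refine ⟨{y | K ∈ 𝓝[A] y}, ?_, ∅, K, isCompact_empty, h1, Set.empty_subset _, h2,
        fun y hy => Or.inr hy⟩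
      have : ∀ᶠ y in 𝓝[A] x, ∀ᶠ z in 𝓝[A] y, z ∈ K := eventually_eventually_nhdsWithin.mpr h4
      exact nhdsWithin_mono x hLA this

theorem split {W : Type*} [MetricSpace W] {A U V : Set W} (hA : LC A) (hU : IsOpen U)
    (hV : IsOpen V) (hUV : A ⊆ U ∪ V) {e : Finset W → ZMod 2} (he : CS A e) :
    ∃ e' e'' : Finset W → ZMod 2, CS (A ∩ U) e' ∧ CS (A ∩ V) e'' ∧
      ∀ n, Lz A n (e + e' + e'') := by
  classical
  obtain ⟨h0, L, hL, hLA, hs⟩ := he
  obtain ⟨K, K', hK, hK', hKA, hKA', hc⟩ := mv_cover hA hU hV hUV hL hLA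
  set e'' : Finset W → ZMod 2 := fun S => if (S : Set W) ⊆ K then 0 else res K' e S with he''
  have h0'' : e'' ∅ = 0 := by simp [he'']
  have hs'' : ∀ S : Finset W, e'' S ≠ 0 → ¬ (S : Set W) ⊆ K ∧ (S : Set W) ⊆ K' ∧ e S ≠ 0 := by
    intro S hS
    by_cases h : (S : Set W) ⊆ K
    · exact absurd (by simp [he'', h]) hS
    · have h1 : e'' S = res K' e S := by simp [he'', h]
      rw [h1] at hS
      exact ⟨h, res_ne_zero hS⟩
  refine ⟨res K e, e'', CS.res_compact hK hKA h0, ⟨h0'', K', hK', hKA', fun S hS => (hs'' S hS).2.1⟩,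
    fun n x hx => ?_⟩
  by_cases hxL : x ∈ L
  · rcases hc x hxL with h | h
    · obtain ⟨N, hN, hNK⟩ := mem_nhdsWithin_iff_exists_mem_nhds_inter.mp h
      refine ⟨N, hN, fun S _ h2 h3 => ?_⟩
      have hSK : (S : Set W) ⊆ K := fun y hy => hNK ⟨h2 hy, h3 hy⟩
      have h1 : e'' S = 0 := by simp [he'', hSK]
      rw [Pi.add_apply, Pi.add_apply, res_of_subset _ hSK, h1, add_zero]
      exact z2_add_self _
    · obtain ⟨N, hN, hNK⟩ := mem_nhdsWithin_iff_exists_mem_nhds_inter.mp h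
      refine ⟨N, hN, fun S _ h2 h3 => ?_⟩
      have hSK' : (S : Set W) ⊆ K' := fun y hy => hNK ⟨h2 hy, h3 hy⟩
      rw [Pi.add_apply, Pi.add_apply]
      by_cases hSK : (S : Set W) ⊆ K
      · have h1 : e'' S = 0 := by simp [he'', hSK]
        rw [res_of_subset _ hSK, h1, add_zero]
        exact z2_add_self _
      · have h1 : e'' S = e S := by
          have : e'' S = res K' e S := by simp [he'', hSK]
          rw [this, res_of_subset _ hSK']
        rw [res_of_not_subset _ hSK, h1, add_zero]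
        exact z2_add_self _
  · refine ((LzAt.of_notin hL.isClosed h0 hs hxL).add ?_).add ?_
    · exact LzAt.of_notin hL.isClosed (by rw [res_empty, h0])
        (fun S hS => hs S (res_ne_zero hS).2) hxL
    · exact LzAt.of_notin hL.isClosed h0'' (fun S hS => hs S (hs'' S hS).2.2) hxL

theorem mv_split {W : Type*} [MetricSpace W] {A U V : Set W} (hA : LC A) (hU : IsOpen U)
    (hV : IsOpen V) (hUV : A ⊆ U ∪ V) {n : ℕ} (hn : 1 ≤ n)
    (hv : Van (A ∩ (U ∩ V)) (n + 1)) {f : Finset W → ZMod 2} (hf : Zc A n f) :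
    ∃ f' f'' : Finset W → ZMod 2, Zc (A ∩ U) n f' ∧ Zc (A ∩ V) n f'' ∧
      Bc A n (f + f' + f'') := by
  have h2 : (2 : Finset W → ZMod 2) = 0 := mv_two
  obtain ⟨e', e'', he', he'', hee⟩ := split hA hU hV hUV hf.1
  have h1 : Lz A (n + 1) (dd e' + dd e'') := by
    have h3 := (hee n).dd.add hf.2
    have h4 : dd (f + e' + e'') + dd f = dd e' + dd e'' := by
      rw [dd_add, dd_add]
      linear_combination (dd f) * h2
    rwa [h4] at h3
  obtain ⟨w, hw, hwe⟩ := cut_dd hA (hU.inter hV) (he'.mono Set.inter_subset_left) (n + 1)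
    (fun x hx hxUV => by
      by_cases hxU : x ∈ U
      · have hxV : x ∉ V := fun h => hxUV ⟨hxU, h⟩
        have h3 := (h1 x hx).add (mv_LzAt_dd (n := n + 1) he'' hxV)
        have h4 : dd e' + dd e'' + dd e'' = dd e' := by
          linear_combination (dd e'') * h2
        rwa [h4] at h3
      · exact mv_LzAt_dd he' hxU)
  have hwz : Zc (A ∩ (U ∩ V)) (n + 1) w := by
    refine ⟨hw, ?_⟩
    have h3 := hwe.dd
    rw [dd_add, dd_dd, add_zero] at h3
    exact h3.mono Set.inter_subset_left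
  obtain ⟨g, hg, hgw⟩ := hv w hwz
  have hgw' := mv_ext (hU.inter hV) hw hg hgw
  have hge : Lz A (n + 1) (dd e' + dd g) := by
    have h3 := hgw'.add hwe
    have h4 : w + dd g + (w + dd e') = dd e' + dd g := by
      linear_combination w * h2
    rwa [h4] at h3
  refine ⟨e' + g, e'' + g, ⟨he'.add (hg.mono ?_), ?_⟩, ⟨he''.add (hg.mono ?_), ?_⟩, ?_⟩
  · exact Set.inter_subset_inter_right _ Set.inter_subset_left
  · rw [dd_add]
    exact hge.mono Set.inter_subset_left
  · exact Set.inter_subset_inter_right _ Set.inter_subset_right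
  · rw [dd_add]
    have h3 := h1.add hge
    have h4 : dd e' + dd e'' + (dd e' + dd g) = dd e'' + dd g := by
      linear_combination (dd e') * h2
    rw [h4] at h3
    exact h3.mono Set.inter_subset_left
  · refine Bc.of_Lz ?_
    have h4 : f + (e' + g) + (e'' + g) = f + e' + e'' := by
      linear_combination g * h2
    rw [h4]
    exact hee n

theorem mv_van {W : Type*} [MetricSpace W] {A U V : Set W} (hA : LC A) (hU : IsOpen U)
    (hV : IsOpen V) (hUV : A ⊆ U ∪ V) {n : ℕ} (hn : 1 ≤ n)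
    (hv : Van (A ∩ (U ∩ V)) (n + 1)) (h1 : Van (A ∩ U) n) (h2 : Van (A ∩ V) n) :
    Van A n := by
  intro f hf
  obtain ⟨f', f'', hf', hf'', h⟩ := mv_split hA hU hV hUV hn hv hf
  exact (h.of_add (Bc.mono hV hf''.1 (h2 f'' hf''))).of_add (Bc.mono hU hf'.1 (h1 f' hf'))

theorem mv_glue {W : Type*} [MetricSpace W] {A U V : Set W} (hA : LC A) (hU : IsOpen U)
    (hV : IsOpen V) (hUV : A ⊆ U ∪ V) {n : ℕ} (hn : 1 ≤ n)
    {z' z'' : Finset W → ZMod 2} (hz' : Zc (A ∩ U) n z') (hz'' : Zc (A ∩ V) n z'')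
    (hb : Bc A n (z' + z'')) :
    ∃ w : Finset W → ZMod 2, Zc (A ∩ (U ∩ V)) n w ∧ Bc (A ∩ U) n (z' + w) ∧
      Bc (A ∩ V) n (z'' + w) := by
  have h2 : (2 : Finset W → ZMod 2) = 0 := mv_two
  obtain ⟨e, he, hze⟩ := hb
  obtain ⟨e', e'', he', he'', hee⟩ := split hA hU hV hUV he
  obtain ⟨m, rfl⟩ : ∃ m, n = m + 1 := ⟨n - 1, by omega⟩
  have h1 : Lz A (m + 1) (z' + z'' + dd e' + dd e'') := by
    have h3 := (hee m).dd.add hze
    have h4 : dd (e + e' + e'') + (z' + z'' + dd e) = z' + z'' + dd e' + dd e'' := by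
      rw [dd_add, dd_add]
      linear_combination (dd e) * h2
    rwa [h4] at h3
  obtain ⟨g, hg, hge⟩ := cs_dd hA (he'.mono Set.inter_subset_left)
  obtain ⟨w, hw, hwz⟩ := cut hA (hU.inter hV) ((hz'.1.mono Set.inter_subset_left).add hg) (m + 1)
    (fun x hx hxUV => by
      by_cases hxU : x ∈ U
      · have hxV : x ∉ V := fun h => hxUV ⟨hxU, h⟩
        have h3 := (((h1 x hx).add (mv_LzAt_dd (n := m + 1) he'' hxV)).add
          (mv_LzAt (n := m + 1) hz''.1 hxV)).add (hge (m + 1) x hx)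
        have h4 : z' + z'' + dd e' + dd e'' + dd e'' + z'' + (g + dd e') = z' + g := by
          linear_combination (dd e'' + z'' + dd e') * h2
        rwa [h4] at h3
      · have h3 := ((mv_LzAt (n := m + 1) hz'.1 hxU).add (hge (m + 1) x hx)).add
          (mv_LzAt_dd (n := m + 1) he' hxU)
        have h4 : z' + (g + dd e') + dd e' = z' + g := by
          linear_combination (dd e') * h2
        rwa [h4] at h3)
  have hwe : Lz A (m + 1) (z' + w + dd e') := by
    have h3 := hwz.add (hge (m + 1))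
    have h4 : z' + g + w + (g + dd e') = z' + w + dd e' := by
      linear_combination g * h2
    rwa [h4] at h3
  refine ⟨w, ⟨hw, ?_⟩, ⟨e', he', hwe.mono Set.inter_subset_left⟩, ⟨e'', he'', ?_⟩⟩
  · have h3 := (hwe.dd.mono (A₁ := A ∩ (U ∩ V)) Set.inter_subset_left).add
      (hz'.2.mono (Set.inter_subset_inter_right _ Set.inter_subset_left))
    have h4 : dd (z' + w + dd e') + dd z' = dd w := by
      rw [dd_add, dd_add, dd_dd]
      linear_combination (dd z') * h2
    rwa [h4] at h3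
  · have h3 := (h1.add hwe).mono (A₁ := A ∩ V) Set.inter_subset_left
    have h4 : z' + z'' + dd e' + dd e'' + (z' + w + dd e') = z'' + w + dd e'' := by
      linear_combination (z' + dd e') * h2
    rwa [h4] at h3

end Pool.Agent.AVR
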