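import Pool.Agent.Lib.MP_89fc28_gt.Half

/-!
The cohomology with compact supports of the Euclidean spaces.
-/

set_option autoImplicit false

namespace Pool.Agent.AVR

open Finset Topology

/-- `ℝ^(D+1)` is homeomorphic to `ℝ^D × (0, ∞)` -/
theorem rdHM (D : ℕ) :
    HM (Set.univ : Set (Fin (D + 1) → ℝ))
      ((Set.univ : Set (Fin D → ℝ)) ×ˢ Set.Ioi (0 : ℝ))
      (fun x => ((fun i : Fin D => x i.castSucc), Real.exp (x (Fin.last D))))
      (fun p => Fin.snoc (α := fun _ => ℝ) p.1 (Real.log p.2)) := by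
  refine ⟨?_, ?_, ?_, ?_, ?_, ?_⟩
  · intro x _
    exact ⟨Set.mem_univ _, Real.exp_pos _⟩
  · intro p _
    exact Set.mem_univ _
  · refine Continuous.continuousOn ?_
    fun_prop
  · rw [continuousOn_pi]
    intro i
    refine Fin.lastCases ?_ (fun j => ?_) i
    · simp only [Fin.snoc_last]
      exact ContinuousOn.log continuousOn_snd fun p hp => ne_of_gt hp.2
    · simp only [Fin.snoc_castSucc]
      exact ((continuous_apply j).comp continuous_fst).continuousOn
  · intro x _
    funext i
    refine Fin.lastCases ?_ (fun j => ?_) i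
    · simp only [Fin.snoc_last, Real.log_exp]
    · simp only [Fin.snoc_castSucc]
  · rintro ⟨p, t⟩ ht
    have ht' : (0 : ℝ) < t := ht.2
    simp only [Fin.snoc_castSucc, Fin.snoc_last, Real.exp_log ht']

theorem rdSub {S : Finset (Fin 0 → ℝ)} : S = ∅ ∨ S = {default} := by
  rcases S.eq_empty_or_nonempty with h | ⟨x, hx⟩
  · exact Or.inl h
  · right
    ext y
    rw [mem_singleton]
    exact ⟨fun _ => Subsingleton.elim _ _, fun _ => by rwa [Subsingleton.elim y x]⟩

theorem rdCard {S : Finset (Fin 0 → ℝ)} : S.card ≤ 1 := by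
  rcases rdSub (S := S) with h | h <;> simp [h]

theorem rdBc0 {f : Finset (Fin 0 → ℝ) → ZMod 2} (h : f {default} = 0) :
    Bc (Set.univ : Set (Fin 0 → ℝ)) 1 f := by
  refine ⟨0, CS.zero, Lz.of_eq fun S hS _ => ?_⟩
  rcases rdSub (S := S) with h' | h'
  · rw [h', card_empty] at hS; omega
  · rw [h', dd_zero, add_zero, h]

theorem rdZ2 (a : ZMod 2) (h : a ≠ 0) : a = 1 := by
  revert h; revert a; decide

theorem rd_van (D n : ℕ) (h : D + 1 < n) : Van (Set.univ : Set (Fin D → ℝ)) n := by
  induction D generalizing n with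
  | zero =>
    intro f _
    refine ⟨0, CS.zero, Lz.of_eq fun S hS _ => ?_⟩
    have := rdCard (S := S)
    omega
  | succ D ih =>
    obtain ⟨m, rfl⟩ : ∃ m, n = m + 1 := ⟨n - 1, by omega⟩
    exact (rdHM D).Van (van_susp LC.of_univ (by omega) (ih m (by omega)))

theorem rd_dim1 (D : ℕ) : Dim1 (Set.univ : Set (Fin D → ℝ)) (D + 1) := by
  induction D with
  | zero =>
    intro f g _ _
    by_cases hf : f {default} = 0
    · exact Or.inl (rdBc0 hf)
    by_cases hg : g {default} = 0
    · exact Or.inr (Or.inl (rdBc0 hg))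
    · refine Or.inr (Or.inr (rdBc0 ?_))
      rw [Pi.add_apply, rdZ2 _ hf, rdZ2 _ hg]
      decide
  | succ D ih => exact (rdHM D).Dim1 (dim1_susp LC.of_univ (by omega) ih)

theorem rd_nonzero (D : ℕ) :
    ∃ f, Zc (Set.univ : Set (Fin D → ℝ)) (D + 1) f ∧
      ¬ Bc (Set.univ : Set (Fin D → ℝ)) (D + 1) f := by
  classical
  induction D with
  | zero =>
    refine ⟨fun S => if S = ∅ then 0 else 1, ⟨⟨by simp, Set.univ, ?_, subset_rfl,
      fun S _ => Set.subset_univ _⟩, Lz.of_eq fun S hS _ => ?_⟩, ?_⟩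
    · exact (Set.toFinite _).isCompact
    · have := rdCard (S := S)
      omega
    · rintro ⟨e, he, hl⟩
      obtain ⟨U, hU, h⟩ := hl default (Set.mem_univ _)
      have h1 := h {default} (by simp) (by simpa using mem_of_mem_nhds hU) (Set.subset_univ _)
      have h2 : dd e {default} = 0 := by
        simp [dd, he.1]
      rw [Pi.add_apply, h2, add_zero] at h1
      simp at h1
  | succ D ih => exact (rdHM D).nonzero (nonzero_susp LC.of_univ (by omega) ih)

end Pool.Agent.AVR
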