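import Pool.Agent.Lib.MP_89fc28_gt.Unif
import Pool.Agent.Lib.MP_89fc28_gt.Trans
import Pool.Agent.Lib.MP_89fc28_gt.MV
import Pool.Agent.Lib.MP_89fc28_gt.RD
import Pool.Agent.Lib.MP_89fc28_gt.Cube

/-!
A14: open subsets of `ℝ^D` have no cohomology above the degree `D`.
-/

set_option autoImplicit false

namespace Pool.Agent.AVR

open Finset Topology

/-- open cubes -/
private def oqC {D : ℕ} (a b : Fin D → ℝ) : Set (Fin D → ℝ) :=
  Set.pi Set.univ fun i => Set.Ioo (a i) (b i)

private theorem oq_open {D : ℕ} (a b : Fin D → ℝ) : IsOpen (oqC a b) :=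
  isOpen_set_pi Set.finite_univ fun _ _ => isOpen_Ioo

private theorem oq_inter {D : ℕ} (a b c d : Fin D → ℝ) :
    oqC a b ∩ oqC c d = oqC (fun i => max (a i) (c i)) (fun i => min (b i) (d i)) := by
  ext x
  simp only [oqC, Set.mem_inter_iff, Set.mem_pi, Set.mem_univ, forall_const, Set.mem_Ioo,
    max_lt_iff, lt_min_iff]
  constructor
  · rintro ⟨h1, h2⟩ i
    exact ⟨⟨(h1 i).1, (h2 i).1⟩, (h1 i).2, (h2 i).2⟩
  · intro h
    exact ⟨fun i => ⟨(h i).1.1, (h i).2.1⟩, fun i => ⟨(h i).1.2, (h i).2.2⟩⟩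

private theorem oq_van_empty {W : Type*} [TopologicalSpace W] {A : Set W} (hA : A = ∅) (n : ℕ) :
    Van A n := by
  subst hA
  intro f _
  exact Bc.of_Lz fun x hx => absurd hx (Set.notMem_empty x)

private theorem oq_van {D : ℕ} (a b : Fin D → ℝ) (n : ℕ) (h : D + 1 < n) : Van (oqC a b) n := by
  by_cases hab : ∀ i, a i < b i
  · obtain ⟨g, g', hg⟩ := hm_cube D a b hab
    exact hg.symm.Van (rd_van D n h)
  · push Not at hab
    obtain ⟨i, hi⟩ := hab
    refine oq_van_empty ?_ n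
    rw [Set.eq_empty_iff_forall_notMem]
    intro x hx
    have := hx i (Set.mem_univ i)
    exact absurd (this.1.trans this.2) (not_lt.2 hi)

private theorem oq_lc {D : ℕ} {A : Set (Fin D → ℝ)} (hA : IsOpen A) : LC A := by
  have h : LC (Set.univ : Set (Fin D → ℝ)) := LC.of_univ
  have h1 := h.inter_open hA
  rwa [Set.univ_inter] at h1

private theorem oq_union {D : ℕ} {ι : Type} (s : Finset ι) :
    ∀ (a b : ι → Fin D → ℝ) (n : ℕ), D + 1 < n → Van (⋃ i ∈ s, oqC (a i) (b i)) n := by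
  classical
  induction s using Finset.induction_on with
  | empty =>
    intro a b n _
    exact oq_van_empty (by simp) n
  | insert j s hj ih =>
    intro a b n hn
    have hU : IsOpen (⋃ i ∈ s, oqC (a i) (b i)) :=
      isOpen_biUnion fun i _ => oq_open _ _
    have hV : IsOpen (oqC (a j) (b j)) := oq_open _ _
    have e : (⋃ i ∈ insert j s, oqC (a i) (b i)) =
        (⋃ i ∈ s, oqC (a i) (b i)) ∪ oqC (a j) (b j) := by
      rw [Finset.set_biUnion_insert, Set.union_comm]
    rw [e]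
    have e1 : ((⋃ i ∈ s, oqC (a i) (b i)) ∪ oqC (a j) (b j)) ∩
        ((⋃ i ∈ s, oqC (a i) (b i)) ∩ oqC (a j) (b j)) =
        ⋃ i ∈ s, oqC (fun k => max (a i k) (a j k)) (fun k => min (b i k) (b j k)) := by
      rw [Set.inter_eq_self_of_subset_right
        (Set.inter_subset_left.trans Set.subset_union_left), Set.iUnion₂_inter]
      refine Set.iUnion₂_congr fun i _ => ?_
      exact oq_inter _ _ _ _
    refine mv_van (oq_lc (hU.union hV)) hU hV subset_rfl (by omega) ?_ ?_ ?_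
    · rw [e1]
      exact ih _ _ (n + 1) (by omega)
    · rw [Set.inter_eq_self_of_subset_right Set.subset_union_left]
      exact ih a b n hn
    · rw [Set.inter_eq_self_of_subset_right Set.subset_union_right]
      exact oq_van _ _ n hn

theorem rd_open_van (D n : ℕ) (h : D + 1 < n) {U : Set (Fin D → ℝ)} (hU : IsOpen U) : Van U n := by
  classical
  intro f hf
  obtain ⟨⟨h0, L, hL, hLU, hs⟩, hz⟩ := hf
  have hr : ∀ x : Fin D → ℝ, ∃ r : ℝ, 0 < r ∧ (x ∈ U → Metric.ball x r ⊆ U) := by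
    intro x
    by_cases hx : x ∈ U
    · obtain ⟨r, hr, hrU⟩ := Metric.isOpen_iff.1 hU x hx
      exact ⟨r, hr, fun _ => hrU⟩
    · exact ⟨1, one_pos, fun h => absurd h hx⟩
  choose r hr0 hrU using hr
  obtain ⟨t, ht, hLt⟩ := hL.elim_nhds_subcover (fun x => Metric.ball x (r x))
    fun x _ => Metric.ball_mem_nhds x (hr0 x)
  have hball : ∀ x : Fin D → ℝ, Metric.ball x (r x) =
      oqC (fun i => x i - r x) (fun i => x i + r x) := by
    intro x
    rw [ball_pi x (hr0 x)]
    unfold oqC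
    refine congrArg _ (funext fun i => ?_)
    exact Real.ball_eq_Ioo _ _
  set Q : Set (Fin D → ℝ) := ⋃ x ∈ t, oqC (fun i => x i - r x) (fun i => x i + r x) with hQ
  have hQo : IsOpen Q := isOpen_biUnion fun i _ => oq_open _ _
  have hLQ : L ⊆ Q := by
    intro x hx
    have := hLt hx
    rw [Set.mem_iUnion₂] at this
    obtain ⟨y, hy, hxy⟩ := this
    rw [hball] at hxy
    exact Set.mem_iUnion₂.2 ⟨y, hy, hxy⟩
  have hQU : Q ⊆ U := by
    intro x hx
    obtain ⟨y, hy, hxy⟩ := Set.mem_iUnion₂.1 hx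
    rw [← hball] at hxy
    exact hrU y (hLU (ht y hy)) hxy
  have hUQ : U ∩ Q = Q := Set.inter_eq_self_of_subset_right hQU
  have hcs : CS Q f := ⟨h0, L, hL, hLQ, hs⟩
  have hzc : Zc Q n f := ⟨hcs, hz.mono hQU⟩
  have hb : Bc Q n f := oq_union t _ _ n h f hzc
  exact Bc.mono hQo (by rw [hUQ]; exact hcs) (by rw [hUQ]; exact hb)

end Pool.Agent.AVR
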