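import Pool.Agent.Lib.MP_89fc28_gt.Unif
import Pool.Agent.Lib.MP_89fc28_gt.Trans
import Pool.Agent.Lib.MP_89fc28_gt.RD
import Pool.Agent.Lib.MP_89fc28_gt.Cube
import Pool.Agent.Lib.MP_89fc28_gt.OpenVan

/-!
A15: boxes (open subsets of `A` homeomorphic to `ℝ^D`).
-/

set_option autoImplicit false

namespace Pool.Agent.AVR

open Finset Topology

theorem BoxL_hm_trans {W W' W'' : Type*} [TopologicalSpace W] [TopologicalSpace W']
    [TopologicalSpace W''] {A : Set W} {A' : Set W'} {A'' : Set W''} {g : W → W'} {g' : W' → W}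
    {h : W' → W''} {h' : W'' → W'} (H : HM A A' g g') (K : HM A' A'' h h') :
    HM A A'' (h ∘ g) (g' ∘ h') := by
  obtain ⟨a1, a2, a3, a4, a5, a6⟩ := H
  obtain ⟨b1, b2, b3, b4, b5, b6⟩ := K
  refine ⟨b1.comp a1, a2.comp b2, b3.comp a3 a1, a4.comp b4 b2, fun x hx => ?_, fun y hy => ?_⟩
  · show g' (h' (h (g x))) = x
    rw [b5 _ (a1 hx), a5 _ hx]
  · show h (g (g' (h' y))) = y
    rw [a6 _ (b2 hy), b6 _ hy]

section
variable {W : Type*} [MetricSpace W] {D : ℕ} {A : Set W}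

theorem BoxL_image {O : Set W} {φ : (Fin D → ℝ) → W} {ψ : W → (Fin D → ℝ)}
    (h : HM Set.univ O φ ψ) (Q : Set (Fin D → ℝ)) : HM Q (φ '' Q) φ ψ := by
  obtain ⟨a1, _, a3, a4, a5, _⟩ := h
  refine ⟨Set.mapsTo_image φ Q, ?_, a3.mono (Set.subset_univ _), a4.mono ?_,
    fun x _ => a5 x (Set.mem_univ _), ?_⟩
  · rintro _ ⟨q, hq, rfl⟩
    rw [a5 q (Set.mem_univ _)]; exact hq
  · rintro _ ⟨q, _, rfl⟩
    exact a1 (Set.mem_univ q)
  · rintro _ ⟨q, _, rfl⟩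
    rw [a5 q (Set.mem_univ _)]

theorem BoxL_sub {O : Set W} (h : Box D A O) : O ⊆ A := by
  obtain ⟨⟨U, _, rfl⟩, _⟩ := h
  exact Set.inter_subset_left

theorem BoxL_inter {O O' : Set W} (h : Box D A O) (h' : Box D A O') (hs : O' ⊆ O) :
    ∃ U, IsOpen U ∧ O' = O ∩ U := by
  obtain ⟨⟨U', hU', hO'⟩, _⟩ := h'
  refine ⟨U', hU', ?_⟩
  apply Set.Subset.antisymm
  · intro x hx
    refine ⟨hs hx, ?_⟩
    rw [hO'] at hx; exact hx.2
  · rintro x ⟨hx, hx'⟩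
    rw [hO']; exact ⟨BoxL_sub h hx, hx'⟩

theorem BoxL_nonempty {O : Set W} (h : Box D A O) : O.Nonempty := by
  obtain ⟨_, φ, ψ, h⟩ := h
  exact ⟨φ 0, h.1 (Set.mem_univ _)⟩

theorem BoxL_open {O : Set W} (hO : ∃ U, IsOpen U ∧ O = A ∩ U) {φ : (Fin D → ℝ) → W}
    {ψ : W → (Fin D → ℝ)} (h : HM Set.univ O φ ψ) {Q : Set (Fin D → ℝ)} (hQ : IsOpen Q) :
    ∃ U, IsOpen U ∧ φ '' Q = A ∩ U := by
  obtain ⟨U, hU, hOU⟩ := hO
  obtain ⟨a1, _, _, a4, a5, a6⟩ := h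
  obtain ⟨V, hV, hV'⟩ := continuousOn_iff'.1 a4 Q hQ
  refine ⟨U ∩ V, hU.inter hV, ?_⟩
  apply Set.Subset.antisymm
  · rintro _ ⟨q, hq, rfl⟩
    have h1 : φ q ∈ O := a1 (Set.mem_univ q)
    have h2 : φ q ∈ ψ ⁻¹' Q ∩ O := ⟨by rw [Set.mem_preimage, a5 q (Set.mem_univ _)]; exact hq, h1⟩
    rw [hV'] at h2
    rw [hOU] at h1
    exact ⟨h1.1, h1.2, h2.1⟩
  · rintro x ⟨hxA, hxU, hxV⟩
    have h1 : x ∈ O := by rw [hOU]; exact ⟨hxA, hxU⟩
    have h2 : x ∈ ψ ⁻¹' Q ∩ O := by rw [hV']; exact ⟨hxV, h1⟩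
    exact ⟨ψ x, h2.1, a6 x h1⟩

theorem Box.LC {O : Set W} (h : Box D A O) : LC O := by
  obtain ⟨_, φ, ψ, h⟩ := h
  exact AVR.LC.of_HM h AVR.LC.of_univ

theorem Box.Van {O : Set W} (h : Box D A O) {n : ℕ} (hn : D + 1 < n) : Van O n := by
  obtain ⟨_, φ, ψ, h⟩ := h
  exact HM.Van h.symm (rd_van D n hn)

theorem Box.Dim1 {O : Set W} (h : Box D A O) : Dim1 O (D + 1) := by
  obtain ⟨_, φ, ψ, h⟩ := h
  exact HM.Dim1 h.symm (rd_dim1 D)

/-- an open subset of a box is a manifold without cohomology above `D` -/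
theorem Box.van_inter {O U : Set W} (h : Box D A O) (hU : IsOpen U) {n : ℕ} (hn : D + 1 < n) :
    AVR.Van (O ∩ U) n := by
  obtain ⟨_, φ, ψ, h⟩ := h
  have hc : Continuous φ := continuousOn_univ.1 h.2.2.1
  have h1 := BoxL_image h (φ ⁻¹' U)
  have h2 : φ '' (φ ⁻¹' U) = O ∩ U := by
    apply Set.Subset.antisymm
    · rintro _ ⟨q, hq, rfl⟩
      exact ⟨h.1 (Set.mem_univ q), hq⟩
    · rintro x ⟨hx, hx'⟩
      have h3 := h.2.2.2.2.2 x hx
      exact ⟨ψ x, by rw [Set.mem_preimage, h3]; exact hx', h3⟩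
  rw [h2] at h1
  exact HM.Van h1.symm (rd_open_van D n hn (hU.preimage hc))

/-- small boxes: inside any box around `x` and any neighbourhood of `x` there is a smaller box
around `x`; every nonzero class of the small box is nonzero in the big box -/
theorem Box.small {O N : Set W} (h : Box D A O) {x : W} (hx : x ∈ O) (hN : N ∈ 𝓝 x) :
    ∃ O', Box D A O' ∧ x ∈ O' ∧ O' ⊆ O ∩ N ∧
      (∀ f, Zc O' (D + 1) f → ¬ Bc O' (D + 1) f → ¬ Bc O (D + 1) f) := by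
  classical
  obtain ⟨hO, φ, ψ, h⟩ := h
  have hc : Continuous φ := continuousOn_univ.1 h.2.2.1
  have hinj : ∀ p q, φ p = φ q → p = q := by
    intro p q e
    rw [← h.2.2.2.2.1 p (Set.mem_univ _), ← h.2.2.2.2.1 q (Set.mem_univ _), e]
  have hp : φ (ψ x) = x := h.2.2.2.2.2 x hx
  have hN' : φ ⁻¹' N ∈ 𝓝 (ψ x) := hc.continuousAt (by rw [hp]; exact hN)
  obtain ⟨ε, hε, hball⟩ := Metric.mem_nhds_iff.1 hN'
  have hab : ∀ i, ψ x i - ε < ψ x i + ε := fun i => by linarith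
  have hQ : Metric.ball (ψ x) ε =
      Set.pi Set.univ fun i => Set.Ioo (ψ x i - ε) (ψ x i + ε) := by
    rw [ball_pi (ψ x) hε]
    simp only [Real.ball_eq_Ioo]
  obtain ⟨g, g', hg⟩ := hm_cube D (fun i => ψ x i - ε) (fun i => ψ x i + ε) hab
  have hcl := rd_cube D (fun i => ψ x i - ε) (fun i => ψ x i + ε) hab
  rw [← hQ] at hg hcl
  have him := BoxL_image h (Metric.ball (ψ x) ε)
  refine ⟨φ '' Metric.ball (ψ x) ε, ⟨BoxL_open hO h Metric.isOpen_ball, φ ∘ g, g' ∘ ψ,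
    BoxL_hm_trans hg him⟩, ⟨ψ x, Metric.mem_ball_self hε, hp⟩, ?_, ?_⟩
  · rintro _ ⟨q, hq, rfl⟩
    exact ⟨h.1 (Set.mem_univ q), hball hq⟩
  · intro f hf hb hbO
    have hsub : φ '' Metric.ball (ψ x) ε ⊆ O := by
      rintro _ ⟨q, _, rfl⟩
      exact h.1 (Set.mem_univ q)
    have h1 : AVR.Bc Set.univ (D + 1) (pull Set.univ φ f) :=
      (h.Bc_iff (hf.1.mono hsub)).2 hbO
    have h2 : AVR.Zc (Metric.ball (ψ x) ε) (D + 1) (pull (Metric.ball (ψ x) ε) φ f) :=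
      him.pm.Zc hf
    have h3 : ¬ AVR.Bc (Metric.ball (ψ x) ε) (D + 1) (pull (Metric.ball (ψ x) ε) φ f) :=
      fun h4 => hb ((him.Bc_iff hf.1).1 h4)
    refine hcl _ h2 h3 ?_
    have h5 : pull (Metric.ball (ψ x) ε) φ f = pull Set.univ φ f := by
      funext S
      unfold pull
      rw [res_of_subset (A := Set.univ) _ (Set.subset_univ _)]
      by_cases hS : (S : Set (Fin D → ℝ)) ⊆ Metric.ball (ψ x) ε
      · rw [res_of_subset _ hS]
      · rw [res_of_not_subset _ hS]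
        symm
        rw [gst_of_inj φ f S (fun p _ q _ e => hinj p q e)]
        by_contra hne
        obtain ⟨_, L, _, hL, hs⟩ := hf.1
        apply hS
        intro p hpS
        have h6 : φ p ∈ φ '' Metric.ball (ψ x) ε :=
          hL (hs _ hne (by
            rw [Finset.coe_image]
            exact ⟨p, hpS, rfl⟩))
        obtain ⟨q, hq, hqp⟩ := h6
        rw [← hinj q p hqp]; exact hq
    rw [h5]; exact h1

theorem Box.exists_class {O : Set W} (h : Box D A O) :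
    ∃ f, Zc O (D + 1) f ∧ ¬ Bc O (D + 1) f := by
  obtain ⟨_, φ, ψ, h⟩ := h
  exact HM.nonzero h.symm (rd_nonzero D)

/-- a nonzero class of a box is nonzero in every bigger box -/
theorem Box.nonzero_of_subset {O O' : Set W} (h : Box D A O) (h' : Box D A O') (hs : O' ⊆ O)
    {f : Finset W → ZMod 2} (hf : Zc O' (D + 1) f) (hb : ¬ Bc O' (D + 1) f) :
    ¬ Bc O (D + 1) f := by
  intro hbO
  obtain ⟨y, hy⟩ := BoxL_nonempty h'
  obtain ⟨U', hU', hOU'⟩ := BoxL_inter h h' hs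
  have hyU : y ∈ U' := by
    rw [hOU'] at hy; exact hy.2
  obtain ⟨O'', hbox, hyO, hsub, hcl⟩ := h.small (hs hy) (hU'.mem_nhds hyU)
  have hsub' : O'' ⊆ O' := by rw [hOU']; exact hsub
  obtain ⟨b, hb1, hb2⟩ := hbox.exists_class
  have hbO2 := hcl b hb1 hb2
  -- transport from `O'` to `O`
  have up : ∀ e, CS O' e → AVR.Bc O' (D + 1) e → AVR.Bc O (D + 1) e := by
    intro e he hbe
    rw [hOU'] at he hbe
    exact Bc.mono hU' he hbe
  obtain ⟨U'', hU'', hOU''⟩ := BoxL_inter h' hbox hsub'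
  have hbZ : AVR.Zc O' (D + 1) b := by
    rw [hOU''] at hb1
    exact Zc.mono hU'' hb1
  rcases h'.Dim1 f b hf hbZ with h1 | h1 | h1
  · exact hb h1
  · exact hbO2 (up b hbZ.1 h1)
  · apply hbO2
    have h2 := hbO.add (up _ (hf.1.add hbZ.1) h1)
    rwa [← add_assoc, co_add_self, zero_add] at h2

theorem Mfd.inter_open (h : Mfd D A) {U : Set W} (hU : IsOpen U) : Mfd D (A ∩ U) := by
  refine ⟨h.1.inter_open hU, ?_⟩
  rintro x ⟨hxA, hxU⟩
  obtain ⟨O, hO, hxO⟩ := h.2 x hxA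
  obtain ⟨O', hO', hx', hsub, _⟩ := hO.small hxO (hU.mem_nhds hxU)
  refine ⟨O', ⟨?_, hO'.2⟩, hx'⟩
  obtain ⟨⟨V, hV, hOV⟩, _⟩ := hO'
  refine ⟨V, hV, ?_⟩
  apply Set.Subset.antisymm
  · intro y hy
    have h1 := hsub hy
    have h2 := hy
    rw [hOV] at h2
    exact ⟨⟨h2.1, h1.2⟩, h2.2⟩
  · rintro y ⟨⟨h1, _⟩, h3⟩
    rw [hOV]; exact ⟨h1, h3⟩

end

end Pool.Agent.AVR
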