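import Pool.Agent.Lib.MP_89fc28_gt.Alg

set_option autoImplicit false

namespace Pool.Agent.AVR

open Finset Topology

open Classical in
/-- prism operator with fuel -/
noncomputable def prN {W W' : Type*} (g h : W → W') :
    ℕ → (Finset W' → ZMod 2) → Finset W → ZMod 2
  | 0, _ => fun _ => 0
  | m + 1, f => fun S => if hS : S.Nonempty then
      gst g (kap (g hS.choose) f) S + gst h (kap (g hS.choose) f) S
        + ∑ x ∈ S, prN g h m (kap (g hS.choose) f) (S.erase x)
    else 0

/-- prism operator -/
noncomputable def pris {W W' : Type*} (g h : W → W') (f : Finset W' → ZMod 2) :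
    Finset W → ZMod 2 := fun S => prN g h S.card f S

theorem prN_add {W W' : Type*} (g h : W → W') (m : ℕ) :
    ∀ (f f' : Finset W' → ZMod 2) (S : Finset W),
      prN g h m (f + f') S = prN g h m f S + prN g h m f' S := by
  induction m with
  | zero => intro f f' S; simp [prN]
  | succ m ih =>
    intro f f' S
    by_cases hS : S.Nonempty
    · simp only [prN, hS, dif_pos, kap_add, gst_add, Pi.add_apply, ih, sum_add_distrib]
      ring
    · simp [prN, hS]

theorem pris_add {W W' : Type*} (g h : W → W') (f f' : Finset W' → ZMod 2) :
    pris g h (f + f') = pris g h f + pris g h f' := by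
  funext S; exact prN_add g h _ f f' S

theorem pris_empty {W W' : Type*} (g h : W → W') (f : Finset W' → ZMod 2) :
    pris g h f ∅ = 0 := by
  simp [pris, prN]

open Classical in
theorem pris_rec {W W' : Type*} (g h : W → W') (f : Finset W' → ZMod 2) (S : Finset W)
    (hS : S.Nonempty) :
    pris g h f S = gst g (kap (g hS.choose) f) S + gst h (kap (g hS.choose) f) S
      + ∑ x ∈ S, pris g h (kap (g hS.choose) f) (S.erase x) := by
  have hc : S.card = (S.card - 1) + 1 := by
    have := card_pos.mpr hS
    omega
  unfold pris
  rw [hc]
  simp only [prN]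
  rw [dif_pos hS]
  congr 1
  refine sum_congr rfl fun x hx => ?_
  rw [card_erase_of_mem hx]

theorem pris_id {W W' : Type*} (g h : W → W') (f : Finset W' → ZMod 2) (S : Finset W) :
    dd (pris g h f) S + pris g h (dd f) S = gst g f S + gst h f S := by
  classical
  induction hn : S.card using Nat.strong_induction_on generalizing f S with
  | _ n ih =>
    by_cases hS : S.Nonempty
    · set b := g hS.choose with hb
      set F := kap b f with hF
      have h1 := pris_rec g h (dd f) S hS
      rw [← hb, kap_dd, ← hF] at h1
      have h2 : ∀ x ∈ S, pris g h (f + dd F) (S.erase x)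
          = pris g h f (S.erase x) + (gst g F (S.erase x) + gst h F (S.erase x)
            + dd (pris g h F) (S.erase x)) := by
        intro x hx
        rw [pris_add, Pi.add_apply]
        have hlt : (S.erase x).card < n := by
          rw [← hn]; exact card_lt_card (erase_ssubset hx)
        have := ih _ hlt F (S.erase x) rfl
        have h3 : pris g h (dd F) (S.erase x)
            = gst g F (S.erase x) + gst h F (S.erase x) + dd (pris g h F) (S.erase x) := by
          rw [← this, add_right_comm, z2_add_self, zero_add]
        rw [h3]
      rw [h1, sum_congr rfl h2, sum_add_distrib, sum_add_distrib, sum_add_distrib]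
      have e1 : ∑ x ∈ S, gst g F (S.erase x) = gst g (dd F) S := by
        rw [← dd_gst]; simp only [dd]
      have e2 : ∑ x ∈ S, gst h F (S.erase x) = gst h (dd F) S := by
        rw [← dd_gst]; simp only [dd]
      have e3 : ∑ x ∈ S, dd (pris g h F) (S.erase x) = 0 := by
        exact congrFun (dd_dd (pris g h F)) S
      have e4 : dd (pris g h f) S = ∑ x ∈ S, pris g h f (S.erase x) := by
        simp only [dd]
      rw [e1, e2, e3, e4, gst_add, gst_add]
      simp only [Pi.add_apply, add_zero]
      have key : ∀ a b c d e : ZMod 2, a + (b + c + (d + e) + (a + (c + e))) = b + d := by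
        decide
      exact key _ _ _ _ _
    · rw [not_nonempty_iff_eq_empty] at hS
      subst hS
      rw [dd_empty, pris_empty, gst_empty, gst_empty, z2_add_self, z2_add_self]

theorem pris_supp {W W' : Type*} (g h : W → W') (f : Finset W' → ZMod 2) (S : Finset W)
    (hS : pris g h f S ≠ 0) :
    ∃ T : Finset W', T.card = S.card + 1 ∧ (∀ y ∈ T, ∃ z ∈ S, y = g z ∨ y = h z) ∧ f T ≠ 0 := by
  classical
  induction hn : S.card using Nat.strong_induction_on generalizing f S with
  | _ n ih =>
    by_cases hne : S.Nonempty
    · rw [pris_rec g h f S hne] at hS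
      set b := g hne.choose with hb
      have hbS : hne.choose ∈ S := hne.choose_spec
      have key : ∀ T' : Finset W', T'.card = S.card → (∀ y ∈ T', ∃ z ∈ S, y = g z ∨ y = h z) →
          kap b f T' ≠ 0 →
          ∃ T : Finset W', T.card = n + 1 ∧ (∀ y ∈ T, ∃ z ∈ S, y = g z ∨ y = h z) ∧ f T ≠ 0 := by
        intro T' hc hT' hk
        simp only [kap] at hk
        split_ifs at hk with hbT
        · exact absurd rfl hk
        · refine ⟨insert b T', ?_, ?_, by convert hk⟩
          · rw [card_insert_of_notMem hbT, hc, hn]
          · intro y hy
            rcases mem_insert.mp hy with rfl | hy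
            · exact ⟨_, hbS, Or.inl hb⟩
            · exact hT' y hy
      by_cases h1 : gst g (kap b f) S = 0
      · by_cases h2 : gst h (kap b f) S = 0
        · rw [h1, h2, add_zero, zero_add] at hS
          obtain ⟨x, hx, hxne⟩ := exists_ne_zero_of_sum_ne_zero hS
          have hlt : (S.erase x).card < n := by
            rw [← hn]; exact card_lt_card (erase_ssubset hx)
          have hxne' : pris g h (kap b f) (S.erase x) ≠ 0 := by convert hxne
          obtain ⟨T', hT1, hT2, hT3⟩ := ih _ hlt (kap b f) (S.erase x) hxne' rfl
          refine key T' ?_ ?_ hT3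
          · rw [hT1, card_erase_of_mem hx]
            have := card_pos.mpr hne
            omega
          · intro y hy
            obtain ⟨z, hz, hz'⟩ := hT2 y hy
            exact ⟨z, mem_of_mem_erase hz, hz'⟩
        · have hi : Set.InjOn h (S : Set W) := by
            by_contra hi; exact h2 (gst_of_not_inj h _ S hi)
          rw [gst_of_inj h _ S hi] at h2
          refine key (S.image h) (card_image_of_injOn hi) ?_ (by convert h2)
          intro y hy
          obtain ⟨z, hz, rfl⟩ := mem_image.mp hy
          exact ⟨z, hz, Or.inr rfl⟩
      · have hi : Set.InjOn g (S : Set W) := by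
          by_contra hi; exact h1 (gst_of_not_inj g _ S hi)
        rw [gst_of_inj g _ S hi] at h1
        refine key (S.image g) (card_image_of_injOn hi) ?_ (by convert h1)
        intro y hy
        obtain ⟨z, hz, rfl⟩ := mem_image.mp hy
        exact ⟨z, hz, Or.inl rfl⟩
    · rw [not_nonempty_iff_eq_empty] at hne
      subst hne
      exact absurd (pris_empty g h f) hS

theorem pris_eq {W W' : Type*} (g h : W → W') (f : Finset W' → ZMod 2) (S : Finset W)
    (hS : ∀ x ∈ S, g x = h x) : pris g h f S = 0 := by
  classical
  induction hn : S.card using Nat.strong_induction_on generalizing f S with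
  | _ n ih =>
    by_cases hne : S.Nonempty
    · rw [pris_rec g h f S hne, gst_congr _ S hS, z2_add_self, zero_add]
      refine sum_eq_zero fun x hx => ?_
      have hlt : (S.erase x).card < n := by
        rw [← hn]; exact card_lt_card (erase_ssubset hx)
      have := ih _ hlt (kap (g hne.choose) f) (S.erase x)
        (fun y hy => hS y (mem_of_mem_erase hy)) rfl
      convert this
    · rw [not_nonempty_iff_eq_empty] at hne
      subst hne
      exact pris_empty g h f

end Pool.Agent.AVR
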