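import Pool.Agent.Lib.MP_89fc28_gt.Unif
import Pool.Agent.Lib.MP_89fc28_gt.Prism

set_option autoImplicit false

namespace Pool.Agent.AVR

open Finset Topology

theorem contig {W W' : Type*} [TopologicalSpace W] [T2Space W] {A : Set W} {n : ℕ}
    (hn : 1 ≤ n) (hA : LC A) (g h : W → W') (f : Finset W' → ZMod 2) (h0 : f ∅ = 0)
    (L' : Set W') (hL' : ∀ S : Finset W', f S ≠ 0 → (S : Set W') ⊆ L')
    (L : Set W) (hL : IsCompact L) (hLA : L ⊆ A)
    (hs : ∀ x ∈ A, (g x ∈ L' ∨ h x ∈ L') → x ∈ L)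
    (hb : ∀ x ∈ A, ∃ U ∈ 𝓝 x, (∀ z ∈ U ∩ A, g z = h z) ∨
      ∀ T : Finset W', T.card = n + 1 → (∀ y ∈ T, ∃ z ∈ U ∩ A, y = g z ∨ y = h z) →
        dd f T = 0) :
    Bc A n (pull A g f + pull A h f) := by
  classical
  obtain ⟨K, hK, hKA, hKn⟩ := hA.exists_nhd hL hLA
  refine ⟨res K (pris g h f), ⟨by rw [res_empty, pris_empty], K, hK, hKA,
    fun S hS => (res_ne_zero hS).1⟩, fun x hx => ?_⟩
  by_cases hxL : x ∈ L
  · obtain ⟨V, hV, hVK⟩ := mem_nhdsWithin_iff_exists_mem_nhds_inter.mp (hKn x hxL)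
    obtain ⟨U, hU, hUb⟩ := hb x hx
    refine ⟨V ∩ U, Filter.inter_mem hV hU, fun S h1 h2 h3 => ?_⟩
    have hSK : (S : Set W) ⊆ K := fun y hy => hVK ⟨(h2 hy).1, h3 hy⟩
    rw [Pi.add_apply, Pi.add_apply, pull, pull, res_of_subset _ h3, res_of_subset _ h3,
      dd_res _ hSK, ← pris_id]
    have h4 : pris g h (dd f) S = 0 := by
      rcases hUb with hUb | hUb
      · exact pris_eq g h _ S fun z hz => hUb z ⟨(h2 hz).2, h3 hz⟩
      · by_contra hne
        obtain ⟨T, hT1, hT2, hT3⟩ := pris_supp g h _ S hne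
        refine hT3 (hUb T (by omega) fun y hy => ?_)
        obtain ⟨z, hz, hz'⟩ := hT2 y hy
        exact ⟨z, ⟨(h2 hz).2, h3 hz⟩, hz'⟩
    rw [h4, add_zero]
    exact z2_add_self _
  · refine ⟨Lᶜ, hL.isClosed.isOpen_compl.mem_nhds hxL, fun S h1 h2 h3 => ?_⟩
    have hSne : S.Nonempty := card_pos.mp (by omega)
    have hg : ∀ k : W → W', (∀ z ∈ A, k z ∈ L' → z ∈ L) → pull A k f S = 0 := by
      intro k hk
      rw [pull, res_of_subset _ h3]
      by_contra hne
      have hi : Set.InjOn k (S : Set W) := by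
        by_contra hi; exact hne (gst_of_not_inj k _ S hi)
      rw [gst_of_inj k _ S hi] at hne
      obtain ⟨z, hz⟩ := hSne
      exact h2 hz (hk z (h3 hz) (hL' _ hne (by simpa using ⟨z, hz, rfl⟩)))
    have h5 : dd (res K (pris g h f)) S = dd (0 : Finset W → ZMod 2) S := by
      refine dd_congr fun T hT hc => ?_
      by_contra hne
      obtain ⟨h6, h7⟩ := res_ne_zero (A := K) (f := pris g h f) hne
      obtain ⟨T', hT1, hT2, hT3⟩ := pris_supp g h _ T h7
      have hT'ne : T'.Nonempty := card_pos.mp (by omega)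
      obtain ⟨y, hy⟩ := hT'ne
      obtain ⟨z, hz, hz'⟩ := hT2 y hy
      have hyL : y ∈ L' := hL' _ hT3 hy
      refine h2 (hT hz) (hs z (h3 (hT hz)) ?_)
      rcases hz' with rfl | rfl
      · exact Or.inl hyL
      · exact Or.inr hyL
    rw [Pi.add_apply, Pi.add_apply, hg g fun z hz h => hs z hz (Or.inl h),
      hg h fun z hz h => hs z hz (Or.inr h), h5, dd_zero]
    simp

end Pool.Agent.AVR
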