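import Pool.Agent.Lib.MP_89fc28_gt.Alg

set_option autoImplicit false

namespace Pool.Agent.AVR

open Finset Topology

theorem LC.exists_nhd {W : Type*} [TopologicalSpace W] {A L : Set W} (hA : LC A)
    (hL : IsCompact L) (hLA : L ⊆ A) :
    ∃ K : Set W, IsCompact K ∧ K ⊆ A ∧ ∀ x ∈ L, K ∈ 𝓝[A] x := by
  refine hL.induction_on (p := fun t => ∃ K : Set W, IsCompact K ∧ K ⊆ A ∧ ∀ x ∈ t, K ∈ 𝓝[A] x)
    ?_ ?_ ?_ ?_
  · exact ⟨∅, isCompact_empty, Set.empty_subset _, fun _ h => absurd h (Set.notMem_empty _)⟩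
  · rintro s t hst ⟨K, h1, h2, h3⟩
    exact ⟨K, h1, h2, fun x hx => h3 x (hst hx)⟩
  · rintro s t ⟨K, h1, h2, h3⟩ ⟨K', h1', h2', h3'⟩
    refine ⟨K ∪ K', h1.union h1', Set.union_subset h2 h2', ?_⟩
    rintro x (hx | hx)
    · exact Filter.mem_of_superset (h3 x hx) Set.subset_union_left
    · exact Filter.mem_of_superset (h3' x hx) Set.subset_union_right
  · intro x hx
    obtain ⟨K, h1, h2, h3⟩ := hA x (hLA hx)
    refine ⟨{y | K ∈ 𝓝[A] y}, ?_, K, h1, h2, fun y hy => hy⟩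
    have : ∀ᶠ y in 𝓝[A] x, ∀ᶠ z in 𝓝[A] y, z ∈ K := eventually_eventually_nhdsWithin.mpr h3
    exact nhdsWithin_mono x hLA this

theorem LC.of_compact {W : Type*} [TopologicalSpace W] {A : Set W} (hA : IsCompact A) :
    LC A := fun _ _ => ⟨A, hA, subset_rfl, self_mem_nhdsWithin⟩

theorem LC.of_univ {W : Type*} [TopologicalSpace W] [WeaklyLocallyCompactSpace W] :
    LC (Set.univ : Set W) := by
  intro x _
  obtain ⟨K, hK, hx⟩ := exists_compact_mem_nhds x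
  exact ⟨K, hK, Set.subset_univ _, mem_nhdsWithin_of_mem_nhds hx⟩

theorem LC.inter_open {W : Type*} [MetricSpace W] {A U : Set W} (hA : LC A)
    (hU : IsOpen U) : LC (A ∩ U) := by
  rintro x ⟨hxA, hxU⟩
  obtain ⟨K, h1, h2, h3⟩ := hA x hxA
  obtain ⟨ε, hε, hb⟩ := Metric.nhds_basis_closedBall.mem_iff.mp (hU.mem_nhds hxU)
  refine ⟨K ∩ Metric.closedBall x ε, h1.inter_right Metric.isClosed_closedBall,
    Set.inter_subset_inter h2 hb, Filter.inter_mem ?_ ?_⟩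
  · exact nhdsWithin_mono x Set.inter_subset_left h3
  · exact mem_nhdsWithin_of_mem_nhds (Metric.closedBall_mem_nhds x hε)

theorem LC.inter_closed {W : Type*} [TopologicalSpace W] {A C : Set W} (hA : LC A)
    (hC : IsClosed C) : LC (A ∩ C) := by
  rintro x ⟨hxA, hxC⟩
  obtain ⟨K, h1, h2, h3⟩ := hA x hxA
  refine ⟨K ∩ C, h1.inter_right hC, Set.inter_subset_inter_left _ h2, Filter.inter_mem ?_ ?_⟩
  · exact nhdsWithin_mono x Set.inter_subset_left h3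
  · exact Filter.mem_of_superset self_mem_nhdsWithin Set.inter_subset_right

theorem LC.prod {W W' : Type*} [TopologicalSpace W] [TopologicalSpace W'] {A : Set W}
    {A' : Set W'} (hA : LC A) (hA' : LC A') : LC (A ×ˢ A') := by
  rintro ⟨x, y⟩ ⟨hx, hy⟩
  obtain ⟨K, h1, h2, h3⟩ := hA x hx
  obtain ⟨K', h1', h2', h3'⟩ := hA' y hy
  refine ⟨K ×ˢ K', h1.prod h1', Set.prod_mono h2 h2', ?_⟩
  rw [nhdsWithin_prod_eq]
  exact Filter.prod_mem_prod h3 h3'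

theorem LC.of_HM {W W' : Type*} [TopologicalSpace W] [TopologicalSpace W'] {A : Set W}
    {A' : Set W'} {g : W → W'} {g' : W' → W} (h : HM A A' g g') (hA : LC A) : LC A' := by
  obtain ⟨m1, m2, c1, c2, _, e2⟩ := h
  intro y hy
  obtain ⟨K, h1, h2, h3⟩ := hA (g' y) (m2 hy)
  refine ⟨g '' K, h1.image_of_continuousOn (c1.mono h2), ?_, ?_⟩
  · rintro _ ⟨x, hx, rfl⟩
    exact m1 (h2 hx)
  · have ht : Filter.Tendsto g' (𝓝[A'] y) (𝓝[A] (g' y)) :=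
      tendsto_nhdsWithin_of_tendsto_nhds_of_eventually_within _ (c2 y hy)
        (Filter.eventually_of_mem self_mem_nhdsWithin fun z hz => m2 hz)
    filter_upwards [ht h3, self_mem_nhdsWithin] with z hz hzA
    exact ⟨g' z, hz, e2 z hzA⟩

theorem LC.exists_delta {W : Type*} [MetricSpace W] {A L : Set W} (hA : LC A)
    (hL : IsCompact L) (hLA : L ⊆ A) :
    ∃ K : Set W, IsCompact K ∧ K ⊆ A ∧ ∃ δ > 0, ∀ x ∈ A, ∀ y ∈ L, dist x y < δ → x ∈ K := by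
  obtain ⟨K, h1, h2, h3⟩ := hA.exists_nhd hL hLA
  refine ⟨K, h1, h2, ?_⟩
  refine hL.induction_on
    (p := fun t => ∃ δ > 0, ∀ x ∈ A, ∀ y ∈ t, dist x y < δ → x ∈ K) ?_ ?_ ?_ ?_
  · exact ⟨1, one_pos, fun _ _ _ h => absurd h (Set.notMem_empty _)⟩
  · rintro s t hst ⟨δ, hδ, h⟩
    exact ⟨δ, hδ, fun x hx y hy => h x hx y (hst hy)⟩
  · rintro s t ⟨δ, hδ, h⟩ ⟨δ', hδ', h'⟩
    refine ⟨min δ δ', lt_min hδ hδ', ?_⟩
    rintro x hx y (hy | hy) hd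
    · exact h x hx y hy (hd.trans_le (min_le_left _ _))
    · exact h' x hx y hy (hd.trans_le (min_le_right _ _))
  · intro y₀ hy₀
    obtain ⟨ε, hε, hb⟩ := Metric.mem_nhdsWithin_iff.mp (h3 y₀ hy₀)
    refine ⟨Metric.ball y₀ (ε / 2), mem_nhdsWithin_of_mem_nhds (Metric.ball_mem_nhds _ (by positivity)),
      ε / 2, by positivity, fun x hx y hy hd => hb ⟨?_, hx⟩⟩
    rw [Metric.mem_ball] at hy ⊢
    calc dist x y₀ ≤ dist x y + dist y y₀ := dist_triangle _ _ _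
      _ < ε / 2 + ε / 2 := add_lt_add hd hy
      _ = ε := by ring

theorem Lz.unif {W : Type*} [MetricSpace W] {A K : Set W} {n : ℕ} {f : Finset W → ZMod 2}
    (hf : Lz A n f) (hK : IsCompact K) (hKA : K ⊆ A) :
    ∃ ε > 0, ∀ S : Finset W, S.card = n → (S : Set W) ⊆ A → (∃ y ∈ S, y ∈ K) →
      (∀ x ∈ S, ∀ y ∈ S, dist x y < ε) → f S = 0 := by
  refine hK.induction_on
    (p := fun t => ∃ ε > 0, ∀ S : Finset W, S.card = n → (S : Set W) ⊆ A → (∃ y ∈ S, y ∈ t) →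
      (∀ x ∈ S, ∀ y ∈ S, dist x y < ε) → f S = 0) ?_ ?_ ?_ ?_
  · refine ⟨1, one_pos, fun S _ _ h => ?_⟩
    obtain ⟨y, _, hy⟩ := h
    exact absurd hy (Set.notMem_empty _)
  · rintro s t hst ⟨δ, hδ, h⟩
    refine ⟨δ, hδ, fun S h1 h2 h3 h4 => h S h1 h2 ?_ h4⟩
    obtain ⟨y, hy, hy'⟩ := h3
    exact ⟨y, hy, hst hy'⟩
  · rintro s t ⟨δ, hδ, h⟩ ⟨δ', hδ', h'⟩
    refine ⟨min δ δ', lt_min hδ hδ', ?_⟩
    rintro S h1 h2 ⟨y, hy, hy' | hy'⟩ h4
    · exact h S h1 h2 ⟨y, hy, hy'⟩ fun a ha b hb => (h4 a ha b hb).trans_le (min_le_left _ _)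
    · exact h' S h1 h2 ⟨y, hy, hy'⟩ fun a ha b hb => (h4 a ha b hb).trans_le (min_le_right _ _)
  · intro y₀ hy₀
    obtain ⟨U, hU, hUf⟩ := hf y₀ (hKA hy₀)
    obtain ⟨ε, hε, hb⟩ := Metric.mem_nhds_iff.mp hU
    refine ⟨Metric.ball y₀ (ε / 2),
      mem_nhdsWithin_of_mem_nhds (Metric.ball_mem_nhds _ (by positivity)),
      ε / 2, by positivity, ?_⟩
    rintro S h1 h2 ⟨y, hy, hy'⟩ h4
    refine hUf S h1 (fun x hx => hb ?_) h2
    rw [Metric.mem_ball] at hy' ⊢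
    calc dist x y₀ ≤ dist x y + dist y y₀ := dist_triangle _ _ _
      _ < ε / 2 + ε / 2 := add_lt_add (h4 x hx y hy) hy'
      _ = ε := by ring

theorem Zc.unif {W : Type*} [MetricSpace W] {A : Set W} {n : ℕ} (hn : 1 ≤ n)
    {f : Finset W → ZMod 2} (hf : Zc A n f) :
    ∃ ε > 0, ∀ T : Finset W, T.card = n + 1 → (T : Set W) ⊆ A →
      (∀ x ∈ T, ∀ y ∈ T, dist x y < ε) → dd f T = 0 := by
  classical
  obtain ⟨⟨h0, L, hL, hLA, hs⟩, hz⟩ := hf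
  obtain ⟨ε, hε, h⟩ := hz.unif hL hLA
  refine ⟨ε, hε, fun T hT hTA hd => ?_⟩
  by_contra hne
  have hex : ∃ x ∈ T, f (T.erase x) ≠ 0 := by
    by_contra hcon
    push Not at hcon
    refine hne ?_
    simp only [dd]
    exact sum_eq_zero fun x hx => by convert hcon x hx
  obtain ⟨x, hx, hfx⟩ := hex
  have hcard : (T.erase x).card = n := by rw [card_erase_of_mem hx]; omega
  have hne' : (T.erase x).Nonempty := card_pos.mp (by omega)
  obtain ⟨y, hy⟩ := hne'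
  exact hne (h T hT hTA ⟨y, mem_of_mem_erase hy, hs _ hfx hy⟩ hd)

end Pool.Agent.AVR
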