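import Pool.Agent.Lib.MP_89fc28_gt.Alg
import Pool.Agent.Lib.MP_89fc28_gt.Unif
import Pool.Agent.Lib.MP_89fc28_gt.Trans
import Pool.Agent.Lib.MP_89fc28_gt.MV
import Pool.Agent.Lib.MP_89fc28_gt.BoxL

set_option autoImplicit false

namespace Pool.Agent.AVR

open Finset Topology

section
variable {W : Type*} [MetricSpace W] {D : ℕ} {A : Set W}

theorem span_cs_empty {f : Finset W → ZMod 2} (h : CS (∅ : Set W) f) : f = 0 := by
  obtain ⟨h0, L, -, hL, hs⟩ := h
  funext S
  by_contra hne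
  have h1 := (hs S hne).trans hL
  have h2 : S = ∅ := by
    rw [← Finset.coe_eq_empty]
    exact Set.subset_empty_iff.1 h1
  rw [h2] at hne
  exact hne h0

theorem span_box_mono {V V' O : Set W} (hV : IsOpen V) (hVV : V ⊆ V')
    (h : Box D (A ∩ V) O) : Box D (A ∩ V') O := by
  obtain ⟨⟨U, hU, rfl⟩, h2⟩ := h
  refine ⟨⟨V ∩ U, hV.inter hU, ?_⟩, h2⟩
  ext x
  simp only [Set.mem_inter_iff]
  constructor
  · rintro ⟨⟨h1, h3⟩, h4⟩
    exact ⟨⟨h1, hVV h3⟩, h3, h4⟩
  · rintro ⟨⟨h1, _⟩, h3, h4⟩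
    exact ⟨⟨h1, h3⟩, h4⟩

theorem span_bcl_mono {V V' : Set W} (hV : IsOpen V) (hVV : V ⊆ V')
    {b : Finset W → ZMod 2} (h : BCl D (A ∩ V) b) : BCl D (A ∩ V') b := by
  obtain ⟨O, h1, h2, h3⟩ := h
  exact ⟨O, span_box_mono hV hVV h1, h2, h3⟩

theorem span_bcl_cs {B : Set W} {b : Finset W → ZMod 2} (h : BCl D B b) : CS B b := by
  obtain ⟨O, ⟨⟨U, _, rfl⟩, _⟩, h2, _⟩ := h
  exact h2.1.mono Set.inter_subset_left

theorem span_list_cs {B : Set W} : ∀ l : List (Finset W → ZMod 2), (∀ b ∈ l, BCl D B b) →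
    CS B l.sum
  | [], _ => by
    rw [List.sum_nil]
    exact CS.zero
  | b :: l, h => by
    rw [List.sum_cons]
    exact (span_bcl_cs (h b List.mem_cons_self)).add
      (span_list_cs l fun c hc => h c (List.mem_cons_of_mem _ hc))

/-- what is proved for finite unions of boxes -/
def SpanQ (D : ℕ) (A V : Set W) : Prop :=
  IsOpen V ∧ (∀ n, D + 1 < n → Van (A ∩ V) n) ∧
    ∀ f : Finset W → ZMod 2, Zc (A ∩ V) (D + 1) f →
      ∃ l : List (Finset W → ZMod 2), (∀ b ∈ l, BCl D (A ∩ V) b) ∧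
        Bc (A ∩ V) (D + 1) (f + l.sum)

theorem spanQ_empty : SpanQ D A (∅ : Set W) := by
  refine ⟨isOpen_empty, fun n _ f hf => ?_, fun f hf => ⟨[], by simp, ?_⟩⟩
  · rw [Set.inter_empty] at hf ⊢
    rw [span_cs_empty hf.1]
    exact Bc.zero
  · rw [Set.inter_empty] at hf ⊢
    rw [span_cs_empty hf.1, List.sum_nil, add_zero]
    exact Bc.zero

theorem spanQ_step (hA : LC A) {V U : Set W} (h : SpanQ D A V) (hU : IsOpen U)
    (hb : Box D A (A ∩ U)) : SpanQ D A (U ∪ V) := by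
  obtain ⟨hV, h1, h2⟩ := h
  have hUV : IsOpen (U ∪ V) := hU.union hV
  have hA' : LC (A ∩ (U ∪ V)) := hA.inter_open hUV
  have eV : A ∩ (U ∪ V) ∩ V = A ∩ V := by
    rw [Set.inter_assoc]
    congr 1
    exact Set.inter_eq_right.2 Set.subset_union_right
  have eU : A ∩ (U ∪ V) ∩ U = A ∩ U := by
    rw [Set.inter_assoc]
    congr 1
    exact Set.inter_eq_right.2 Set.subset_union_left
  have eI : A ∩ (U ∪ V) ∩ (V ∩ U) = A ∩ U ∩ V := by
    rw [Set.inter_assoc, Set.inter_assoc, Set.inter_comm U V]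
    congr 1
    exact Set.inter_eq_right.2 (Set.inter_subset_left.trans Set.subset_union_right)
  have hc : A ∩ (U ∪ V) ⊆ V ∪ U := by
    rw [Set.union_comm V U]
    exact Set.inter_subset_right
  refine ⟨hUV, fun n hn => ?_, fun f hf => ?_⟩
  · refine mv_van hA' hV hU hc (by omega) ?_ ?_ ?_
    · rw [eI]
      exact hb.van_inter hV (by omega)
    · rw [eV]
      exact h1 n hn
    · rw [eU]
      exact hb.Van hn
  · obtain ⟨f', f'', k1, k2, k3⟩ := mv_split hA' hV hU hc (n := D + 1) (by omega) (by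
      rw [eI]
      exact hb.van_inter hV (by omega)) hf
    rw [eV] at k1
    rw [eU] at k2
    obtain ⟨l, l1, l2⟩ := h2 f' k1
    have l3 : ∀ b ∈ l, BCl D (A ∩ (U ∪ V)) b := fun b hb' =>
      span_bcl_mono hV Set.subset_union_right (l1 b hb')
    have cs1 : CS (A ∩ V) (f' + l.sum) := k1.1.add (span_list_cs l l1)
    have l4 : Bc (A ∩ (U ∪ V)) (D + 1) (f' + l.sum) := by
      refine Bc.mono hV ?_ ?_
      · rw [eV]
        exact cs1
      · rw [eV]
        exact l2
    by_cases hB : Bc (A ∩ U) (D + 1) f''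
    · have l5 : Bc (A ∩ (U ∪ V)) (D + 1) f'' := by
        refine Bc.mono hU ?_ ?_
        · rw [eU]
          exact k2.1
        · rw [eU]
          exact hB
      refine ⟨l, l3, ?_⟩
      have := (k3.add l4).add l5
      have e : f + f' + f'' + (f' + l.sum) + f'' = f + l.sum := by
        have e1 : f + f' + f'' + (f' + l.sum) + f'' =
            f + l.sum + (f' + f') + (f'' + f'') := by abel
        rw [e1, co_add_self, co_add_self, add_zero, add_zero]
      rwa [e] at this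
    · refine ⟨f'' :: l, ?_, ?_⟩
      · intro b hb'
        rcases List.mem_cons.1 hb' with rfl | hb'
        · refine ⟨A ∩ U, ⟨⟨U, hU, eU.symm⟩, hb.2⟩, k2, hB⟩
        · exact l3 b hb'
      · rw [List.sum_cons]
        have := k3.add l4
        have e : f + f' + f'' + (f' + l.sum) = f + (f'' + l.sum) := by
          have e1 : f + f' + f'' + (f' + l.sum) = f + (f'' + l.sum) + (f' + f') := by abel
          rw [e1, co_add_self, add_zero]
        rwa [e] at this

/-- every compact subset lies in a finite union of boxes -/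
theorem span_cover (h : Mfd D A) {L : Set W} (hL : IsCompact L) (hLA : L ⊆ A) :
    ∃ V, SpanQ D A V ∧ L ⊆ V := by
  classical
  have h1 : ∀ x : W, ∃ U, IsOpen U ∧ (x ∈ L → x ∈ U) ∧ (x ∈ L → Box D A (A ∩ U)) := by
    intro x
    by_cases hx : x ∈ L
    · obtain ⟨O, hO, hxO⟩ := h.2 x (hLA hx)
      obtain ⟨U, hU, rfl⟩ := hO.1
      exact ⟨U, hU, fun _ => hxO.2, fun _ => hO⟩
    · exact ⟨∅, isOpen_empty, fun h => absurd h hx, fun h => absurd h hx⟩
  choose U hU hxU hB using h1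
  obtain ⟨t, ht, ht2⟩ := hL.elim_nhds_subcover U fun x hx => (hU x).mem_nhds (hxU x hx)
  refine ⟨⋃ x ∈ t, U x, ?_, ht2⟩
  clear ht2
  induction t using Finset.induction_on with
  | empty =>
    simp only [Finset.notMem_empty, Set.iUnion_of_empty, Set.iUnion_empty]
    exact spanQ_empty
  | insert a s ha ih =>
    rw [Finset.set_biUnion_insert]
    exact spanQ_step h.1 (ih fun x hx => ht x (Finset.mem_insert_of_mem hx)) (hU a)
      (hB a (ht a (Finset.mem_insert_self a s)))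

theorem span_restrict (h : Mfd D A) {n : ℕ} {f : Finset W → ZMod 2} (hf : Zc A n f) :
    ∃ V, SpanQ D A V ∧ Zc (A ∩ V) n f := by
  obtain ⟨⟨h0, L, hL, hLA, hs⟩, hz⟩ := hf
  obtain ⟨V, hV, hLV⟩ := span_cover h hL hLA
  exact ⟨V, hV, ⟨h0, L, hL, Set.subset_inter hLA hLV, hs⟩, hz.mono Set.inter_subset_left⟩

theorem Mfd.van (h : Mfd D A) {n : ℕ} (hn : D + 1 < n) : Van A n := by
  intro f hf
  obtain ⟨V, hV, hz⟩ := span_restrict h hf
  exact Bc.mono hV.1 hz.1 (hV.2.1 n hn f hz)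

theorem Mfd.span (h : Mfd D A) {f : Finset W → ZMod 2} (hf : Zc A (D + 1) f) :
    ∃ l : List (Finset W → ZMod 2), (∀ b ∈ l, BCl D A b) ∧ Bc A (D + 1) (f + l.sum) := by
  obtain ⟨V, hV, hz⟩ := span_restrict h hf
  obtain ⟨l, h1, h2⟩ := hV.2.2 f hz
  refine ⟨l, fun b hb => ?_, Bc.mono hV.1 (hz.1.add (span_list_cs l h1)) h2⟩
  have := span_bcl_mono hV.1 (Set.subset_univ V) (h1 b hb)
  rwa [Set.inter_univ] at this

end

end Pool.Agent.AVR
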