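import Pool.Agent.Lib.MP_89fc28_gt.BoxL

set_option autoImplicit false

namespace Pool.Agent.AVR

open Finset Topology

section
variable {W : Type*} [MetricSpace W] {D : ℕ} {A : Set W}

theorem Uniq_sub {O : Set W} (h : Box D A O) : O ⊆ A := by
  obtain ⟨⟨U, -, rfl⟩, -⟩ := h
  exact Set.inter_subset_left

theorem Uniq_zc_mono {O O' : Set W} {n : ℕ} {f : Finset W → ZMod 2} (h : Box D A O)
    (h' : Box D A O') (hs : O' ⊆ O) (hf : Zc O' n f) : Zc O n f := by
  obtain ⟨⟨U', hU', e'⟩, -⟩ := h'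
  have e : O' = O ∩ U' := by
    ext z
    constructor
    · intro hz
      refine ⟨hs hz, ?_⟩
      rw [e'] at hz
      exact hz.2
    · rintro ⟨h1, h2⟩
      rw [e']
      exact ⟨Uniq_sub h h1, h2⟩
  rw [e] at hf
  exact hf.mono hU'

theorem Uniq_bc_mono {O : Set W} {n : ℕ} {f : Finset W → ZMod 2} (h : Box D A O)
    (hf : CS O f) (hb : Bc O n f) : Bc A n f := by
  obtain ⟨⟨U, hU, rfl⟩, -⟩ := h
  exact hb.mono hU hf

theorem BClp.exists_small (h : Mfd D A) {x : W} (hx : x ∈ A) {N : Set W} (hN : N ∈ 𝓝 x) :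
    ∃ O b, Box D A O ∧ x ∈ O ∧ O ⊆ N ∧ Zc O (D + 1) b ∧ ¬ Bc O (D + 1) b := by
  obtain ⟨O, hO, hxO⟩ := h.2 x hx
  obtain ⟨O', hO', hxO', hs, -⟩ := hO.small hxO hN
  obtain ⟨b, hb1, hb2⟩ := hO'.exists_class
  exact ⟨O', b, hO', hxO', hs.trans Set.inter_subset_right, hb1, hb2⟩

theorem BClp.unique {x : W} {b b' : Finset W → ZMod 2} (h : BClp D A x b) (h' : BClp D A x b') :
    Bc A (D + 1) (b + b') := by
  obtain ⟨O, hO, hxO, hz, hn⟩ := h
  obtain ⟨O', hO', hxO', hz', hn'⟩ := h'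
  obtain ⟨U', hU', e'⟩ := hO'.1
  have hxU : x ∈ U' := by
    rw [e'] at hxO'
    exact hxO'.2
  obtain ⟨P, hP, hxP, hPs, hPn⟩ := hO.small hxO (hU'.mem_nhds hxU)
  have hPO : P ⊆ O := hPs.trans Set.inter_subset_left
  have hPO' : P ⊆ O' := by
    intro z hz
    rw [e']
    exact ⟨Uniq_sub hP hz, (hPs hz).2⟩
  obtain ⟨c, hc1, hc2⟩ := hP.exists_class
  have key : ∀ (O : Set W) (b : Finset W → ZMod 2), Box D A O → P ⊆ O → Zc O (D + 1) b →
      ¬ Bc O (D + 1) b → Bc A (D + 1) (b + c) := by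
    intro O b hO hPO hz hn
    have hcO : Zc O (D + 1) c := Uniq_zc_mono hO hP hPO hc1
    have hcn : ¬ Bc O (D + 1) c := hO.nonzero_of_subset hP hPO hc1 hc2
    rcases hO.Dim1 b c hz hcO with h1 | h1 | h1
    · exact absurd h1 hn
    · exact absurd h1 hcn
    · exact Uniq_bc_mono hO (hz.1.add hcO.1) h1
  have h1 := key O b hO hPO hz hn
  have h2 := key O' b' hO' hPO' hz' hn'
  have h3 := h1.add h2
  have e3 : b + c + (b' + c) = b + b' + (c + c) := by abel
  rwa [e3, co_add_self, add_zero] at h3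

theorem BClp.path (h : Mfd D A) {P : Set W} (hP : IsPreconnected P) (hPA : P ⊆ A) {x y : W}
    (hx : x ∈ P) (hy : y ∈ P) {b b' : Finset W → ZMod 2} (hb : BClp D A x b)
    (hb' : BClp D A y b') : Bc A (D + 1) (b + b') := by
  refine hP.induction₂ (fun x y => ∀ b b' : Finset W → ZMod 2, BClp D A x b → BClp D A y b' →
    Bc A (D + 1) (b + b')) ?_ ?_ ?_ hx hy b b' hb hb'
  · intro x hx
    obtain ⟨O, hO, hxO⟩ := h.2 x (hPA hx)
    obtain ⟨U, hU, e⟩ := hO.1
    have hxU : x ∈ U := by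
      rw [e] at hxO
      exact hxO.2
    obtain ⟨c, hc1, hc2⟩ := hO.exists_class
    filter_upwards [mem_nhdsWithin_of_mem_nhds (hU.mem_nhds hxU), self_mem_nhdsWithin]
      with y hyU hyP b b' hb hb'
    have hyO : y ∈ O := by
      rw [e]
      exact ⟨hPA hyP, hyU⟩
    have h1 := hb.unique ⟨O, hO, hxO, hc1, hc2⟩
    have h2 := hb'.unique ⟨O, hO, hyO, hc1, hc2⟩
    have h3 := h1.add h2
    have e3 : b + c + (b' + c) = b + b' + (c + c) := by abel
    rwa [e3, co_add_self, add_zero] at h3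
  · intro x y z _ hy _ h1 h2 b b' hb hb'
    obtain ⟨O, hO, hyO⟩ := h.2 y (hPA hy)
    obtain ⟨c, hc1, hc2⟩ := hO.exists_class
    have hc : BClp D A y c := ⟨O, hO, hyO, hc1, hc2⟩
    have h3 := (h1 b c hb hc).add (h2 c b' hc hb')
    have e3 : b + c + (c + b') = b + b' + (c + c) := by abel
    rwa [e3, co_add_self, add_zero] at h3
  · intro x y _ _ h1 b b' hb hb'
    have h2 := h1 b' b hb' hb
    rwa [add_comm b' b] at h2

end

end Pool.Agent.AVR
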