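import Pool.Agent.Lib.MP_89fc28_gt.Alg
import Pool.Agent.Lib.MP_89fc28_gt.Unif
import Pool.Agent.Lib.MP_89fc28_gt.Trans
import Pool.Agent.Lib.MP_89fc28_gt.BoxL
import Pool.Agent.Lib.MP_89fc28_gt.Uniq
import Pool.Agent.Lib.MP_89fc28_gt.Span

set_option autoImplicit false

namespace Pool.Agent.AVR

open Finset Topology

section Cover

variable {W W' : Type*} [MetricSpace W] [MetricSpace W'] {D : ℕ} {T : Set W} {B : Set W'}

/-- the image of a section is relatively open -/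
theorem Cover.sheet_open {π : W → W'} {O' : Set W'} (hπ : Set.MapsTo π T B)
    (hπc : ContinuousOn π T) (hO : ∃ U, IsOpen U ∧ O' = B ∩ U) {s s' : W' → W}
    (hs' : ContinuousOn s' O') (hsT : Set.MapsTo s O' T) (hps : ∀ y ∈ O', π (s y) = y)
    (hne : ∀ y ∈ O', s y ≠ s' y) (hor : ∀ t ∈ T, π t ∈ O' → t = s (π t) ∨ t = s' (π t)) :
    ∃ U, IsOpen U ∧ s '' O' = T ∩ U := by
  obtain ⟨U', hU', hO'⟩ := hO
  refine ⟨⋃₀ {U | IsOpen U ∧ T ∩ U ⊆ s '' O'}, isOpen_sUnion fun U hU => hU.1, ?_⟩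
  refine Set.Subset.antisymm ?_ ?_
  · rintro _ ⟨y, hy, rfl⟩
    refine ⟨hsT hy, ?_⟩
    -- a neighbourhood of `s y`
    have htT : s y ∈ T := hsT hy
    have hy' : π (s y) ∈ O' := by rw [hps y hy]; exact hy
    have h1 : ∀ᶠ t in 𝓝[T] (s y), π t ∈ O' := by
      have h2 : ∀ᶠ t in 𝓝[T] (s y), π t ∈ U' := by
        have : U' ∈ 𝓝 (π (s y)) := by
          rw [hO'] at hy'
          exact hU'.mem_nhds hy'.2
        exact (hπc (s y) htT) this
      have h3 : ∀ᶠ t in 𝓝[T] (s y), t ∈ T := self_mem_nhdsWithin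
      filter_upwards [h2, h3] with t h4 h5
      rw [hO']
      exact ⟨hπ h5, h4⟩
    have h2 : ∀ᶠ t in 𝓝[T] (s y), t ≠ s' (π t) := by
      have hc : Filter.Tendsto (fun t => s' (π t)) (𝓝[T] (s y)) (𝓝 (s' (π (s y)))) := by
        have h3 : Filter.Tendsto s' (𝓝[O'] (π (s y))) (𝓝 (s' (π (s y)))) := hs' _ hy'
        refine h3.comp ?_
        exact tendsto_nhdsWithin_iff.2 ⟨hπc (s y) htT, h1⟩
      have hid : Filter.Tendsto (fun t : W => t) (𝓝[T] (s y)) (𝓝 (s y)) :=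
        tendsto_nhdsWithin_of_tendsto_nhds Filter.tendsto_id
      have hne' : s y ≠ s' (π (s y)) := by
        rw [hps y hy]
        exact hne y hy
      have hpr := hid.prodMk_nhds hc
      have hop : {q : W × W | q.1 ≠ q.2} ∈ 𝓝 ((s y, s' (π (s y))) : W × W) :=
        (isClosed_eq continuous_fst continuous_snd).isOpen_compl.mem_nhds hne'
      exact hpr hop
    have h3 : ∀ᶠ t in 𝓝[T] (s y), t ∈ s '' O' := by
      have h4 : ∀ᶠ t in 𝓝[T] (s y), t ∈ T := self_mem_nhdsWithin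
      filter_upwards [h1, h2, h4] with t h5 h6 h7
      rcases hor t h7 h5 with h8 | h8
      · exact ⟨π t, h5, h8.symm⟩
      · exact absurd h8 h6
    obtain ⟨U, hU, hyU, hsub⟩ := mem_nhdsWithin.1 h3
    refine ⟨U, ⟨hU, ?_⟩, hyU⟩
    rintro t ⟨htT', htU⟩
    exact hsub ⟨htU, htT'⟩
  · rintro t ⟨htT, U, hU, htU⟩
    exact hU.2 ⟨htT, htU⟩

/-- the image of a section over a box is a box -/
theorem Cover.sheet_box {π : W → W'} {O' : Set W'} (hπ : Set.MapsTo π T B)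
    (hπc : ContinuousOn π T) (hO : Box D B O') {s s' : W' → W}
    (hsc : ContinuousOn s O')
    (hs' : ContinuousOn s' O') (hsT : Set.MapsTo s O' T) (hps : ∀ y ∈ O', π (s y) = y)
    (hne : ∀ y ∈ O', s y ≠ s' y) (hor : ∀ t ∈ T, π t ∈ O' → t = s (π t) ∨ t = s' (π t)) :
    HM (s '' O') O' π s ∧ Box D T (s '' O') := by
  have hsub : s '' O' ⊆ T := by
    rintro _ ⟨y, hy, rfl⟩
    exact hsT hy
  have h1 : HM (s '' O') O' π s := by
    refine ⟨?_, ?_, hπc.mono hsub, hsc, ?_, hps⟩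
    · rintro _ ⟨y, hy, rfl⟩
      rw [hps y hy]
      exact hy
    · exact Set.mapsTo_image s O'
    · rintro _ ⟨y, hy, rfl⟩
      rw [hps y hy]
  refine ⟨h1, Cover.sheet_open hπ hπc hO.1 hs' hsT hps hne hor, ?_⟩
  obtain ⟨-, φ, ψ, h2, h3, h4, h5, h6, h7⟩ := hO
  refine ⟨s ∘ φ, ψ ∘ π, ?_, ?_, ?_, ?_, ?_, ?_⟩
  · intro v hv
    exact ⟨φ v, h2 hv, rfl⟩
  · intro w _
    exact Set.mem_univ _
  · exact hsc.comp h4 h2
  · exact h5.comp h1.2.2.1 h1.1
  · intro v hv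
    show ψ (π (s (φ v))) = v
    rw [hps _ (h2 hv), h6 v hv]
  · rintro _ ⟨y, hy, rfl⟩
    show s (φ (ψ (π (s y)))) = s y
    rw [hps y hy, h7 y hy]

theorem Cover.pull_list_sum (A : Set W) (g : W → W') (l : List (Finset W' → ZMod 2)) :
    pull A g l.sum = (l.map (pull A g)).sum := by
  induction l with
  | nil => simp [pull_zero]
  | cons a l ih => rw [List.sum_cons, pull_add, ih, List.map_cons, List.sum_cons]

theorem Cover.bc_list_sum {A : Set W} {n : ℕ} (l : List (Finset W → ZMod 2))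
    (h : ∀ b ∈ l, Bc A n b) : Bc A n l.sum := by
  induction l with
  | nil => simpa using Bc.zero
  | cons a l ih =>
    rw [List.sum_cons]
    exact (h a (by simp)).add (ih fun b hb => h b (by simp [hb]))

/-- a cochain supported over `O'` is locally the sum of its two restrictions to the sheets -/
theorem Cover.lz_split {π : W → W'} {O' : Set W'} (hπ : Set.MapsTo π T B)
    (hπc : ContinuousOn π T) {s₁ s₂ : W' → W} {U₁ U₂ : Set W} (hU₁ : IsOpen U₁) (hU₂ : IsOpen U₂)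
    (h1 : s₁ '' O' = T ∩ U₁) (h2 : s₂ '' O' = T ∩ U₂) (hd : Disjoint (s₁ '' O') (s₂ '' O'))
    (hor : ∀ t ∈ T, π t ∈ O' → t = s₁ (π t) ∨ t = s₂ (π t))
    {b : Finset W' → ZMod 2} (hb : CS O' b) {n : ℕ} :
    Lz T (n + 1) (pull T π b + (pull (s₁ '' O') π b + pull (s₂ '' O') π b)) := by
  classical
  obtain ⟨h0, L, hL, hLO, hbL⟩ := hb
  have key : ∀ S : Finset W, S.Nonempty → (S : Set W) ⊆ T →
      ((S : Set W) ⊆ s₁ '' O' ∨ (S : Set W) ⊆ s₂ '' O' ∨ ∀ x ∈ S, π x ∉ L) →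
      (pull T π b + (pull (s₁ '' O') π b + pull (s₂ '' O') π b)) S = 0 := by
    intro S hSne hST hS
    obtain ⟨x, hx⟩ := hSne
    have hx' : x ∈ (S : Set W) := hx
    simp only [Pi.add_apply, pull]
    rcases hS with h | h | h
    · have h3 : ¬ (S : Set W) ⊆ s₂ '' O' := fun h4 =>
        Set.disjoint_left.1 hd (h hx') (h4 hx')
      rw [res_of_subset _ hST, res_of_subset _ h, res_of_not_subset _ h3, add_zero]
      exact z2_add_self _
    · have h3 : ¬ (S : Set W) ⊆ s₁ '' O' := fun h4 =>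
        Set.disjoint_left.1 hd (h4 hx') (h hx')
      rw [res_of_subset _ hST, res_of_subset _ h, res_of_not_subset _ h3, zero_add]
      exact z2_add_self _
    · have h3 : gst π b S = 0 := by
        simp only [gst]
        split_ifs
        · by_contra hne
          have h4 := hbL _ hne
          refine h x hx (h4 ?_)
          simp only [coe_image, Set.mem_image, mem_coe]
          exact ⟨x, hx, rfl⟩
        · rfl
      have h4 : ∀ A : Set W, res A (gst π b) S = 0 := by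
        intro A
        simp only [res]
        split_ifs
        · exact h3
        · rfl
      rw [h4, h4, h4]
      rfl
  intro x hx
  by_cases hxL : π x ∈ L
  · rcases hor x hx (hLO hxL) with h | h
    · have hx1 : x ∈ s₁ '' O' := ⟨π x, hLO hxL, h.symm⟩
      rw [h1] at hx1
      refine ⟨U₁, hU₁.mem_nhds hx1.2, fun S hS hSU hST => ?_⟩
      refine key S (card_pos.1 (by omega)) hST (Or.inl ?_)
      rw [h1]
      exact Set.subset_inter hST hSU
    · have hx1 : x ∈ s₂ '' O' := ⟨π x, hLO hxL, h.symm⟩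
      rw [h2] at hx1
      refine ⟨U₂, hU₂.mem_nhds hx1.2, fun S hS hSU hST => ?_⟩
      refine key S (card_pos.1 (by omega)) hST (Or.inr (Or.inl ?_))
      rw [h2]
      exact Set.subset_inter hST hSU
  · have h3 : ∀ᶠ t in 𝓝[T] x, π t ∈ Lᶜ :=
      (hπc x hx) (hL.isClosed.isOpen_compl.mem_nhds hxL)
    obtain ⟨U, hU, hxU, hsub⟩ := mem_nhdsWithin.1 h3
    refine ⟨U, hU.mem_nhds hxU, fun S hS hSU hST => ?_⟩
    refine key S (card_pos.1 (by omega)) hST (Or.inr (Or.inr fun y hy => ?_))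
    exact hsub ⟨hSU hy, hST hy⟩

end Cover

/-- the transfer-free form of: pulling back along a double cover kills the top class, when the two
points of every fibre lie in one connected subset of the total space -/
theorem double_cover {W W' : Type*} [MetricSpace W] [MetricSpace W'] {D : ℕ} {T : Set W}
    {B : Set W'} (hT : Mfd D T) (hB : Mfd D B) {π : W → W'} (hπ : PM T B π)
    (hs : ∀ p ∈ B, ∃ V, IsOpen V ∧ p ∈ V ∧ ∃ s₁ s₂ : W' → W,
      ContinuousOn s₁ (B ∩ V) ∧ ContinuousOn s₂ (B ∩ V) ∧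
      Set.MapsTo s₁ (B ∩ V) T ∧ Set.MapsTo s₂ (B ∩ V) T ∧
      (∀ y ∈ B ∩ V, π (s₁ y) = y) ∧ (∀ y ∈ B ∩ V, π (s₂ y) = y) ∧
      (∀ y ∈ B ∩ V, s₁ y ≠ s₂ y) ∧
      (∀ t ∈ T, π t ∈ V → t = s₁ (π t) ∨ t = s₂ (π t)) ∧
      ∃ P : Set W, IsPreconnected P ∧ P ⊆ T ∧ s₁ p ∈ P ∧ s₂ p ∈ P)
    {f : Finset W' → ZMod 2} (hf : Zc B (D + 1) f) : Bc T (D + 1) (pull T π f) := by
  -- it suffices to treat the classes of boxes
  suffices main : ∀ b, BCl D B b → Bc T (D + 1) (pull T π b) by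
    obtain ⟨l, hl, hfl⟩ := hB.span hf
    have h1 := hπ.Bc hfl
    rw [pull_add] at h1
    refine h1.of_add ?_
    rw [Cover.pull_list_sum]
    refine Cover.bc_list_sum _ fun c hc => ?_
    obtain ⟨b, hb, rfl⟩ := List.mem_map.1 hc
    exact main b (hl b hb)
  rintro b ⟨O, hO, hbO, hbO'⟩
  obtain ⟨⟨U, hU, hOU⟩, φ, ψ, hφψ⟩ := id hO
  -- a point of the box
  set p : W' := φ 0 with hp
  have hpO : p ∈ O := hφψ.1 (Set.mem_univ _)
  have hOB : O ⊆ B := by rw [hOU]; exact Set.inter_subset_left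
  obtain ⟨V, hV, hpV, s₁, s₂, c1, c2, m1, m2, q1, q2, hne, hor, P, hP, hPT, hP1, hP2⟩ :=
    hs p (hOB hpO)
  obtain ⟨O', hO', hpO', hO'sub, hO'nz⟩ := hO.small hpO (hV.mem_nhds hpV)
  obtain ⟨b', hb', hb'nz⟩ := hO'.exists_class
  have hO'O : O' ⊆ O := hO'sub.trans Set.inter_subset_left
  have hO'V : O' ⊆ B ∩ V := fun y hy => ⟨hOB (hO'O hy), (hO'sub hy).2⟩
  obtain ⟨U', hU', hO'U'⟩ := id hO'.1
  have hint : O ∩ U' = O' := by
    rw [hO'U']
    refine Set.Subset.antisymm (fun y hy => ⟨hOB hy.1, hy.2⟩) ?_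
    rw [← hO'U']
    intro y hy
    refine ⟨hO'O hy, ?_⟩
    rw [hO'U'] at hy
    exact hy.2
  have hb'O : Zc O (D + 1) b' := by
    have h1 : Zc (O ∩ U') (D + 1) b' := by rw [hint]; exact hb'
    exact h1.mono hU'
  have hbb : Bc O (D + 1) (b + b') := by
    rcases hO.Dim1 b b' hbO hb'O with h | h | h
    · exact absurd h hbO'
    · exact absurd h (hO'nz b' hb' hb'nz)
    · exact h
  have hbbB : Bc B (D + 1) (b + b') := by
    have h1 : CS (B ∩ U) (b + b') := by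
      rw [← hOU]
      exact hbO.1.add hb'O.1
    have h2 : Bc (B ∩ U) (D + 1) (b + b') := by
      rw [← hOU]
      exact hbb
    exact Bc.mono hU h1 h2
  have h1 := hπ.Bc hbbB
  rw [pull_add] at h1
  refine h1.of_add ?_
  -- the two sheets
  have hor' : ∀ t ∈ T, π t ∈ O' → t = s₁ (π t) ∨ t = s₂ (π t) := fun t ht hy =>
    hor t ht (hO'V hy).2
  obtain ⟨e1, b1⟩ := Cover.sheet_box (D := D) hπ.1 hπ.2.1 hO' (c1.mono hO'V) (c2.mono hO'V)
    (m1.mono_left hO'V) (fun y hy => q1 y (hO'V hy)) (fun y hy => hne y (hO'V hy)) hor'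
  obtain ⟨e2, b2⟩ := Cover.sheet_box (D := D) hπ.1 hπ.2.1 hO' (c2.mono hO'V) (c1.mono hO'V)
    (m2.mono_left hO'V) (fun y hy => q2 y (hO'V hy)) (fun y hy => (hne y (hO'V hy)).symm)
    (fun t ht hy => (hor' t ht hy).symm)
  have k1 : BClp D T (s₁ p) (pull (s₁ '' O') π b') :=
    ⟨s₁ '' O', b1, ⟨p, hpO', rfl⟩, e1.pm.Zc hb', fun h => hb'nz ((e1.Bc_iff hb'.1).1 h)⟩
  have k2 : BClp D T (s₂ p) (pull (s₂ '' O') π b') :=
    ⟨s₂ '' O', b2, ⟨p, hpO', rfl⟩, e2.pm.Zc hb', fun h => hb'nz ((e2.Bc_iff hb'.1).1 h)⟩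
  have k3 : Bc T (D + 1) (pull (s₁ '' O') π b' + pull (s₂ '' O') π b') :=
    BClp.path hT hP hPT hP1 hP2 k1 k2
  refine Bc.of_add (Bc.of_Lz ?_) k3
  obtain ⟨U₁, hU₁, hW₁⟩ := b1.1
  obtain ⟨U₂, hU₂, hW₂⟩ := b2.1
  refine Cover.lz_split hπ.1 hπ.2.1 hU₁ hU₂ hW₁ hW₂ ?_ hor' hb'.1
  rw [Set.disjoint_left]
  rintro _ ⟨y, hy, rfl⟩ ⟨z, hz, hyz⟩
  have h2 : z = y := by
    have h3 := congrArg π hyz
    rw [q2 z (hO'V hz), q1 y (hO'V hy)] at h3
    exact h3
  rw [h2] at hyz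
  exact hne y (hO'V hy) hyz.symm

end Pool.Agent.AVR
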