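import Pool.Agent.Lib.MP_89fc28_gt.Unif

set_option autoImplicit false

namespace Pool.Agent.AVR

open Finset Topology

/-- the points where `f` is locally zero form a relatively open set -/
theorem cut_open {W : Type*} [TopologicalSpace W] {A : Set W} {n : ℕ} {f : Finset W → ZMod 2}
    {x : W} (h : LzAt A n f x) : ∀ᶠ y in 𝓝 x, LzAt A n f y := by
  obtain ⟨U, hU, h'⟩ := h
  filter_upwards [eventually_mem_nhds_iff.mpr hU] with y hy
  exact ⟨U, hy, h'⟩

theorem cut {W : Type*} [MetricSpace W] {A U : Set W} (hA : LC A) (hU : IsOpen U)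
    {f : Finset W → ZMod 2} (hf : CS A f) (n : ℕ) (hz : ∀ x ∈ A, x ∉ U → LzAt A n f x) :
    ∃ f' : Finset W → ZMod 2, CS (A ∩ U) f' ∧ Lz A n (f + f') := by
  obtain ⟨h0, L, hL, hLA, hs⟩ := hf
  set M : Set W := {x ∈ L | ¬ LzAt A n f x} with hM
  have hMc : IsCompact M := by
    have : M = L \ {x | LzAt A n f x} := by ext x; rfl
    rw [this]
    refine hL.diff (isOpen_iff_mem_nhds.mpr fun x hx => cut_open hx)
  have hMU : M ⊆ A ∩ U := by
    rintro x ⟨hx, hx'⟩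
    refine ⟨hLA hx, ?_⟩
    by_contra hxU
    exact hx' (hz x (hLA hx) hxU)
  obtain ⟨K, hK, hKA, hKn⟩ := (hA.inter_open hU).exists_nhd hMc hMU
  refine ⟨res K f, ⟨by rw [res_empty, h0], K, hK, hKA, fun S hS => (res_ne_zero hS).1⟩, ?_⟩
  intro x hx
  by_cases hxz : LzAt A n f x
  · refine hxz.add ?_
    obtain ⟨V, hV, h'⟩ := hxz
    refine ⟨V, hV, fun S h1 h2 h3 => ?_⟩
    by_cases hSK : (S : Set W) ⊆ K
    · rw [res_of_subset _ hSK]; exact h' S h1 h2 h3
    · exact res_of_not_subset _ hSK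
  · have hxL : x ∈ L := by
      by_contra hxL
      exact hxz (LzAt.of_notin hL.isClosed h0 hs hxL)
    have hxM : x ∈ M := ⟨hxL, hxz⟩
    obtain ⟨V, hV, hVK⟩ := mem_nhdsWithin_iff_exists_mem_nhds_inter.mp (hKn x hxM)
    refine ⟨V ∩ U, Filter.inter_mem hV (hU.mem_nhds (hMU hxM).2), fun S _ h2 h3 => ?_⟩
    have hSK : (S : Set W) ⊆ K := fun y hy => hVK ⟨(h2 hy).1, h3 hy, (h2 hy).2⟩
    rw [Pi.add_apply, res_of_subset _ hSK]
    exact z2_add_self _

theorem cs_dd {W : Type*} [MetricSpace W] {A : Set W} (hA : LC A) {e : Finset W → ZMod 2}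
    (he : CS A e) : ∃ g : Finset W → ZMod 2, CS A g ∧ ∀ n, Lz A n (g + dd e) := by
  obtain ⟨h0, L, hL, hLA, hs⟩ := he
  obtain ⟨K, hK, hKA, hKn⟩ := hA.exists_nhd hL hLA
  refine ⟨res K (dd e), ⟨by rw [res_empty, dd_empty], K, hK, hKA,
    fun S hS => (res_ne_zero hS).1⟩, fun n x hx => ?_⟩
  by_cases hxL : x ∈ L
  · obtain ⟨V, hV, hVK⟩ := mem_nhdsWithin_iff_exists_mem_nhds_inter.mp (hKn x hxL)
    refine ⟨V, hV, fun S _ h2 h3 => ?_⟩
    have hSK : (S : Set W) ⊆ K := fun y hy => hVK ⟨h2 hy, h3 hy⟩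
    rw [Pi.add_apply, res_of_subset _ hSK]
    exact z2_add_self _
  · obtain ⟨V, hV, h'⟩ := LzAt.dd_of_notin (A := A) (n := n) hL.isClosed h0 hs hxL
    refine ⟨V, hV, fun S h1 h2 h3 => ?_⟩
    rw [Pi.add_apply, h' S h1 h2 h3, add_zero]
    by_cases hSK : (S : Set W) ⊆ K
    · rw [res_of_subset _ hSK]; exact h' S h1 h2 h3
    · exact res_of_not_subset _ hSK

theorem cut_dd {W : Type*} [MetricSpace W] {A U : Set W} (hA : LC A) (hU : IsOpen U)
    {e : Finset W → ZMod 2} (he : CS A e) (n : ℕ) (hz : ∀ x ∈ A, x ∉ U → LzAt A n (dd e) x) :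
    ∃ w : Finset W → ZMod 2, CS (A ∩ U) w ∧ Lz A n (w + dd e) := by
  obtain ⟨g, hg, hge⟩ := cs_dd hA he
  obtain ⟨w, hw, hwg⟩ := cut hA hU hg n (fun x hx hxU => by
    have := (hge n x hx).add (hz x hx hxU)
    rwa [add_assoc, co_add_self, add_zero] at this)
  refine ⟨w, hw, ?_⟩
  have := hwg.add (hge n)
  have e1 : g + w + (g + dd e) = w + dd e := by
    have : g + w + (g + dd e) = (g + g) + (w + dd e) := by abel
    rw [this, co_add_self, zero_add]
  rwa [e1] at this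

end Pool.Agent.AVR
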