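import Mathlib

/-!
Mod 2 Alexander–Spanier cochains on finite subsets (unordered), relative to a subset `A` of a
topological space `W`, with compact supports.  A cochain is any function `Finset W → ZMod 2`;
a class of degree `n - 1` lives on the sets with `n` elements.
-/

set_option autoImplicit false

namespace Pool.Agent.AVR

open Finset Topology

open Classical in
/-- coboundary -/
noncomputable def dd {W : Type*} (f : Finset W → ZMod 2) : Finset W → ZMod 2 :=
  fun S => ∑ x ∈ S, f (S.erase x)

open Classical in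
/-- contraction with the point `b` -/
noncomputable def kap {W : Type*} (b : W) (f : Finset W → ZMod 2) : Finset W → ZMod 2 :=
  fun S => if b ∈ S then 0 else f (insert b S)

open Classical in
/-- raw pull-back along any function -/
noncomputable def gst {W W' : Type*} (g : W → W') (f : Finset W' → ZMod 2) :
    Finset W → ZMod 2 :=
  fun S => if (S.image g).card = S.card then f (S.image g) else 0

open Classical in
/-- restriction to the subsets of `A` -/
noncomputable def res {W : Type*} (A : Set W) (f : Finset W → ZMod 2) : Finset W → ZMod 2 :=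
  fun S => if (S : Set W) ⊆ A then f S else 0

/-- pull-back along a function, restricted to the subsets of `A` -/
noncomputable def pull {W W' : Type*} (A : Set W) (g : W → W') (f : Finset W' → ZMod 2) :
    Finset W → ZMod 2 := res A (gst g f)

/-- `f` vanishes on the sets with `n` elements near `x` (inside `A`) -/
def LzAt {W : Type*} [TopologicalSpace W] (A : Set W) (n : ℕ) (f : Finset W → ZMod 2)
    (x : W) : Prop :=
  ∃ U ∈ 𝓝 x, ∀ S : Finset W, S.card = n → (S : Set W) ⊆ U → (S : Set W) ⊆ A → f S = 0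

/-- `f` is locally zero on the sets with `n` elements in `A` -/
def Lz {W : Type*} [TopologicalSpace W] (A : Set W) (n : ℕ) (f : Finset W → ZMod 2) : Prop :=
  ∀ x ∈ A, LzAt A n f x

/-- `f` is zero outside the subsets of a compact subset of `A` -/
def CS {W : Type*} [TopologicalSpace W] (A : Set W) (f : Finset W → ZMod 2) : Prop :=
  f ∅ = 0 ∧ ∃ L : Set W, IsCompact L ∧ L ⊆ A ∧ ∀ S : Finset W, f S ≠ 0 → (S : Set W) ⊆ L

/-- cocycles on the sets with `n` elements (degree `n - 1`) -/
def Zc {W : Type*} [TopologicalSpace W] (A : Set W) (n : ℕ) (f : Finset W → ZMod 2) : Prop :=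
  CS A f ∧ Lz A (n + 1) (dd f)

/-- coboundaries -/
def Bc {W : Type*} [TopologicalSpace W] (A : Set W) (n : ℕ) (f : Finset W → ZMod 2) : Prop :=
  ∃ e : Finset W → ZMod 2, CS A e ∧ Lz A n (f + dd e)

/-- vanishing of the cohomology of `A` in degree `n - 1` -/
def Van {W : Type*} [TopologicalSpace W] (A : Set W) (n : ℕ) : Prop :=
  ∀ f : Finset W → ZMod 2, Zc A n f → Bc A n f

/-- the cohomology in degree `n - 1` has at most two elements -/
def Dim1 {W : Type*} [TopologicalSpace W] (A : Set W) (n : ℕ) : Prop :=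
  ∀ f g : Finset W → ZMod 2, Zc A n f → Zc A n g → Bc A n f ∨ Bc A n g ∨ Bc A n (f + g)

/-- local compactness of a subset -/
def LC {W : Type*} [TopologicalSpace W] (A : Set W) : Prop :=
  ∀ x ∈ A, ∃ K : Set W, IsCompact K ∧ K ⊆ A ∧ K ∈ 𝓝[A] x

/-- `g` restricts to a proper continuous map from `A` to `A'` -/
def PM {W W' : Type*} [TopologicalSpace W] [TopologicalSpace W'] (A : Set W) (A' : Set W')
    (g : W → W') : Prop :=
  Set.MapsTo g A A' ∧ ContinuousOn g A ∧
    ∀ L' : Set W', IsCompact L' → L' ⊆ A' → ∃ L : Set W, IsCompact L ∧ L ⊆ A ∧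
      ∀ x ∈ A, g x ∈ L' → x ∈ L

/-- mutually inverse homeomorphisms between `A` and `A'` -/
def HM {W W' : Type*} [TopologicalSpace W] [TopologicalSpace W'] (A : Set W) (A' : Set W')
    (g : W → W') (g' : W' → W) : Prop :=
  Set.MapsTo g A A' ∧ Set.MapsTo g' A' A ∧ ContinuousOn g A ∧ ContinuousOn g' A' ∧
    (∀ x ∈ A, g' (g x) = x) ∧ ∀ y ∈ A', g (g' y) = y

/-- `O` is relatively open in `A` and homeomorphic to `ℝ^D` -/
def Box {W : Type*} [TopologicalSpace W] (D : ℕ) (A O : Set W) : Prop :=
  (∃ U, IsOpen U ∧ O = A ∩ U) ∧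
    ∃ (φ : (Fin D → ℝ) → W) (ψ : W → (Fin D → ℝ)), HM Set.univ O φ ψ

/-- `A` is a topological manifold of dimension `D` -/
def Mfd {W : Type*} [TopologicalSpace W] (D : ℕ) (A : Set W) : Prop :=
  LC A ∧ ∀ x ∈ A, ∃ O, Box D A O ∧ x ∈ O

/-- nonzero class of a box -/
def BCl {W : Type*} [TopologicalSpace W] (D : ℕ) (A : Set W) (b : Finset W → ZMod 2) : Prop :=
  ∃ O, Box D A O ∧ Zc O (D + 1) b ∧ ¬ Bc O (D + 1) b

/-- nonzero class of a box that contains `x` -/
def BClp {W : Type*} [TopologicalSpace W] (D : ℕ) (A : Set W) (x : W)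
    (b : Finset W → ZMod 2) : Prop :=
  ∃ O, Box D A O ∧ x ∈ O ∧ Zc O (D + 1) b ∧ ¬ Bc O (D + 1) b

end Pool.Agent.AVR
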