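import Pool.Agent.Lib.MP_89fc28_gt.Taut

set_option autoImplicit false

namespace Pool.Agent.AVR

open Finset Topology

/-- restriction of a cochain that kills a class of the open part -/
theorem zc_closed_of {W : Type*} [MetricSpace W] {A C : Set W} (hC : IsClosed C) {m : ℕ}
    {f e : Finset W → ZMod 2} (hf : CS (A ∩ Cᶜ) f) (he : CS A e)
    (h : Lz A (m + 1) (f + dd e)) : Zc (A ∩ C) m (res C e) := by
  refine ⟨he.res_closed hC, fun x hx => ?_⟩
  obtain ⟨f0, L, hL, hLA, hs⟩ := hf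
  have h1 : LzAt A (m + 1) f x := LzAt.of_notin hL.isClosed f0 hs fun hxL => (hLA hxL).2 hx.2
  have h2 := (h x hx.1).add h1
  have e1 : f + dd e + f = dd e := by
    have : f + dd e + f = dd e + (f + f) := by abel
    rw [this, co_add_self, add_zero]
  rw [e1] at h2
  refine (h2.mono (A₁ := A ∩ C) Set.inter_subset_left).congr ?_
  exact ⟨Set.univ, Filter.univ_mem, fun S _ _ hSA => (dd_res _ fun y hy => (hSA hy).2).symm⟩

theorem exact_dd_zero {W : Type*} [MetricSpace W] {A C : Set W} {m : ℕ}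
    {f e : Finset W → ZMod 2} (hf : CS (A ∩ Cᶜ) f)
    (h : Lz A (m + 1) (f + dd e)) : ∀ x ∈ A ∩ C, LzAt A (m + 1) (dd e) x := by
  intro x hx
  obtain ⟨f0, L, hL, hLA, hs⟩ := hf
  have h1 : LzAt A (m + 1) f x := LzAt.of_notin hL.isClosed f0 hs fun hxL => (hLA hxL).2 hx.2
  have h2 := (h x hx.1).add h1
  have e1 : f + dd e + f = dd e := by
    have : f + dd e + f = dd e + (f + f) := by abel
    rw [this, co_add_self, add_zero]
  rwa [e1] at h2

theorem bc_open {W : Type*} [MetricSpace W] {A C : Set W} (hA : LC A) (hC : IsClosed C) {m : ℕ}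
    (hm : 1 ≤ m) {f e : Finset W → ZMod 2} (hf : CS (A ∩ Cᶜ) f) (he : CS A e)
    (h : Lz A (m + 1) (f + dd e)) (hb : Bc (A ∩ C) m e) : Bc (A ∩ Cᶜ) (m + 1) f := by
  obtain ⟨e', he', v, hv, hvz⟩ := taut hA hC hm he (exact_dd_zero hf h) hb
  refine ⟨e', he', ?_⟩
  have h1 := hvz.dd
  rw [dd_add, dd_dd, add_zero, dd_add] at h1
  have h2 := h.add h1
  have e1 : f + dd e + (dd e + dd e') = f + dd e' := by
    have : f + dd e + (dd e + dd e') = f + dd e' + (dd e + dd e) := by abel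
    rw [this, co_add_self, add_zero]
  rw [e1] at h2
  exact h2.mono Set.inter_subset_left

theorem bc_of_res {W : Type*} [TopologicalSpace W] {A C : Set W} {m : ℕ}
    {e : Finset W → ZMod 2} (h : Bc (A ∩ C) m (res C e)) : Bc (A ∩ C) m e := by
  obtain ⟨u, hu, hz⟩ := h
  refine ⟨u, hu, hz.congr fun S _ hS => ?_⟩
  rw [Pi.add_apply, Pi.add_apply, res_of_subset _ fun y hy => (hS hy).2]

theorem bc_open_of_van {W : Type*} [MetricSpace W] {A C : Set W} (hA : LC A) (hC : IsClosed C)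
    {m : ℕ} (hm : 1 ≤ m) {f : Finset W → ZMod 2} (hf : CS (A ∩ Cᶜ) f)
    (hv : Van (A ∩ C) m) (h : Bc A (m + 1) f) : Bc (A ∩ Cᶜ) (m + 1) f := by
  obtain ⟨e, he, hz⟩ := h
  exact bc_open hA hC hm hf he hz (bc_of_res (hv _ (zc_closed_of hC hf he hz)))

theorem van_of_closed {W : Type*} [MetricSpace W] {A C : Set W} (hA : LC A) (hC : IsClosed C)
    {n : ℕ} (hn : 1 ≤ n) (h1 : Van (A ∩ C) n) (h2 : Van (A ∩ Cᶜ) n) : Van A n := by
  intro f hf
  have hb : Bc (A ∩ C) n f := bc_of_res (h1 _ (hf.res_closed hC))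
  obtain ⟨f', hf', hff'⟩ := taut hA hC hn hf.1 (fun x hx => hf.2 x hx.1) hb
  have hz : Zc A n f' := Zc.of_Bc (hf'.mono Set.inter_subset_left) hf (by rwa [add_comm])
  have hz' : Zc (A ∩ Cᶜ) n f' := ⟨hf', hz.2.mono Set.inter_subset_left⟩
  exact hff'.of_add (Bc.mono hC.isOpen_compl hf' (h2 _ hz'))

end Pool.Agent.AVR
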