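import Pool.Agent.Lib.MP_89fc28_gt.Unif
import Pool.Agent.Lib.MP_89fc28_gt.Contig

set_option autoImplicit false

namespace Pool.Agent.AVR

open Finset Topology

theorem htpy_dd_ne {W' : Type*} {f : Finset W' → ZMod 2} {T : Finset W'} (h : dd f T ≠ 0) :
    ∃ S : Finset W', S ⊆ T ∧ S.card + 1 = T.card ∧ f S ≠ 0 := by
  classical
  by_contra hcon
  push Not at hcon
  have : dd f T = dd (0 : Finset W' → ZMod 2) T := dd_congr fun S hS hc => by
    exact hcon S hS hc
  rw [this, dd_zero] at h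
  exact h rfl

theorem htpy_step {W W' : Type*} [MetricSpace W] [MetricSpace W'] {A : Set W}
    {A' : Set W'} {n : ℕ} (hn : 1 ≤ n) (hA : LC A) (g h : W → W')
    (hg : Set.MapsTo g A A') (hh : Set.MapsTo h A A') (hgc : ContinuousOn g A)
    (f : Finset W' → ZMod 2) (h0 : f ∅ = 0) {ε : ℝ} (hε : 0 < ε)
    (hf : ∀ T : Finset W', T.card = n + 1 → (T : Set W') ⊆ A' →
      (∀ x ∈ T, ∀ y ∈ T, dist x y < ε) → dd f T = 0)
    (L' : Set W') (hL' : ∀ S : Finset W', f S ≠ 0 → (S : Set W') ⊆ L')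
    (L : Set W) (hL : IsCompact L) (hLA : L ⊆ A)
    (hs : ∀ x ∈ A, (g x ∈ L' ∨ h x ∈ L') → x ∈ L)
    (K : Set W) (hKn : ∀ x ∈ L, K ∈ 𝓝[A] x)
    (hgh : ∀ x ∈ K, dist (g x) (h x) < ε / 4) :
    Bc A n (pull A g f + pull A h f) := by
  refine contig hn hA g h f h0 L' hL' L hL hLA hs fun x hx => ?_
  by_cases hxL : x ∈ L
  · have h1 : ∀ᶠ z in 𝓝[A] x, dist (g z) (g x) < ε / 4 :=
      (hgc x hx).eventually (Metric.ball_mem_nhds _ (by positivity))
    have h2 : ∀ᶠ z in 𝓝[A] x, z ∈ K := hKn x hxL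
    obtain ⟨U, hU, hUb⟩ := mem_nhdsWithin_iff_exists_mem_nhds_inter.mp (h1.and h2)
    refine ⟨U, hU, Or.inr fun T hT hTz => ?_⟩
    have hd : ∀ y ∈ T, dist y (g x) < ε / 2 := by
      intro y hy
      obtain ⟨z, hz, rfl | rfl⟩ := hTz y hy
      · have := (hUb hz).1
        linarith
      · have h3 := (hUb hz).1
        have h4 := hgh z (hUb hz).2
        calc dist (h z) (g x) ≤ dist (h z) (g z) + dist (g z) (g x) := dist_triangle _ _ _
          _ < ε / 4 + ε / 4 := add_lt_add (by rwa [dist_comm]) h3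
          _ = ε / 2 := by ring
    refine hf T hT ?_ fun a ha b hb => ?_
    · intro y hy
      obtain ⟨z, hz, rfl | rfl⟩ := hTz y hy
      · exact hg hz.2
      · exact hh hz.2
    · calc dist a b ≤ dist a (g x) + dist b (g x) := dist_triangle_right _ _ _
        _ < ε / 2 + ε / 2 := add_lt_add (hd a ha) (hd b hb)
        _ = ε := by ring
  · refine ⟨Lᶜ, hL.isClosed.isOpen_compl.mem_nhds hxL, Or.inr fun T hT hTz => ?_⟩
    by_contra hne
    obtain ⟨S, hST, hSc, hfS⟩ := htpy_dd_ne hne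
    obtain ⟨y, hy⟩ : S.Nonempty := card_pos.mp (by omega)
    have hyL : y ∈ L' := hL' S hfS hy
    obtain ⟨z, hz, hz'⟩ := hTz y (hST hy)
    refine hz.1 (hs z hz.2 ?_)
    rcases hz' with rfl | rfl
    · exact Or.inl hyL
    · exact Or.inr hyL

theorem homotopy_inv {W W' : Type*} [MetricSpace W] [MetricSpace W'] {A : Set W}
    {A' : Set W'} {n : ℕ} (hn : 1 ≤ n) (hA : LC A) (H : ℝ → W → W')
    (hm : ∀ t ∈ Set.Icc (0 : ℝ) 1, Set.MapsTo (H t) A A')
    (hc : ContinuousOn (fun p : ℝ × W => H p.1 p.2) (Set.Icc (0 : ℝ) 1 ×ˢ A))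
    (f : Finset W' → ZMod 2) (hf : Zc A' n f)
    (L' : Set W') (_hLc : IsCompact L') (_hLA' : L' ⊆ A')
    (hL' : ∀ S : Finset W', f S ≠ 0 → (S : Set W') ⊆ L')
    (L : Set W) (hL : IsCompact L) (hLA : L ⊆ A)
    (hs : ∀ x ∈ A, ∀ t ∈ Set.Icc (0 : ℝ) 1, H t x ∈ L' → x ∈ L) :
    Bc A n (pull A (H 0) f + pull A (H 1) f) := by
  obtain ⟨ε, hε, hfε⟩ := hf.unif hn
  obtain ⟨K, hK, hKA, hKn⟩ := hA.exists_nhd hL hLA
  have huc := (isCompact_Icc.prod hK).uniformContinuousOn_of_continuous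
    (hc.mono (Set.prod_mono subset_rfl hKA))
  rw [Metric.uniformContinuousOn_iff] at huc
  obtain ⟨δ, hδ, huc⟩ := huc (ε / 4) (by positivity)
  have hcs : ∀ s ∈ Set.Icc (0 : ℝ) 1, ContinuousOn (H s) A := by
    intro s hs'
    have : ContinuousOn (fun x : W => ((s, x) : ℝ × W)) A := by fun_prop
    exact hc.comp this fun x hx => ⟨hs', hx⟩
  have step : ∀ s ∈ Set.Icc (0 : ℝ) 1, ∀ t ∈ Set.Icc (0 : ℝ) 1, |s - t| < δ →
      Bc A n (pull A (H s) f + pull A (H t) f) := by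
    intro s hs' t ht hst
    refine htpy_step hn hA (H s) (H t) (hm s hs') (hm t ht) (hcs s hs') f hf.1.1 hε hfε L' hL'
      L hL hLA ?_ K hKn ?_
    · rintro x hx (h | h)
      · exact hs x hx s hs' h
      · exact hs x hx t ht h
    · intro x hx
      refine huc (s, x) ⟨hs', hx⟩ (t, x) ⟨ht, hx⟩ ?_
      rw [Prod.dist_eq, dist_self, Real.dist_eq]
      simpa [hδ] using hst
  obtain ⟨N, hN⟩ := exists_nat_gt (1 / δ)
  have hN0 : (0 : ℝ) < N := lt_trans (by positivity) hN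
  have hmem : ∀ i : ℕ, i ≤ N → (i : ℝ) / N ∈ Set.Icc (0 : ℝ) 1 := by
    intro i hi
    refine ⟨by positivity, ?_⟩
    rw [div_le_one hN0]
    exact_mod_cast hi
  have main : ∀ i : ℕ, i ≤ N → Bc A n (pull A (H 0) f + pull A (H ((i : ℝ) / N)) f) := by
    intro i
    induction i with
    | zero =>
      intro _
      simp only [Nat.cast_zero, zero_div]
      rw [co_add_self]
      exact Bc.zero
    | succ i ih =>
      intro hi
      have h1 := ih (by omega)
      have h2 := step _ (hmem i (by omega)) _ (hmem (i + 1) hi) (by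
        rw [← sub_div]
        have : (i : ℝ) - ((i + 1 : ℕ) : ℝ) = -1 := by push_cast; ring
        rw [this, abs_div, abs_neg, abs_one, abs_of_pos hN0]
        rw [div_lt_iff₀ hN0]
        rw [div_lt_iff₀ hδ] at hN
        linarith)
      have h3 := h1.add h2
      have e : pull A (H 0) f + pull A (H ((i : ℝ) / N)) f
          + (pull A (H ((i : ℝ) / N)) f + pull A (H (((i + 1 : ℕ) : ℝ) / N)) f)
          = pull A (H 0) f + pull A (H (((i + 1 : ℕ) : ℝ) / N)) f := by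
        have : ∀ a b c : Finset W → ZMod 2, a + b + (b + c) = (b + b) + (a + c) := by
          intro a b c; abel
        rw [this, co_add_self, zero_add]
      rwa [e] at h3
  have := main N le_rfl
  rwa [div_self hN0.ne'] at this

end Pool.Agent.AVR
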