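import Pool.Agent.Lib.MP_89fc28_gt.Alg
import Pool.Agent.Lib.MP_89fc28_gt.Htpy
import Pool.Agent.Lib.MP_89fc28_gt.Trans

set_option autoImplicit false

namespace Pool.Agent.AVR

open Finset Topology

/-- a proper homotopy retract argument: if `id` is homotopic to `j ∘ g`, `g : A → A'` proper and
`j : A' → A` proper, then vanishing on `A'` gives vanishing on `A` -/
theorem van_of_homotopy {W W' : Type*} [MetricSpace W] [MetricSpace W'] {A : Set W}
    {A' : Set W'} {n : ℕ} (hn : 1 ≤ n) (hA : LC A) {g : W → W'} {j : W' → W}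
    (hg : PM A A' g) (hj : PM A' A j) (H : ℝ → W → W)
    (hm : ∀ t ∈ Set.Icc (0 : ℝ) 1, Set.MapsTo (H t) A A)
    (hc : ContinuousOn (fun p : ℝ × W => H p.1 p.2) (Set.Icc (0 : ℝ) 1 ×ˢ A))
    (hp : ∀ L' : Set W, IsCompact L' → L' ⊆ A → ∃ L : Set W, IsCompact L ∧ L ⊆ A ∧
      ∀ x ∈ A, ∀ t ∈ Set.Icc (0 : ℝ) 1, H t x ∈ L' → x ∈ L)
    (h0 : ∀ x ∈ A, H 0 x = x) (h1 : ∀ x ∈ A, H 1 x = j (g x)) (hv : Van A' n) : Van A n := by
  intro f hf
  obtain ⟨-, L', hLc, hLA', hL'⟩ := hf.1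
  obtain ⟨L, hL, hLA, hs⟩ := hp L' hLc hLA'
  have hh : Bc A n (pull A (H 0) f + pull A (H 1) f) :=
    homotopy_inv hn hA H hm hc f hf L' hLc hLA' hL' L hL hLA hs
  have e0 : pull A (H 0) f = f := by
    rw [pull_congr (g₂ := id) (fun x hx => h0 x hx), pull, gst_id, hf.1.res_self]
  have e1 : pull A (H 1) f = pull A g (pull A' j f) := by
    rw [pull_pull hg.1]
    exact pull_congr (fun x hx => h1 x hx)
  rw [e0, e1] at hh
  exact hh.of_add (hg.Bc (hv _ (hj.Zc hf)))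

end Pool.Agent.AVR
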