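import Pool.Agent.Lib.MP_89fc28_gt.Unif
import Pool.Agent.Lib.MP_89fc28_gt.Htpy
import Pool.Agent.Lib.MP_89fc28_gt.Trans
import Pool.Agent.Lib.MP_89fc28_gt.Retract
import Pool.Agent.Lib.MP_89fc28_gt.Exact

set_option autoImplicit false

namespace Pool.Agent.AVR

open Finset Topology

theorem HE_pm {X Y : Type*} [TopologicalSpace X] [TopologicalSpace Y] [CompactSpace X]
    {g : X → Y} (hg : Continuous g) : PM (Set.univ : Set X) (Set.univ : Set Y) g :=
  ⟨Set.mapsTo_univ _ _, hg.continuousOn, fun _ _ _ =>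
    ⟨Set.univ, isCompact_univ, Set.subset_univ _, fun _ _ _ => Set.mem_univ _⟩⟩

theorem he_van {X Y : Type*} [MetricSpace X] [MetricSpace Y] [CompactSpace X] [CompactSpace Y]
    {n : ℕ} (hn : 1 ≤ n) (h : ContinuousMap.HomotopyEquiv X Y)
    (hv : Van (Set.univ : Set Y) n) : Van (Set.univ : Set X) n := by
  obtain ⟨F⟩ := h.left_inv.symm
  refine van_of_homotopy hn (LC.of_compact isCompact_univ) (HE_pm h.toFun.continuous)
    (HE_pm h.invFun.continuous) (fun t x => F (Set.projIcc 0 1 zero_le_one t, x))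
    (fun t _ => Set.mapsTo_univ _ _) ?_ ?_ ?_ ?_ hv
  · refine Continuous.continuousOn ?_
    exact F.continuous.comp ((continuous_projIcc.comp continuous_fst).prodMk continuous_snd)
  · intro L' _ _
    exact ⟨Set.univ, isCompact_univ, Set.subset_univ _, fun _ _ _ _ _ => Set.mem_univ _⟩
  · intro x _
    have e : Set.projIcc (0 : ℝ) 1 zero_le_one 0 = 0 := Set.projIcc_left _
    show F (Set.projIcc 0 1 zero_le_one 0, x) = x
    rw [e, F.apply_zero]
    rfl
  · intro x _
    have e : Set.projIcc (0 : ℝ) 1 zero_le_one 1 = 1 := Set.projIcc_right _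
    show F (Set.projIcc 0 1 zero_le_one 1, x) = _
    rw [e, F.apply_one]
    rfl

theorem van_subtype {W : Type*} [MetricSpace W] {A : Set W} (hA : A.Nonempty) {n : ℕ} :
    Van (Set.univ : Set A) n ↔ Van A n := by
  classical
  obtain ⟨a, ha⟩ := hA
  have hH : HM (Set.univ : Set A) A Subtype.val
      (fun x => if h : x ∈ A then (⟨x, h⟩ : A) else ⟨a, ha⟩) := by
    refine ⟨fun x _ => x.2, Set.mapsTo_univ _ _, continuous_subtype_val.continuousOn, ?_, ?_, ?_⟩
    · rw [continuousOn_iff_continuous_domRestrict]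
      refine continuous_id.congr fun x => ?_
      show x = (if h : (x : W) ∈ A then (⟨x, h⟩ : A) else ⟨a, ha⟩)
      rw [dif_pos x.2]
    · intro x _
      simp only [Subtype.coe_prop, dite_true, Subtype.coe_eta]
    · intro x hx
      simp only [hx, dite_true]
  exact ⟨fun hv => hH.symm.Van hv, fun hv => hH.Van hv⟩

/-- finite closed filtrations -/
theorem van_filtration {W : Type*} [MetricSpace W] (X : ℕ → Set W) (hX : ∀ s, IsCompact (X s))
    (hmono : ∀ s, X s ⊆ X (s + 1)) (h0 : X 0 = ∅) {n : ℕ} (hn : 1 ≤ n) (K : ℕ)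
    (hv : ∀ s < K, Van (X (s + 1) \ X s) n) : Van (X K) n := by
  induction K with
  | zero =>
    rw [h0]
    exact fun f _ => Bc.of_Lz fun x hx => absurd hx (Set.notMem_empty x)
  | succ s ih =>
    refine van_of_closed (C := X s) (LC.of_compact (hX (s + 1))) (hX s).isClosed hn ?_ ?_
    · rw [Set.inter_eq_self_of_subset_right (hmono s)]
      exact ih fun k hk => hv k (by omega)
    · rw [← Set.sdiff_eq]
      exact hv s (by omega)

end Pool.Agent.AVR
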