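import Pool.Agent.Lib.MP_89fc28_gt.Alg
import Pool.Agent.Lib.MP_89fc28_gt.Unif
import Pool.Agent.Lib.MP_89fc28_gt.Cut
import Pool.Agent.Lib.MP_89fc28_gt.Htpy
import Pool.Agent.Lib.MP_89fc28_gt.Trans
import Pool.Agent.Lib.MP_89fc28_gt.Exact

set_option autoImplicit false

namespace Pool.Agent.AVR

open Finset Topology

section Half

open Classical in
theorem Half.gst_ne {W W' : Type*} (g : W → W') (f : Finset W' → ZMod 2) (S : Finset W)
    (h : gst g f S ≠ 0) :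
    ∃ T : Finset W', f T ≠ 0 ∧ (T : Set W') = g '' (S : Set W) ∧ T.card = S.card := by
  have hi : Set.InjOn g (S : Set W) := by
    by_contra hi
    exact h (gst_of_not_inj _ _ _ hi)
  rw [gst_of_inj _ _ _ hi] at h
  exact ⟨S.image g, h, by rw [Finset.coe_image], Finset.card_image_of_injOn hi⟩

variable {W : Type*} [MetricSpace W] {A : Set W}

theorem Half.lc (hA : LC A) : LC (A ×ˢ Set.Ici (0 : ℝ)) := by
  have h1 : LC (Set.Ici (0 : ℝ)) := by
    have := (LC.of_univ (W := ℝ)).inter_closed (isClosed_Ici (a := (0 : ℝ)))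
    rwa [Set.univ_inter] at this
  exact hA.prod h1

/-- the closed half line kills everything -/
theorem van_half {W : Type*} [MetricSpace W] {A : Set W} (hA : LC A) {n : ℕ} (hn : 1 ≤ n) :
    Van (A ×ˢ Set.Ici (0 : ℝ)) n := by
  intro f hf
  obtain ⟨h0, L', hLc, hLA', hL'⟩ := id hf.1
  obtain ⟨M, hM0, hM⟩ : ∃ M : ℝ, 0 < M ∧ ∀ p ∈ L', p.2 < M := by
    have hb : BddAbove (Prod.snd '' L') := (hLc.image continuous_snd).bddAbove
    obtain ⟨M, hM⟩ := hb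
    refine ⟨max M 0 + 1, by positivity, fun p hp => ?_⟩
    have h1 : p.2 ≤ M := hM ⟨p, hp, rfl⟩
    have h2 := le_max_left M 0
    linarith
  set H : ℝ → W × ℝ → W × ℝ := fun t p => (p.1, p.2 + t * M) with hH
  have hm : ∀ t ∈ Set.Icc (0 : ℝ) 1,
      Set.MapsTo (H t) (A ×ˢ Set.Ici (0 : ℝ)) (A ×ˢ Set.Ici (0 : ℝ)) := by
    intro t ht p hp
    have h1 : (0 : ℝ) ≤ p.2 := hp.2
    have h2 : 0 ≤ t * M := mul_nonneg ht.1 hM0.le
    exact ⟨hp.1, show (0 : ℝ) ≤ p.2 + t * M by linarith⟩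
  have hc : ContinuousOn (fun p : ℝ × (W × ℝ) => H p.1 p.2)
      (Set.Icc (0 : ℝ) 1 ×ˢ (A ×ˢ Set.Ici (0 : ℝ))) := by
    have : Continuous (fun p : ℝ × (W × ℝ) => H p.1 p.2) := by
      simp only [hH]
      fun_prop
    exact this.continuousOn
  have hLsub : (Prod.fst '' L') ×ˢ Set.Icc (0 : ℝ) M ⊆ A ×ˢ Set.Ici (0 : ℝ) := by
    rintro ⟨a, s⟩ ⟨⟨p, hp, hpa⟩, hs⟩
    simp only at hpa hs
    subst hpa
    exact ⟨(hLA' hp).1, hs.1⟩
  have key := homotopy_inv hn (Half.lc hA) H hm hc f hf L' hLc hLA' hL'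
    ((Prod.fst '' L') ×ˢ Set.Icc (0 : ℝ) M) ((hLc.image continuous_fst).prod isCompact_Icc)
    hLsub (by
      intro x hx t ht hxL
      have h1 := hM _ hxL
      have h2 : (0 : ℝ) ≤ x.2 := hx.2
      have h3 : 0 ≤ t * M := mul_nonneg ht.1 hM0.le
      simp only [hH] at h1
      refine ⟨⟨_, hxL, rfl⟩, h2, by linarith⟩)
  have e0 : pull (A ×ˢ Set.Ici (0 : ℝ)) (H 0) f = f := by
    have h1 : pull (A ×ˢ Set.Ici (0 : ℝ)) (H 0) f = pull (A ×ˢ Set.Ici (0 : ℝ)) id f :=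
      pull_congr (fun x _ => by simp [hH])
    rw [h1, pull, gst_id]
    exact hf.1.res_self
  rw [e0] at key
  refine key.of_add (Bc.of_Lz (Lz.of_eq fun S hS hSA => ?_))
  rw [pull, res_of_subset _ hSA]
  by_contra hne
  obtain ⟨T, hT, hTe, _⟩ := Half.gst_ne _ _ _ hne
  have h1 := hL' _ hT
  obtain ⟨x, hx⟩ : S.Nonempty := by
    rw [← Finset.card_pos]
    omega
  have h2 : H 1 x ∈ L' := h1 (by
    rw [hTe]
    exact ⟨x, hx, rfl⟩)
  have h3 := hM _ h2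
  have h4 : (0 : ℝ) ≤ x.2 := (hSA hx).2
  simp only [hH] at h3
  linarith

theorem hm_slice {W : Type*} [MetricSpace W] (A : Set W) :
    HM (A ×ˢ ({0} : Set ℝ)) A (fun p : W × ℝ => p.1) (fun x => (x, (0 : ℝ))) := by
  refine ⟨fun p hp => hp.1, fun x hx => ⟨hx, rfl⟩, continuous_fst.continuousOn,
    (by fun_prop : Continuous fun x : W => (x, (0 : ℝ))).continuousOn, ?_, fun _ _ => rfl⟩
  rintro ⟨a, s⟩ ⟨_, hs⟩
  have hs' : s = 0 := hs
  simp [hs']

/-- the boundary slice -/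
def Half.C (W : Type*) : Set (W × ℝ) := {p | p.2 = 0}

theorem Half.closed : IsClosed (Half.C W) := isClosed_eq continuous_snd continuous_const

omit [MetricSpace W] in
theorem Half.inter_C : (A ×ˢ Set.Ici (0 : ℝ)) ∩ Half.C W = A ×ˢ ({0} : Set ℝ) := by
  ext ⟨a, s⟩
  simp only [Half.C, Set.mem_inter_iff, Set.mem_prod, Set.mem_Ici, Set.mem_ofPred_eq,
    Set.mem_singleton_iff]
  constructor
  · rintro ⟨⟨h1, _⟩, h3⟩
    exact ⟨h1, h3⟩
  · rintro ⟨h1, h3⟩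
    exact ⟨⟨h1, h3.ge⟩, h3⟩

omit [MetricSpace W] in
theorem Half.inter_Cc : (A ×ˢ Set.Ici (0 : ℝ)) ∩ (Half.C W)ᶜ = A ×ˢ Set.Ioi (0 : ℝ) := by
  ext ⟨a, s⟩
  simp only [Half.C, Set.mem_inter_iff, Set.mem_prod, Set.mem_Ici, Set.mem_compl_iff,
    Set.mem_ofPred_eq, Set.mem_Ioi]
  constructor
  · rintro ⟨⟨h1, h2⟩, h3⟩
    exact ⟨h1, lt_of_le_of_ne h2 (Ne.symm h3)⟩
  · rintro ⟨h1, h3⟩
    exact ⟨⟨h1, h3.le⟩, h3.ne'⟩

theorem van_susp {W : Type*} [MetricSpace W] {A : Set W} (hA : LC A) {n : ℕ} (hn : 1 ≤ n)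
    (hv : Van A n) : Van (A ×ˢ Set.Ioi (0 : ℝ)) (n + 1) := by
  intro f hf
  rw [← Half.inter_Cc] at hf ⊢
  have h1 : Zc (A ×ˢ Set.Ici (0 : ℝ)) (n + 1) f := hf.mono Half.closed.isOpen_compl
  have h2 := van_half hA (by omega : 1 ≤ n + 1) f h1
  refine bc_open_of_van (Half.lc hA) Half.closed hn hf.1 ?_ h2
  rw [Half.inter_C]
  exact (hm_slice A).Van hv

theorem dim1_susp {W : Type*} [MetricSpace W] {A : Set W} (hA : LC A) {n : ℕ} (hn : 1 ≤ n)
    (hv : Dim1 A n) : Dim1 (A ×ˢ Set.Ioi (0 : ℝ)) (n + 1) := by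
  intro f g hf hg
  rw [← Half.inter_Cc] at hf hg ⊢
  obtain ⟨e, he, h1⟩ := van_half hA (by omega : 1 ≤ n + 1) f (hf.mono Half.closed.isOpen_compl)
  obtain ⟨e', he', h1'⟩ := van_half hA (by omega : 1 ≤ n + 1) g
    (hg.mono Half.closed.isOpen_compl)
  have z := zc_closed_of Half.closed hf.1 he h1
  have z' := zc_closed_of Half.closed hg.1 he' h1'
  have hD : Dim1 ((A ×ˢ Set.Ici (0 : ℝ)) ∩ Half.C W) n := by
    rw [Half.inter_C]
    exact (hm_slice A).Dim1 hv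
  have hloc : ∀ u : Finset (W × ℝ) → ZMod 2,
      Bc ((A ×ˢ Set.Ici (0 : ℝ)) ∩ Half.C W) n (u + res (Half.C W) u) := by
    intro u
    refine Bc.of_Lz (Lz.of_eq fun S _ hSA => ?_)
    rw [Pi.add_apply, res_of_subset _ (hSA.trans Set.inter_subset_right)]
    exact z2_add_self _
  rcases hD _ _ z z' with h | h | h
  · exact Or.inl (bc_open (Half.lc hA) Half.closed hn hf.1 he h1 ((hloc e).of_add h))
  · exact Or.inr (Or.inl (bc_open (Half.lc hA) Half.closed hn hg.1 he' h1' ((hloc e').of_add h)))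
  · refine Or.inr (Or.inr (bc_open (Half.lc hA) Half.closed hn (hf.1.add hg.1) (he.add he') ?_ ?_))
    · have h2 := h1.add h1'
      have e2 : f + dd e + (g + dd e') = f + g + dd (e + e') := by
        rw [dd_add]
        abel
      rwa [e2] at h2
    · rw [← res_add] at h
      exact (hloc (e + e')).of_add h

/-- the projection to the slice -/
def Half.p (W : Type*) (x : W × ℝ) : W × ℝ := (x.1, 0)

theorem Half.cont : Continuous (Half.p W) := by
  unfold Half.p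
  fun_prop

theorem nonzero_susp {W : Type*} [MetricSpace W] {A : Set W} (hA : LC A) {n : ℕ} (hn : 1 ≤ n)
    (hv : ∃ f, Zc A n f ∧ ¬ Bc A n f) :
    ∃ f, Zc (A ×ˢ Set.Ioi (0 : ℝ)) (n + 1) f ∧ ¬ Bc (A ×ˢ Set.Ioi (0 : ℝ)) (n + 1) f := by
  obtain ⟨g, hg, hgb⟩ := (hm_slice A).nonzero hv
  obtain ⟨g0, Lg, hLg, hLgA, hLgs⟩ := id hg.1
  set L1 : Set (W × ℝ) := (Prod.fst '' Lg) ×ˢ Set.Icc (0 : ℝ) 1 with hL1
  have hL1c : IsCompact L1 := (hLg.image continuous_fst).prod isCompact_Icc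
  have hL1A : L1 ⊆ A ×ˢ Set.Ici (0 : ℝ) := by
    rintro ⟨a, s⟩ ⟨⟨p, hp, hpa⟩, hs⟩
    simp only at hpa hs
    subst hpa
    exact ⟨(hLgA hp).1, hs.1⟩
  set e : Finset (W × ℝ) → ZMod 2 := res L1 (gst (Half.p W) g) with he
  have heCS : CS (A ×ˢ Set.Ici (0 : ℝ)) e :=
    CS.res_compact hL1c hL1A (by rw [gst_empty, g0])
  -- values of `e` on sets close to the slice
  have hval : ∀ T : Finset (W × ℝ), (T : Set (W × ℝ)) ⊆ A ×ˢ Set.Ici (0 : ℝ) →
      (∀ x ∈ T, x.2 ≤ 1) → e T = gst (Half.p W) g T := by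
    intro T hTA hT1
    by_cases hT : (T : Set (W × ℝ)) ⊆ L1
    · exact res_of_subset _ hT
    · rw [he, res_of_not_subset _ hT]
      symm
      by_contra hne
      obtain ⟨T', hT', hTe, _⟩ := Half.gst_ne _ _ _ hne
      have h1 := hLgs _ hT'
      refine hT fun x hx => ?_
      have h2 : Half.p W x ∈ Lg := h1 (by
        rw [hTe]
        exact ⟨x, hx, rfl⟩)
      exact ⟨⟨_, h2, rfl⟩, (hTA hx).2, hT1 x hx⟩
  have hz : ∀ x ∈ A ×ˢ Set.Ici (0 : ℝ), x ∉ {p : W × ℝ | 0 < p.2} →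
      LzAt (A ×ˢ Set.Ici (0 : ℝ)) (n + 1) (dd e) x := by
    intro x hx hx0
    have hx2 : x.2 ≤ 0 := not_lt.1 hx0
    obtain ⟨V, hV, h'⟩ := hg.2 (Half.p W x) ⟨hx.1, rfl⟩
    refine ⟨Half.p W ⁻¹' V ∩ {p : W × ℝ | p.2 < 1}, Filter.inter_mem
      (Half.cont.continuousAt.preimage_mem_nhds hV)
      ((isOpen_lt continuous_snd continuous_const).mem_nhds
        (show x.2 < 1 by linarith)), fun S hS hSU hSA => ?_⟩
    have h1 : dd e S = dd (gst (Half.p W) g) S := dd_congr fun T hT _ => by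
      have hT' : (T : Set (W × ℝ)) ⊆ S := by exact_mod_cast hT
      exact hval T (hT'.trans hSA) fun y hy => (hSU (hT' hy)).2.le
    rw [h1, dd_gst]
    by_contra hne
    obtain ⟨T, hT, hTe, hTc⟩ := Half.gst_ne _ _ _ hne
    refine hT (h' T ?_ ?_ ?_)
    · rw [hTc, hS]
    · rw [hTe]
      rintro _ ⟨y, hy, rfl⟩
      exact (hSU hy).1
    · rw [hTe]
      rintro _ ⟨y, hy, rfl⟩
      exact ⟨(hSA hy).1, rfl⟩
  have hUo : IsOpen {p : W × ℝ | 0 < p.2} := isOpen_lt continuous_const continuous_snd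
  have hAU : (A ×ˢ Set.Ici (0 : ℝ)) ∩ {p : W × ℝ | 0 < p.2} = A ×ˢ Set.Ioi (0 : ℝ) := by
    ext ⟨a, s⟩
    simp only [Set.mem_inter_iff, Set.mem_prod, Set.mem_Ici, Set.mem_ofPred_eq, Set.mem_Ioi]
    constructor
    · rintro ⟨⟨h1, _⟩, h3⟩
      exact ⟨h1, h3⟩
    · rintro ⟨h1, h3⟩
      exact ⟨⟨h1, h3.le⟩, h3⟩
  obtain ⟨w, hw, hwe⟩ := cut_dd (Half.lc hA) hUo heCS (n + 1) hz
  have hw' := hw
  rw [hAU] at hw'
  have hsub : A ×ˢ Set.Ioi (0 : ℝ) ⊆ A ×ˢ Set.Ici (0 : ℝ) :=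
    Set.prod_mono_right Set.Ioi_subset_Ici_self
  refine ⟨w, ⟨hw', ?_⟩, ?_⟩
  · have h1 := hwe.dd
    rw [dd_add, dd_dd, add_zero] at h1
    exact h1.mono hsub
  · rintro ⟨e', he', h2⟩
    have h3 : Lz (A ×ˢ Set.Ici (0 : ℝ)) (n + 1) (w + dd e') := by
      intro x hx
      by_cases hxU : x ∈ {p : W × ℝ | 0 < p.2}
      · have hxA : x ∈ A ×ˢ Set.Ioi (0 : ℝ) := ⟨hx.1, hxU⟩
        obtain ⟨V, hV, h'⟩ := h2 x hxA
        refine ⟨V ∩ {p : W × ℝ | 0 < p.2}, Filter.inter_mem hV (hUo.mem_nhds hxU),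
          fun S hS hSU hSA => ?_⟩
        refine h' S hS (hSU.trans Set.inter_subset_left) ?_
        rw [← hAU]
        exact Set.subset_inter hSA (hSU.trans Set.inter_subset_right)
      · obtain ⟨h0, L, hL, hLA, hs⟩ := hw'
        obtain ⟨h0', L', hL', hLA', hs'⟩ := he'
        exact (LzAt.of_notin hL.isClosed h0 hs (fun h => hxU (hLA h).2)).add
          (LzAt.dd_of_notin hL'.isClosed h0' hs' (fun h => hxU (hLA' h).2))
    have h4 : Zc (A ×ˢ Set.Ici (0 : ℝ)) n (e + e') := by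
      refine ⟨heCS.add (he'.mono hsub), ?_⟩
      have h5 := hwe.add h3
      have e5 : w + dd e + (w + dd e') = dd (e + e') := by
        have : w + dd e + (w + dd e') = (w + w) + (dd e + dd e') := by abel
        rw [this, co_add_self, zero_add, dd_add]
      rwa [e5] at h5
    have h5 := (van_half hA hn _ h4).res_closed (Half.closed (W := W))
    rw [Half.inter_C] at h5
    apply hgb
    have h6 : Lz (A ×ˢ ({0} : Set ℝ)) n (g + res (Half.C W) (e + e')) := by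
      refine Lz.of_eq fun S hS hSA => ?_
      have hSC : (S : Set (W × ℝ)) ⊆ Half.C W := fun x hx => (hSA hx).2
      have hSA' : (S : Set (W × ℝ)) ⊆ A ×ˢ Set.Ici (0 : ℝ) := fun x hx =>
        ⟨(hSA hx).1, (show x.2 = 0 from (hSA hx).2).ge⟩
      obtain ⟨x, hx⟩ : S.Nonempty := by
        rw [← Finset.card_pos]
        omega
      have h7 : e' S = 0 := by
        by_contra hne
        obtain ⟨_, L', _, hLA', hs'⟩ := he'
        have h8 := (hLA' (hs' S hne hx)).2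
        have h9 : x.2 = 0 := (hSA hx).2
        have h10 : (0 : ℝ) < x.2 := h8
        linarith
      have h8 : e S = g S := by
        rw [hval S hSA' (fun y hy => by
          have : y.2 = 0 := (hSA hy).2
          linarith)]
        rw [gst_congr (h := id) g S (fun y hy => by
          have h9 : y.2 = 0 := (hSA hy).2
          exact Prod.ext rfl h9.symm), gst_id]
      rw [Pi.add_apply, res_of_subset _ hSC, Pi.add_apply, h7, h8, add_zero]
      exact z2_add_self _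
    exact (Bc.of_Lz h6).of_add h5

end Half

end Pool.Agent.AVR
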