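import Pool.Agent.Lib.MP_89fc28_gt.Defs
import Pool.Agent.Lib.MP_89fc28_gt.Alg
import Pool.Agent.Lib.MP_89fc28_gt.Unif
import Pool.Agent.Lib.MP_89fc28_gt.Trans
import Pool.Agent.Lib.MP_89fc28_gt.MV
import Pool.Agent.Lib.MP_89fc28_gt.BoxL
import Pool.Agent.Lib.MP_89fc28_gt.Uniq
import Pool.Agent.Lib.MP_89fc28_gt.Span

/-!
# Parity of the number of box classes in a relation
-/

set_option autoImplicit false

namespace Pool.Agent.AVR

open Finset Topology

section

variable {W : Type*} [MetricSpace W] {D : ℕ} {A : Set W}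

theorem Parity_box_sub {O : Set W} (h : Box D A O) : O ⊆ A := by
  obtain ⟨⟨U, _, rfl⟩, _⟩ := h
  exact Set.inter_subset_left

theorem Parity_box_down {B O : Set W} (hBA : B ⊆ A) (hO : O ⊆ B) (h : Box D A O) :
    Box D B O := by
  obtain ⟨⟨U, hU, he⟩, hφ⟩ := h
  refine ⟨⟨U, hU, ?_⟩, hφ⟩
  apply Set.Subset.antisymm
  · refine Set.subset_inter hO ?_
    rw [he]
    exact Set.inter_subset_right
  · rw [he]
    exact Set.inter_subset_inter_left U hBA

theorem Parity_zc {b : Finset W → ZMod 2} (h : BCl D A b) : Zc A (D + 1) b := by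
  obtain ⟨O, ⟨⟨U, hU, rfl⟩, _⟩, hz, _⟩ := h
  exact hz.mono hU

theorem Parity_zc_sum (l : List (Finset W → ZMod 2)) (hl : ∀ b ∈ l, BCl D A b) :
    Zc A (D + 1) l.sum := by
  induction l with
  | nil => exact Zc.zero
  | cons b l ih =>
    rw [List.sum_cons]
    exact (Parity_zc (hl b List.mem_cons_self)).add
      (ih fun c hc => hl c (List.mem_cons_of_mem b hc))

/-- the case of one box -/
theorem Parity_one {O : Set W} (h : Box D A O) (l : List (Finset W → ZMod 2))
    (hl : ∀ b ∈ l, BCl D O b) (hb : Bc O (D + 1) l.sum) : Even l.length := by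
  have hO : Box D O O := Parity_box_down (Parity_box_sub h) subset_rfl h
  obtain ⟨b₀, hz₀, hb₀⟩ := h.exists_class
  have key : ∀ l : List (Finset W → ZMod 2), (∀ b ∈ l, BCl D O b) →
      (Even l.length ∧ Bc O (D + 1) l.sum) ∨ (Odd l.length ∧ Bc O (D + 1) (l.sum + b₀)) := by
    intro l
    induction l with
    | nil => exact fun _ => Or.inl ⟨by simp, Bc.zero⟩
    | cons b l ih =>
      intro hl
      obtain ⟨O', hO', hz, hn⟩ := hl b List.mem_cons_self
      have n1 : ¬ Bc O (D + 1) b := hO.nonzero_of_subset hO' (Parity_box_sub hO') hz hn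
      have z1 : Zc O (D + 1) b := Parity_zc ⟨O', hO', hz, hn⟩
      have h1 : Bc O (D + 1) (b + b₀) := by
        rcases h.Dim1 b b₀ z1 hz₀ with h1 | h1 | h1
        · exact absurd h1 n1
        · exact absurd h1 hb₀
        · exact h1
      rw [List.sum_cons, List.length_cons]
      rcases ih fun c hc => hl c (List.mem_cons_of_mem b hc) with ⟨he, hs⟩ | ⟨ho, hs⟩
      · refine Or.inr ⟨he.add_one, ?_⟩
        have := h1.add hs
        rwa [add_right_comm] at this
      · refine Or.inl ⟨ho.add_one, ?_⟩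
        have := h1.add hs
        have e : b + b₀ + (l.sum + b₀) = b + l.sum + (b₀ + b₀) := by abel
        rwa [e, co_add_self, add_zero] at this
  rcases key l hl with ⟨he, _⟩ | ⟨_, hs⟩
  · exact he
  · have := hb.add hs
    rw [← add_assoc, co_add_self, zero_add] at this
    exact absurd this hb₀

theorem Parity_move {B V O : Set W} {b : Finset W → ZMod 2} (hB : Mfd D B) (hV : IsOpen V)
    (hO : Box D B O) (hz : Zc O (D + 1) b) (hn : ¬ Bc O (D + 1) b) {x : W} (hx : x ∈ O)
    (hxV : x ∈ V) : ∃ f, BCl D (B ∩ V) f ∧ Bc B (D + 1) (b + f) := by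
  obtain ⟨O', f, hO', hx', hs, hz', hn'⟩ :=
    BClp.exists_small hB (Parity_box_sub hO hx) (hV.mem_nhds hxV)
  refine ⟨f, ⟨O', Parity_box_down Set.inter_subset_left
    (Set.subset_inter (Parity_box_sub hO') hs) hO', hz', hn'⟩, ?_⟩
  exact BClp.unique ⟨O, hO, hx, hz, hn⟩ ⟨O', hO', hx', hz', hn'⟩

theorem Parity_split {B V U : Set W} (hB : Mfd D B) (hV : IsOpen V) (hU : IsOpen U)
    (hc : B ⊆ V ∪ U) (l : List (Finset W → ZMod 2)) (hl : ∀ b ∈ l, BCl D B b) :
    ∃ l' l'' : List (Finset W → ZMod 2), (∀ b ∈ l', BCl D (B ∩ V) b) ∧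
      (∀ b ∈ l'', BCl D (B ∩ U) b) ∧ Bc B (D + 1) (l.sum + (l'.sum + l''.sum)) ∧
      l.length = l'.length + l''.length := by
  induction l with
  | nil =>
    refine ⟨[], [], by simp, by simp, ?_, by simp⟩
    simp only [List.sum_nil, add_zero]
    exact Bc.zero
  | cons b l ih =>
    obtain ⟨l', l'', h1, h2, h3, h4⟩ := ih fun c hc => hl c (List.mem_cons_of_mem b hc)
    obtain ⟨O, hO, hz, hn⟩ := hl b List.mem_cons_self
    obtain ⟨φ, ψ, hφ⟩ := hO.2
    have hx : φ 0 ∈ O := hφ.1 (Set.mem_univ _)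
    rcases hc (Parity_box_sub hO hx) with hxV | hxU
    · obtain ⟨f, hf, hbf⟩ := Parity_move hB hV hO hz hn hx hxV
      refine ⟨f :: l', l'', ?_, h2, ?_, by simp only [List.length_cons]; omega⟩
      · intro c hc'
        rcases List.mem_cons.1 hc' with rfl | hc'
        · exact hf
        · exact h1 c hc'
      · have := hbf.add h3
        rw [List.sum_cons, List.sum_cons]
        have e : b + f + (l.sum + (l'.sum + l''.sum)) = b + l.sum + (f + l'.sum + l''.sum) := by
          abel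
        rwa [e] at this
    · obtain ⟨f, hf, hbf⟩ := Parity_move hB hU hO hz hn hx hxU
      refine ⟨l', f :: l'', h1, ?_, ?_, by simp only [List.length_cons]; omega⟩
      · intro c hc'
        rcases List.mem_cons.1 hc' with rfl | hc'
        · exact hf
        · exact h2 c hc'
      · have := hbf.add h3
        rw [List.sum_cons, List.sum_cons]
        have e : b + f + (l.sum + (l'.sum + l''.sum)) = b + l.sum + (l'.sum + (f + l''.sum)) := by
          abel
        rwa [e] at this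

theorem Parity_bcl_up {V : Set W} (hV : IsOpen V) {b : Finset W → ZMod 2}
    (h : BCl D (A ∩ V) b) : BCl D A b := by
  obtain ⟨O, ⟨⟨U, hU, he⟩, hφ⟩, hz, hn⟩ := h
  exact ⟨O, ⟨⟨V ∩ U, hV.inter hU, by rw [he, Set.inter_assoc]⟩, hφ⟩, hz, hn⟩

/-- finite unions of boxes -/
theorem Parity_fin (hA : Mfd D A) (Us : List (Set W)) :
    (∀ U ∈ Us, IsOpen U ∧ Box D A (A ∩ U)) → ∀ l : List (Finset W → ZMod 2),
    (∀ b ∈ l, BCl D (A ∩ {x | ∃ U ∈ Us, x ∈ U}) b) →
    Bc (A ∩ {x | ∃ U ∈ Us, x ∈ U}) (D + 1) l.sum → Even l.length := by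
  induction Us with
  | nil =>
    intro _ l hl _
    cases l with
    | nil => simp
    | cons b l =>
      exfalso
      obtain ⟨O, hO, -, -⟩ := hl b List.mem_cons_self
      obtain ⟨φ, ψ, hφ⟩ := hO.2
      have hx : φ 0 ∈ O := hφ.1 (Set.mem_univ _)
      obtain ⟨-, U, hU, -⟩ := Parity_box_sub hO hx
      simp at hU
  | cons U Us ih =>
    intro hUs l hl hb
    obtain ⟨hU, hUb⟩ := hUs U List.mem_cons_self
    have hUs' : ∀ U ∈ Us, IsOpen U ∧ Box D A (A ∩ U) :=
      fun V hV => hUs V (List.mem_cons_of_mem U hV)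
    obtain ⟨V, hVd⟩ : ∃ V : Set W, V = {x | ∃ U ∈ Us, x ∈ U} := ⟨_, rfl⟩
    have hV : IsOpen V := by
      have : V = ⋃ U ∈ Us, U := by
        rw [hVd]
        ext x
        simp
      rw [this]
      exact isOpen_biUnion fun V hV => (hUs' V hV).1
    have hset : {x | ∃ U' ∈ U :: Us, x ∈ U'} = V ∪ U := by
      rw [hVd]
      ext x
      simp only [List.mem_cons, exists_eq_or_imp, Set.mem_ofPred_eq, Set.mem_union]
      exact or_comm
    rw [hset] at hb
    rw [hset] at hl
    have ih' := ih hUs'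
    rw [← hVd] at ih'
    obtain ⟨B, hBd⟩ : ∃ B : Set W, B = A ∩ (V ∪ U) := ⟨_, rfl⟩
    rw [← hBd] at hl hb
    have hB : Mfd D B := by
      rw [hBd]
      exact hA.inter_open (hV.union hU)
    have hBc : B ⊆ V ∪ U := by
      rw [hBd]
      exact Set.inter_subset_right
    have e1 : B ∩ V = A ∩ V := by
      rw [hBd]
      ext x
      simp only [Set.mem_inter_iff, Set.mem_union]
      tauto
    have e2 : B ∩ U = A ∩ U := by
      rw [hBd]
      ext x
      simp only [Set.mem_inter_iff, Set.mem_union]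
      tauto
    obtain ⟨l', l'', h1, h2, h3, h4⟩ := Parity_split hB hV hU hBc l hl
    have h5 : Bc B (D + 1) (l'.sum + l''.sum) := by
      have := hb.add h3
      rwa [← add_assoc, co_add_self, zero_add] at this
    obtain ⟨w, hw, hw1, hw2⟩ := mv_glue hB.1 hV hU hBc (Nat.le_add_left 1 D)
      (Parity_zc_sum l' h1) (Parity_zc_sum l'' h2) h5
    obtain ⟨l₃, h6, h7⟩ := (hB.inter_open (hV.inter hU)).span hw
    have e3 : B ∩ (V ∩ U) = (B ∩ V) ∩ U := by rw [Set.inter_assoc]
    have e4 : B ∩ (V ∩ U) = (B ∩ U) ∩ V := by rw [Set.inter_assoc, Set.inter_comm U V]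
    have z3 : Zc (B ∩ (V ∩ U)) (D + 1) (w + l₃.sum) := hw.add (Parity_zc_sum l₃ h6)
    have a1 : Bc (B ∩ V) (D + 1) (w + l₃.sum) := by
      rw [e3] at h7 z3
      exact h7.mono hU z3.1
    have a2 : Bc (B ∩ U) (D + 1) (w + l₃.sum) := by
      rw [e4] at h7 z3
      exact h7.mono hV z3.1
    have b1 : Even (l' ++ l₃).length := by
      apply ih'
      · intro b hb'
        rw [← e1]
        rcases List.mem_append.1 hb' with hb' | hb'
        · exact h1 b hb'
        · have := h6 b hb'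
          rw [e3] at this
          exact Parity_bcl_up hU this
      · rw [← e1, List.sum_append]
        have := hw1.add a1
        have e : l'.sum + w + (w + l₃.sum) = l'.sum + l₃.sum + (w + w) := by abel
        rwa [e, co_add_self, add_zero] at this
    have b2 : Even (l'' ++ l₃).length := by
      apply Parity_one hUb
      · intro b hb'
        rw [← e2]
        rcases List.mem_append.1 hb' with hb' | hb'
        · exact h2 b hb'
        · have := h6 b hb'
          rw [e4] at this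
          exact Parity_bcl_up hV this
      · rw [← e2, List.sum_append]
        have := hw2.add a2
        have e : l''.sum + w + (w + l₃.sum) = l''.sum + l₃.sum + (w + w) := by abel
        rwa [e, co_add_self, add_zero] at this
    rw [List.length_append, Nat.even_iff] at b1 b2
    rw [Nat.even_iff]
    omega

theorem Mfd.parity (h : Mfd D A) (l : List (Finset W → ZMod 2)) (hl : ∀ b ∈ l, BCl D A b)
    (hb : Bc A (D + 1) l.sum) : Even l.length := by
  obtain ⟨e, ⟨h0, L, hL, hLA, hs⟩, hz⟩ := hb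
  -- open sets that cover the compact support of `e`
  have hx : ∀ x ∈ L, ∃ U : Set W, IsOpen U ∧ Box D A (A ∩ U) ∧ x ∈ U := by
    intro x hx
    obtain ⟨O, ⟨⟨U, hU, rfl⟩, hφ⟩, hxO⟩ := h.2 x (hLA hx)
    exact ⟨U, hU, ⟨⟨U, hU, rfl⟩, hφ⟩, hxO.2⟩
  choose! Ux hUo hUb hUx using hx
  obtain ⟨t, htL, ht⟩ := hL.elim_nhds_subcover Ux
    (fun x hx => (hUo x hx).mem_nhds (hUx x hx))
  -- open sets that contain the boxes of the classes in `l`
  have hl' : ∀ l : List (Finset W → ZMod 2), (∀ b ∈ l, BCl D A b) → ∃ Us : List (Set W),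
      (∀ U ∈ Us, IsOpen U ∧ Box D A (A ∩ U)) ∧ ∀ b ∈ l, ∃ U ∈ Us,
        Zc (A ∩ U) (D + 1) b ∧ ¬ Bc (A ∩ U) (D + 1) b := by
    intro l
    induction l with
    | nil => exact fun _ => ⟨[], by simp, by simp⟩
    | cons b l ih =>
      intro hl
      obtain ⟨Us, h1, h2⟩ := ih fun c hc => hl c (List.mem_cons_of_mem b hc)
      obtain ⟨O, ⟨⟨U, hU, rfl⟩, hφ⟩, hz, hn⟩ := hl b List.mem_cons_self
      refine ⟨U :: Us, ?_, ?_⟩
      · intro V hV
        rcases List.mem_cons.1 hV with rfl | hV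
        · exact ⟨hU, ⟨⟨V, hU, rfl⟩, hφ⟩⟩
        · exact h1 V hV
      · intro c hc
        rcases List.mem_cons.1 hc with rfl | hc
        · exact ⟨U, List.mem_cons_self, hz, hn⟩
        · obtain ⟨V, hV, h3⟩ := h2 c hc
          exact ⟨V, List.mem_cons_of_mem U hV, h3⟩
  obtain ⟨Us, h1, h2⟩ := hl' l hl
  obtain ⟨Vs, hVs⟩ : ∃ Vs : List (Set W), Vs = t.toList.map Ux ++ Us := ⟨_, rfl⟩
  have hV : ∀ U ∈ Vs, IsOpen U ∧ Box D A (A ∩ U) := by
    intro U hU
    rw [hVs] at hU
    rcases List.mem_append.1 hU with hU | hU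
    · obtain ⟨x, hx, rfl⟩ := List.mem_map.1 hU
      have := htL x (Finset.mem_toList.1 hx)
      exact ⟨hUo x this, hUb x this⟩
    · exact h1 U hU
  have hLV : L ⊆ A ∩ {x | ∃ U ∈ Vs, x ∈ U} := by
    intro x hx
    refine ⟨hLA hx, ?_⟩
    obtain ⟨y, hy, hxy⟩ := Set.mem_iUnion₂.1 (ht hx)
    refine ⟨Ux y, ?_, hxy⟩
    rw [hVs]
    exact List.mem_append_left _ (List.mem_map.2 ⟨y, Finset.mem_toList.2 hy, rfl⟩)
  refine Parity_fin h Vs hV l ?_ ⟨e, ⟨h0, L, hL, hLV, hs⟩, hz.mono Set.inter_subset_left⟩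
  intro b hb
  obtain ⟨U, hU, h3, h4⟩ := h2 b hb
  have hUV : U ∈ Vs := by
    rw [hVs]
    exact List.mem_append_right _ hU
  exact ⟨A ∩ U, Parity_box_down Set.inter_subset_left
    (Set.inter_subset_inter_right A fun x hx => ⟨U, hUV, hx⟩) (hV U hUV).2, h3, h4⟩

theorem Mfd.nonzero (h : Mfd D A) (hne : A.Nonempty) :
    ∃ f, Zc A (D + 1) f ∧ ¬ Bc A (D + 1) f := by
  obtain ⟨x, hx⟩ := hne
  obtain ⟨O, b, hO, -, -, hz, hn⟩ := BClp.exists_small h hx (Filter.univ_mem)
  have hb : BCl D A b := ⟨O, hO, hz, hn⟩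
  refine ⟨b, Parity_zc hb, fun hc => ?_⟩
  have := h.parity [b] (by simpa using hb) (by simpa using hc)
  simp at this

end

end Pool.Agent.AVR
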