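import Pool.Agent.Lib.MP_89fc28_gt.Unif
import Pool.Agent.Lib.MP_89fc28_gt.Cut
import Pool.Agent.Lib.MP_89fc28_gt.Contig
import Pool.Agent.Lib.MP_89fc28_gt.Htpy
import Pool.Agent.Lib.MP_89fc28_gt.Trans

set_option autoImplicit false

namespace Pool.Agent.AVR

open Finset Topology

/-- uniform vanishing near a compact set where the cochain is locally zero -/
theorem taut_unif {W : Type*} [MetricSpace W] {A K : Set W} {n : ℕ} {f : Finset W → ZMod 2}
    (hK : IsCompact K) (hf : ∀ x ∈ K, LzAt A n f x) :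
    ∃ ε > 0, ∀ T : Finset W, T.card = n → (T : Set W) ⊆ A →
      ∀ y ∈ K, (∀ z ∈ T, dist z y < ε) → f T = 0 := by
  refine hK.induction_on
    (p := fun t => ∃ ε > 0, ∀ T : Finset W, T.card = n → (T : Set W) ⊆ A →
      ∀ y ∈ t, (∀ z ∈ T, dist z y < ε) → f T = 0) ?_ ?_ ?_ ?_
  · exact ⟨1, one_pos, fun S _ _ y hy => absurd hy (Set.notMem_empty _)⟩
  · rintro s t hst ⟨δ, hδ, h⟩
    exact ⟨δ, hδ, fun S h1 h2 y hy => h S h1 h2 y (hst hy)⟩
  · rintro s t ⟨δ, hδ, h⟩ ⟨δ', hδ', h'⟩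
    refine ⟨min δ δ', lt_min hδ hδ', ?_⟩
    rintro S h1 h2 y (hy | hy) h4
    · exact h S h1 h2 y hy fun a ha => (h4 a ha).trans_le (min_le_left _ _)
    · exact h' S h1 h2 y hy fun a ha => (h4 a ha).trans_le (min_le_right _ _)
  · intro y₀ hy₀
    obtain ⟨U, hU, hUf⟩ := hf y₀ hy₀
    obtain ⟨ε, hε, hb⟩ := Metric.mem_nhds_iff.mp hU
    refine ⟨Metric.ball y₀ (ε / 2),
      mem_nhdsWithin_of_mem_nhds (Metric.ball_mem_nhds _ (by positivity)),
      ε / 2, by positivity, ?_⟩
    intro S h1 h2 y hy h4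
    refine hUf S h1 (fun x hx => hb ?_) h2
    rw [Metric.mem_ball] at hy ⊢
    calc dist x y₀ ≤ dist x y + dist y y₀ := dist_triangle _ _ _
      _ < ε / 2 + ε / 2 := add_lt_add (h4 x hx) hy
      _ = ε := by ring

/-- a near projection to `A₁` -/
theorem taut_proj {W : Type*} [MetricSpace W] (A C : Set W) (hC : IsClosed C) {d : ℝ}
    (hd : 0 < d) :
    ∃ ρ : W → W, (∀ x ∈ A, ρ x ∈ A) ∧ (∀ x ∈ C, ρ x = x) ∧ (∀ x, dist x (ρ x) < 2 * d) ∧
      (∀ x ∈ A, ∀ y ∈ A ∩ C, dist x y < d → ρ x ∈ A ∩ C ∧ dist (ρ x) y ≤ 3 * dist x y) ∧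
      (∀ x, ρ x ≠ x → ρ x ∈ A ∩ C ∧ ∃ y ∈ A ∩ C, dist x y < d) := by
  classical
  have hex : ∀ x : W, x ∉ C → (∃ y ∈ A ∩ C, dist x y < d) →
      ∃ y ∈ A ∩ C, dist x y < 2 * d ∧ ∀ z ∈ A ∩ C, dist x y ≤ 2 * dist x z := by
    rintro x hx ⟨y₀, hy₀, hd₀⟩
    have hne : (A ∩ C).Nonempty := ⟨y₀, hy₀⟩
    have hpos : 0 < Metric.infDist x (A ∩ C) := by
      by_contra hcon
      have h0 : Metric.infDist x (A ∩ C) = 0 :=
        le_antisymm (not_lt.mp hcon) Metric.infDist_nonneg
      have hcl : x ∈ closure (A ∩ C) := (Metric.mem_closure_iff_infDist_zero hne).mpr h0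
      exact hx (hC.closure_subset_iff.mpr Set.inter_subset_right hcl)
    obtain ⟨y, hy, hlt⟩ := (Metric.infDist_lt_iff hne).mp
      (show Metric.infDist x (A ∩ C) < 2 * Metric.infDist x (A ∩ C) by linarith)
    refine ⟨y, hy, ?_, fun z hz => ?_⟩
    · have := Metric.infDist_le_dist_of_mem (x := x) hy₀
      linarith
    · have := Metric.infDist_le_dist_of_mem (x := x) hz
      linarith
  set ρ : W → W := fun x => if h : x ∉ C ∧ ∃ y ∈ A ∩ C, dist x y < d then
    (hex x h.1 h.2).choose else x with hρ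
  have hr1 : ∀ x (h : x ∉ C ∧ ∃ y ∈ A ∩ C, dist x y < d), ρ x ∈ A ∩ C ∧
      dist x (ρ x) < 2 * d ∧ ∀ z ∈ A ∩ C, dist x (ρ x) ≤ 2 * dist x z := by
    intro x h
    have e : ρ x = (hex x h.1 h.2).choose := by simp only [hρ]; rw [dif_pos h]
    rw [e]
    exact (hex x h.1 h.2).choose_spec
  have hr2 : ∀ x, ¬ (x ∉ C ∧ ∃ y ∈ A ∩ C, dist x y < d) → ρ x = x := by
    intro x h
    simp only [hρ]; rw [dif_neg h]
  refine ⟨ρ, ?_, ?_, ?_, ?_, ?_⟩
  · intro x hx
    by_cases h : x ∉ C ∧ ∃ y ∈ A ∩ C, dist x y < d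
    · exact (hr1 x h).1.1
    · rw [hr2 x h]; exact hx
  · intro x hx
    exact hr2 x fun h => h.1 hx
  · intro x
    by_cases h : x ∉ C ∧ ∃ y ∈ A ∩ C, dist x y < d
    · exact (hr1 x h).2.1
    · rw [hr2 x h, dist_self]; positivity
  · intro x hx y hy hxy
    by_cases hxC : x ∈ C
    · rw [hr2 x fun h => h.1 hxC]
      exact ⟨⟨hx, hxC⟩, by nlinarith [dist_nonneg (x := x) (y := y)]⟩
    · have h := hr1 x ⟨hxC, y, hy, hxy⟩
      refine ⟨h.1, ?_⟩
      calc dist (ρ x) y ≤ dist (ρ x) x + dist x y := dist_triangle _ _ _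
        _ ≤ 2 * dist x y + dist x y := by
            rw [dist_comm (ρ x) x]
            exact add_le_add (h.2.2 y hy) le_rfl
        _ = 3 * dist x y := by ring
  · intro x hx
    by_cases h : x ∉ C ∧ ∃ y ∈ A ∩ C, dist x y < d
    · exact ⟨(hr1 x h).1, h.2⟩
    · exact absurd (hr2 x h) hx

/-- tautness: if `e` is a cocycle near the closed part `A ∩ C` and is a coboundary there then it is
cohomologous to a cochain with compact support in the open part -/
theorem taut {W : Type*} [MetricSpace W] {A C : Set W} (hA : LC A) (hC : IsClosed C) {m : ℕ}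
    (hm : 1 ≤ m) {e : Finset W → ZMod 2} (he : CS A e)
    (hz : ∀ x ∈ A ∩ C, LzAt A (m + 1) (dd e) x) (hb : Bc (A ∩ C) m e) :
    ∃ e' : Finset W → ZMod 2, CS (A ∩ Cᶜ) e' ∧ Bc A m (e + e') := by
  classical
  obtain ⟨u, hu, hLz⟩ := hb
  obtain ⟨e0, Le, hLe, hLeA, hes⟩ := he
  obtain ⟨u0, Lu, hLu, hLuA, hus⟩ := hu
  have hL0 : IsCompact (Le ∪ Lu) := hLe.union hLu
  obtain ⟨K, hK, hKA, d₀, hd₀, hKd⟩ := hA.exists_delta hL0
    (Set.union_subset hLeA (hLuA.trans Set.inter_subset_left))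
  have hK₁ : IsCompact (K ∩ C) := hK.inter_right hC
  obtain ⟨ε, hε, hεz⟩ := taut_unif (A := A) (n := m + 1) (f := dd e) hK₁
    fun x hx => hz x ⟨hKA hx.1, hx.2⟩
  set d : ℝ := min d₀ ε / 8 with hd
  have hd0 : 0 < d := by positivity
  have hdd₀ : 8 * d ≤ d₀ := by rw [hd]; have := min_le_left d₀ ε; linarith
  have hdε : 8 * d ≤ ε := by rw [hd]; have := min_le_right d₀ ε; linarith
  obtain ⟨ρ, hρA, hρC, hρd, hρy, hρne⟩ := taut_proj A C hC hd0
  -- step 1
  have step1 : Bc A m (pull A id e + pull A ρ e) := by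
    refine contig hm hA id ρ e e0 Le hes K hK hKA ?_ ?_
    · rintro x hx (h | h)
      · exact hKd x hx x (Or.inl h) (by rw [dist_self]; exact hd₀)
      · exact hKd x hx (ρ x) (Or.inl h) ((hρd x).trans_le (by linarith))
    · intro x hx
      by_cases hfar : ∀ y ∈ A ∩ C, 2 * d ≤ dist x y
      · refine ⟨Metric.ball x d, Metric.ball_mem_nhds _ hd0, Or.inl fun z hz' => ?_⟩
        by_contra hne
        obtain ⟨_, y, hy, hyd⟩ := hρne z (fun h => hne h.symm)
        have h1 := hfar y hy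
        have h2 : dist x y ≤ dist x z + dist z y := dist_triangle _ _ _
        have h3 : dist x z < d := by rw [dist_comm]; exact hz'.1
        linarith
      · push Not at hfar
        obtain ⟨y, hy, hyd⟩ := hfar
        refine ⟨Metric.ball x d, Metric.ball_mem_nhds _ hd0, Or.inr fun T hT hTz => ?_⟩
        have hTx : ∀ a ∈ T, dist a x < 3 * d := by
          intro a ha
          obtain ⟨z, hz', rfl | rfl⟩ := hTz a ha
          · have := hz'.1
            rw [Metric.mem_ball] at this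
            exact lt_of_lt_of_le this (by linarith)
          · calc dist (ρ z) x ≤ dist (ρ z) z + dist z x := dist_triangle _ _ _
              _ < 2 * d + d := add_lt_add (by rw [dist_comm]; exact hρd z) hz'.1
              _ = 3 * d := by ring
        have hTA : (T : Set W) ⊆ A := by
          intro a ha
          obtain ⟨z, hz', rfl | rfl⟩ := hTz a ha
          · exact hz'.2
          · exact hρA z hz'.2
        by_contra hne
        obtain ⟨S, hST, hSc, heS⟩ := htpy_dd_ne hne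
        obtain ⟨a, ha⟩ : S.Nonempty := card_pos.mp (by omega)
        have haL : a ∈ Le := hes S heS ha
        have hya : dist y a < 5 * d := by
          calc dist y a ≤ dist y x + dist x a := dist_triangle _ _ _
            _ < 2 * d + 3 * d := add_lt_add (by rwa [dist_comm])
                (by rw [dist_comm]; exact hTx a (hST ha))
            _ = 5 * d := by ring
        have hyK : y ∈ K := hKd y hy.1 a (Or.inl haL) (by linarith)
        refine hne (hεz T hT hTA y ⟨hyK, hy.2⟩ fun b hb => ?_)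
        calc dist b y ≤ dist b x + dist x y := dist_triangle _ _ _
          _ < 3 * d + 2 * d := add_lt_add (hTx b hb) hyd
          _ ≤ ε := by linarith
  rw [pull_id, CS.res_self ⟨e0, Le, hLe, hLeA, hes⟩] at step1
  -- step 2
  have hcsu : CS A (pull A ρ u) := by
    refine ⟨by rw [pull, res_empty, gst_empty, u0], K, hK, hKA, fun S hS x hx => ?_⟩
    obtain ⟨hSA, hne⟩ := res_ne_zero hS
    have hi : Set.InjOn ρ (S : Set W) := by
      by_contra hi; exact hne (gst_of_not_inj ρ _ S hi)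
    rw [gst_of_inj ρ _ S hi] at hne
    have hxu : ρ x ∈ Lu := hus _ hne (by simpa using ⟨x, hx, rfl⟩)
    exact hKd x (hSA hx) (ρ x) (Or.inr hxu) ((hρd x).trans_le (by linarith))
  have hcse : CS A (pull A ρ e) := by
    refine ⟨by rw [pull, res_empty, gst_empty, e0], K, hK, hKA, fun S hS x hx => ?_⟩
    obtain ⟨hSA, hne⟩ := res_ne_zero hS
    have hi : Set.InjOn ρ (S : Set W) := by
      by_contra hi; exact hne (gst_of_not_inj ρ _ S hi)
    rw [gst_of_inj ρ _ S hi] at hne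
    have hxu : ρ x ∈ Le := hes _ hne (by simpa using ⟨x, hx, rfl⟩)
    exact hKd x (hSA hx) (ρ x) (Or.inl hxu) ((hρd x).trans_le (by linarith))
  have step2 : ∀ x ∈ A, x ∉ Cᶜ → LzAt A m (pull A ρ e + dd (pull A ρ u)) x := by
    intro x hx hxC
    have hxC' : x ∈ C := by simpa using hxC
    obtain ⟨V, hV, hVz⟩ := hLz x ⟨hx, hxC'⟩
    obtain ⟨η, hη, hb⟩ := Metric.mem_nhds_iff.mp hV
    set η' : ℝ := min (η / 3) d with hη'
    have hη'0 : 0 < η' := by positivity
    refine ⟨Metric.ball x η', Metric.ball_mem_nhds _ hη'0, fun S hS hSU hSA => ?_⟩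
    have hz1 : ∀ z ∈ S, ρ z ∈ A ∩ C ∧ ρ z ∈ V := by
      intro z hz'
      have h1 : dist z x < η' := hSU hz'
      have h2 := hρy z (hSA hz') x ⟨hx, hxC'⟩ (h1.trans_le (min_le_right _ _))
      refine ⟨h2.1, hb ?_⟩
      rw [Metric.mem_ball]
      have h3 : η' ≤ η / 3 := min_le_left _ _
      linarith [h2.2]
    have h3 : (pull A ρ e + dd (pull A ρ u)) S = gst ρ (e + dd u) S := by
      rw [Pi.add_apply, trans_dd_pull ρ u hSA, pull, pull, res_of_subset _ hSA,
        res_of_subset _ hSA, gst_add, Pi.add_apply]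
    rw [h3]
    by_cases hi : Set.InjOn ρ (S : Set W)
    · rw [gst_of_inj ρ _ S hi]
      refine hVz _ (by rw [card_image_of_injOn hi, hS]) (trans_image fun z hz' => (hz1 z hz').2)
        (trans_image fun z hz' => (hz1 z hz').1)
    · exact gst_of_not_inj ρ _ S hi
  -- step 3
  obtain ⟨w, hw, hwz⟩ := cs_dd hA hcsu
  have step3 : ∀ x ∈ A, x ∉ Cᶜ → LzAt A m (pull A ρ e + w) x := by
    intro x hx hxC
    have h1 := (step2 x hx hxC).add (hwz m x hx)
    have e1 : pull A ρ e + dd (pull A ρ u) + (w + dd (pull A ρ u)) = pull A ρ e + w := by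
      have : pull A ρ e + dd (pull A ρ u) + (w + dd (pull A ρ u))
        = pull A ρ e + w + (dd (pull A ρ u) + dd (pull A ρ u)) := by abel
      rw [this, co_add_self, add_zero]
    rwa [e1] at h1
  obtain ⟨e', he', hee'⟩ := cut hA hC.isOpen_compl (hcse.add hw) m step3
  refine ⟨e', he', ?_⟩
  have hw' : Bc A m w := by
    refine ⟨pull A ρ u, hcsu, hwz m⟩
  have h1 := (step1.add (Bc.of_Lz hee')).add hw'
  have e2 : e + pull A ρ e + (pull A ρ e + w + e') + w = e + e' := by
    have : e + pull A ρ e + (pull A ρ e + w + e') + w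
      = e + e' + (pull A ρ e + pull A ρ e) + (w + w) := by abel
    rw [this, co_add_self, co_add_self, add_zero, add_zero]
  rwa [e2] at h1

end Pool.Agent.AVR
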